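import Pool.Agent.W518.EG.Stms2

/-!
# Project EG (MP_4f5420_ag): the component equations of the two flags
-/

set_option autoImplicit false

open scoped WithZero Matrix
open IntermediateField
open Pool.Agent.Helper395.CS hiding genus
open Pool.Agent.Helper395.BC

namespace Pool.Agent.W518.EG

variable {K : Type} [Field K] [Algebra ℂ K]

/-- `x` is zero or has orders `p` at `P` and `q` at `Q` -/
def Pre.O (D : Pre K) (x : K) (p q : ℤ) : Prop := x = 0 ∨ (x ≠ 0 ∧ D.P.ord x = p ∧ D.Q.ord x = q)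

theorem Pre.O.mul {D : Pre K} {x y : K} {p q p' q' : ℤ} (hx : D.O x p q) (hy : D.O y p' q') :
    D.O (x * y) (p + p') (q + q') := by
  rcases hx with rfl | ⟨hx, h1, h2⟩
  · left; simp
  rcases hy with rfl | ⟨hy, h3, h4⟩
  · left; simp
  right
  refine ⟨mul_ne_zero hx hy, ?_, ?_⟩
  · rw [Point.ord_mul _ hx hy, h1, h3]
  · rw [Point.ord_mul _ hx hy, h2, h4]

theorem Pre.O.ltP {D : Pre K} {x y : K} {p q p' q' : ℤ} (hx : D.O x p q) (hx0 : x ≠ 0)
    (hy : D.O y p' q') (h : p < p') : D.P.val y < D.P.val x := by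
  rcases hx with rfl | ⟨hx, h1, h2⟩
  · exact absurd rfl hx0
  rcases hy with rfl | ⟨hy, h3, h4⟩
  · rw [map_zero]
    exact zero_lt_iff.2 (D.P.val_ne_zero hx)
  · rw [D.P.val_eq_exp hx, D.P.val_eq_exp hy, WithZero.exp_lt_exp]
    omega

theorem Pre.O.ltQ {D : Pre K} {x y : K} {p q p' q' : ℤ} (hx : D.O x p q) (hx0 : x ≠ 0)
    (hy : D.O y p' q') (h : q < q') : D.Q.val y < D.Q.val x := by
  rcases hx with rfl | ⟨hx, h1, h2⟩
  · exact absurd rfl hx0
  rcases hy with rfl | ⟨hy, h3, h4⟩
  · rw [map_zero]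
    exact zero_lt_iff.2 (D.Q.val_ne_zero hx)
  · rw [D.Q.val_eq_exp hx, D.Q.val_eq_exp hy, WithZero.exp_lt_exp]
    omega

theorem dom1 {v : Point K} {x y : K} (h : x = y) (h1 : v.val y < v.val x) : False := by
  rw [h] at h1
  exact lt_irrefl _ h1

theorem dom2 {v : Point K} {x y z : K} (h : x = y + z) (h1 : v.val y < v.val x)
    (h2 : v.val z < v.val x) : False := by
  have := Valuation.map_add_lt v.val h1 h2
  rw [← h] at this
  exact lt_irrefl _ this

theorem dom3 {v : Point K} {x y z t : K} (h : x = y + z + t) (h1 : v.val y < v.val x)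
    (h2 : v.val z < v.val x) (h3 : v.val t < v.val x) : False := by
  have := Valuation.map_add_lt v.val (Valuation.map_add_lt v.val h1 h2) h3
  rw [← h] at this
  exact lt_irrefl _ this

theorem vneg {v : Point K} {x y : K} (h : v.val y < v.val x) : v.val (-y) < v.val x := by
  rwa [Valuation.map_neg]

/-- the data of a semi-invariant element of `V` -/
structure Dat.VT (D : Dat K) (j : ℤ) (x : K) : Prop where
  wt : D.Wt j x
  bd : D.Bd 1 x

/-- the data of a semi-invariant element of `W` -/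
structure Dat.WT (D : Dat K) (d : K) (j : ℤ) (x : K) : Prop where
  wt : D.Wt j x
  bd : D.Bd d x

theorem Dat.VT.o0 {D : Dat K} (hV : S_V) {x : K} (h : D.VT 0 x) : D.O x 0 0 := by
  by_cases hx : x = 0
  · exact Or.inl hx
  refine Or.inr ⟨hx, ?_⟩
  rcases hV K D 0 x hx h.wt h.bd with ⟨c, hc, h1 | h1 | h1⟩ | ⟨h1, h2⟩
  · rw [h1.2, Point.ord_const, Point.ord_const]; exact ⟨rfl, rfl⟩
  · omega
  · omega
  · omega

theorem ord_smul' (v : Point K) {c : ℂ} (hc : c ≠ 0) (x : K) : v.ord (c • x) = v.ord x := by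
  by_cases hx : x = 0
  · rw [hx, smul_zero]
  rw [Algebra.smul_def, Point.ord_mul _ (by simpa using hc) hx, Point.ord_const, zero_add]

theorem Dat.VT.o1 {D : Dat K} (hV : S_V) {x : K} (h : D.VT 1 x) : D.O x (-5) 5 := by
  by_cases hx : x = 0
  · exact Or.inl hx
  refine Or.inr ⟨hx, ?_⟩
  rcases hV K D 1 x hx h.wt h.bd with ⟨c, hc, h1 | h1 | h1⟩ | ⟨h1, h2⟩
  · omega
  · rw [h1.2, ord_smul' _ hc, ord_smul' _ hc, D.ordP, D.ordQ]; exact ⟨rfl, rfl⟩
  · omega
  · omega

theorem Dat.VT.om {D : Dat K} (hV : S_V) {x : K} (h : D.VT (-1) x) : D.O x 5 (-5) := by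
  by_cases hx : x = 0
  · exact Or.inl hx
  refine Or.inr ⟨hx, ?_⟩
  rcases hV K D (-1) x hx h.wt h.bd with ⟨c, hc, h1 | h1 | h1⟩ | ⟨h1, h2⟩
  · omega
  · omega
  · rw [h1.2, ord_smul' _ hc, ord_smul' _ hc, Point.ord_inv, Point.ord_inv, D.ordP, D.ordQ]
    exact ⟨by norm_num, rfl⟩
  · omega

theorem Dat.VT.oj {D : Dat K} (hV : S_V) {j : ℤ} (hj : j = 2 ∨ j = -2 ∨ j = 3 ∨ j = -3) {x : K}
    (h : D.VT j x) : D.O x (aexp j) (-7 - aexp j) := by
  by_cases hx : x = 0
  · exact Or.inl hx
  refine Or.inr ⟨hx, ?_⟩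
  rcases hV K D j x hx h.wt h.bd with ⟨c, hc, h1 | h1 | h1⟩ | ⟨h1, h2⟩
  · omega
  · omega
  · omega
  · exact h2

theorem Dat.WT.oj {D : Dat K} (hW : S_W) {d : K} (hd : D.Tw d) {j : ℤ} {x : K}
    (h : D.WT d j x) : D.O x (7 + aexp j) (- aexp j) := by
  by_cases hx : x = 0
  · exact Or.inl hx
  exact Or.inr ⟨hx, (hW K D d hd j x hx h.wt h.bd).2⟩

theorem Dat.WT.o0 {D : Dat K} (hW : S_W) {d : K} (hd : D.Tw d) {j : ℤ} (hj : (7 : ℤ) ∣ j) {x : K}
    (h : D.WT d j x) : x = 0 := by
  by_contra hx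
  exact (hW K D d hd j x hx h.wt h.bd).1 hj

theorem solve (htwo : S_two) (hV : S_V) (hW : S_W) (D : Dat K) (d : K) (hd : D.Tw d)
    {x2 x3 x0 xm y2 y3 y0 y1 w2 w3 wm z2 z3 z1 : K}
    (hx2 : D.VT 2 x2) (hx3 : D.VT 3 x3) (hx0 : D.VT 0 x0) (hxm : D.VT (-1) xm)
    (hy2 : D.VT (-2) y2) (hy3 : D.VT (-3) y3) (hy0 : D.VT 0 y0) (hy1 : D.VT 1 y1)
    (hw2 : D.WT d 2 w2) (hw3 : D.WT d 3 w3) (hwm : D.WT d (-1) wm)
    (hz2 : D.WT d (-2) z2) (hz3 : D.WT d (-3) z3) (hz1 : D.WT d 1 z1)
    (hx : ¬ (x2 = 0 ∧ x3 = 0 ∧ x0 = 0 ∧ xm = 0)) (hy : ¬ (y2 = 0 ∧ y3 = 0 ∧ y0 = 0 ∧ y1 = 0))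
    (hw : ¬ (w2 = 0 ∧ w3 = 0 ∧ wm = 0)) (hz : ¬ (z2 = 0 ∧ z3 = 0 ∧ z1 = 0))
    (E2 : y0 * w2 = 0) (Em2 : x0 * z2 = 0) (E1 : x3 * z2 + x0 * z1 = y2 * w3)
    (Em1 : x2 * z3 = y3 * w2 + y0 * wm) (E3 : x2 * z1 + xm * z3 = y0 * w3 + y3 * wm + y1 * w2)
    (Em3 : x3 * z1 + x0 * z3 + xm * z2 = y2 * wm + y1 * w3)
    (E0 : x2 * z2 + x3 * z3 + xm * z1 = y2 * w2 + y3 * w3 + y1 * wm) :
    x2 = 0 ∧ w2 = 0 ∧ wm = 0 := by
  have ox2 := hx2.oj hV (by simp)
  have ox3 := hx3.oj hV (by simp)
  have ox0 := hx0.o0 hV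
  have oxm := hxm.om hV
  have oy2 := hy2.oj hV (by simp)
  have oy3 := hy3.oj hV (by simp)
  have oy0 := hy0.o0 hV
  have oy1 := hy1.o1 hV
  have ow2 := hw2.oj hW hd
  have ow3 := hw3.oj hW hd
  have owm := hwm.oj hW hd
  have oz2 := hz2.oj hW hd
  have oz3 := hz3.oj hW hd
  have oz1 := hz1.oj hW hd
  -- the case w2 ≠ 0
  have A1 : w2 = 0 := by
    by_contra h
    have y00 : y0 = 0 := by simpa [h] using E2
    subst y00
    have y30 : y3 = 0 := by
      by_contra h3
      have e : x2 * z3 = y3 * w2 := by linear_combination Em1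
      have hne : x2 * z3 ≠ 0 := by rw [e]; exact mul_ne_zero h3 h
      exact htwo K D d hd 2 (-3) (-3) 2 x2 z3 y3 w2 (by simp) (by simp) (by norm_num) (by norm_num)
        (by norm_num) (Or.inl rfl) (left_ne_zero_of_mul hne) (right_ne_zero_of_mul hne) h3 h
        hx2.wt hz3.wt hy3.wt hw2.wt hx2.bd hy3.bd hz3.bd hw2.bd e
    subst y30
    have x2z3 : x2 * z3 = 0 := by linear_combination Em1
    have y10 : y1 = 0 := by
      by_contra h1
      have hne : y1 * w2 ≠ 0 := mul_ne_zero h1 h
      by_cases hx2z1 : x2 * z1 = 0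
      · exact dom1 (v := D.P) (x := y1 * w2) (y := xm * z3) (by linear_combination hx2z1 - E3)
          ((oy1.mul ow2).ltP hne (oxm.mul oz3) (by decide))
      · have z30 : z3 = 0 := by
          rcases mul_eq_zero.1 x2z3 with h2 | h2
          · exact absurd (by rw [h2, zero_mul]) hx2z1
          · exact h2
        subst z30
        exact dom1 (v := D.Q) (x := x2 * z1) (y := y1 * w2) (by linear_combination E3)
          ((ox2.mul oz1).ltQ hx2z1 (oy1.mul ow2) (by decide))
    subst y10
    have y2n : y2 ≠ 0 := by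
      intro h2
      exact hy ⟨h2, rfl, rfl, rfl⟩
    have hne : y2 * w2 ≠ 0 := mul_ne_zero y2n h
    have x2z1 : x2 * z1 = 0 := by
      by_contra h1
      exact dom1 (v := D.P) (x := x2 * z1) (y := -(xm * z3)) (by linear_combination E3)
          (vneg ((ox2.mul oz1).ltP h1 (oxm.mul oz3) (by decide)))
    by_cases h2 : x2 = 0
    · subst h2
      have hx3z3 : x3 * z3 ≠ 0 := by
        intro h3
        exact dom1 (v := D.P) (x := y2 * w2) (y := xm * z1) (by linear_combination h3 - E0)
          ((oy2.mul ow2).ltP hne (oxm.mul oz1) (by decide))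
      have xm0 : xm = 0 := by
        have : xm * z3 = 0 := by linear_combination E3
        rcases mul_eq_zero.1 this with h4 | h4
        · exact h4
        · exact absurd h4 (right_ne_zero_of_mul hx3z3)
      subst xm0
      exact htwo K D d hd 3 (-3) (-2) 2 x3 z3 y2 w2 (by simp) (by simp) (by norm_num) (by norm_num)
        (by norm_num) (Or.inr (by decide)) (left_ne_zero_of_mul hx3z3)
        (right_ne_zero_of_mul hx3z3) y2n h
        hx3.wt hz3.wt hy2.wt hw2.wt hx3.bd hy2.bd hz3.bd hw2.bd (by linear_combination E0)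
    · have z30 : z3 = 0 := by simpa [h2] using x2z3
      have z10 : z1 = 0 := by simpa [h2] using x2z1
      subst z30; subst z10
      have z2n : z2 ≠ 0 := fun h3 => hz ⟨h3, rfl, rfl⟩
      exact htwo K D d hd 2 (-2) (-2) 2 x2 z2 y2 w2 (by simp) (by simp) (by norm_num) (by norm_num)
        (by norm_num) (Or.inl rfl) h2 z2n y2n h
        hx2.wt hz2.wt hy2.wt hw2.wt hx2.bd hy2.bd hz2.bd hw2.bd (by linear_combination E0)
  subst A1
  have A2 : z2 = 0 := by
    by_contra h
    have x00 : x0 = 0 := by simpa [h] using Em2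
    subst x00
    have x30 : x3 = 0 := by
      by_contra h3
      have e : x3 * z2 = y2 * w3 := by linear_combination E1
      have hne : y2 * w3 ≠ 0 := by rw [← e]; exact mul_ne_zero h3 h
      exact htwo K D d hd 3 (-2) (-2) 3 x3 z2 y2 w3 (by simp) (by simp) (by norm_num) (by norm_num)
        (by norm_num) (Or.inl rfl) h3 h (left_ne_zero_of_mul hne) (right_ne_zero_of_mul hne)
        hx3.wt hz2.wt hy2.wt hw3.wt hx3.bd hy2.bd hz2.bd hw3.bd e
    subst x30
    have y2w3 : y2 * w3 = 0 := by linear_combination -E1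
    have xm0 : xm = 0 := by
      by_contra h1
      have hne : xm * z2 ≠ 0 := mul_ne_zero h1 h
      by_cases hy2wm : y2 * wm = 0
      · exact dom1 (v := D.Q) (x := xm * z2) (y := y1 * w3) (by linear_combination hy2wm + Em3)
          ((oxm.mul oz2).ltQ hne (oy1.mul ow3) (by decide))
      · have w30 : w3 = 0 := by
          rcases mul_eq_zero.1 y2w3 with h2 | h2
          · exact absurd (by rw [h2, zero_mul]) hy2wm
          · exact h2
        subst w30
        exact dom1 (v := D.P) (x := y2 * wm) (y := xm * z2) (by linear_combination -Em3)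
          ((oy2.mul owm).ltP hy2wm (oxm.mul oz2) (by decide))
    subst xm0
    have x2n : x2 ≠ 0 := by
      intro h2
      exact hx ⟨h2, rfl, rfl, rfl⟩
    have hne : x2 * z2 ≠ 0 := mul_ne_zero x2n h
    have hy3w3 : y3 * w3 ≠ 0 := by
      intro h3
      exact dom1 (v := D.Q) (x := x2 * z2) (y := y1 * wm) (by linear_combination h3 + E0)
          ((ox2.mul oz2).ltQ hne (oy1.mul owm) (by decide))
    have y10 : y1 = 0 := by
      by_contra h1
      have h4 : y1 * w3 ≠ 0 := mul_ne_zero h1 (right_ne_zero_of_mul hy3w3)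
      have h5 : y2 * wm ≠ 0 := by
        intro h5
        exact h4 (by linear_combination -Em3 - h5)
      exact dom1 (v := D.Q) (x := y2 * wm) (y := -(y1 * w3)) (by linear_combination -Em3)
          (vneg ((oy2.mul owm).ltQ h5 (oy1.mul ow3) (by decide)))
    subst y10
    exact htwo K D d hd 2 (-2) (-3) 3 x2 z2 y3 w3 (by simp) (by simp) (by norm_num) (by norm_num)
        (by norm_num) (Or.inr (by decide)) x2n h (left_ne_zero_of_mul hy3w3)
        (right_ne_zero_of_mul hy3w3)
        hx2.wt hz2.wt hy3.wt hw3.wt hx2.bd hy3.bd hz2.bd hw3.bd (by linear_combination E0)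
  subst A2
  have x0z1 : x0 * z1 = 0 := by
    by_contra h
    have h1 : y2 * w3 ≠ 0 := fun h1 => h (by linear_combination E1 + h1)
    exact dom1 (v := D.Q) (x := y2 * w3) (y := x0 * z1) (by linear_combination -E1)
      ((oy2.mul ow3).ltQ h1 (ox0.mul oz1) (by decide))
  have y2w3 : y2 * w3 = 0 := by linear_combination x0z1 - E1
  have x2z3 : x2 * z3 = 0 := by
    by_contra h
    exact dom1 (v := D.P) (x := x2 * z3) (y := y0 * wm) (by linear_combination Em1)
      ((ox2.mul oz3).ltP h (oy0.mul owm) (by decide))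
  have y0wm : y0 * wm = 0 := by linear_combination x2z3 - Em1
  have A3 : z1 = 0 := by
    by_contra h
    have x00 : x0 = 0 := by simpa [h] using x0z1
    subst x00
    by_cases hm : wm = 0
    · subst hm
      have w3n : w3 ≠ 0 := fun h3 => hw ⟨rfl, h3, rfl⟩
      have y20 : y2 = 0 := by simpa [w3n] using y2w3
      subst y20
      have x20 : x2 = 0 := by
        by_contra h2
        exact dom2 (v := D.P) (x := x2 * z1) (y := y0 * w3) (z := -(xm * z3))
          (by linear_combination E3)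
          ((ox2.mul oz1).ltP (mul_ne_zero h2 h) (oy0.mul ow3) (by decide))
          (vneg ((ox2.mul oz1).ltP (mul_ne_zero h2 h) (oxm.mul oz3) (by decide)))
      subst x20
      have x30 : x3 = 0 := by
        by_contra h3
        exact dom1 (v := D.Q) (x := x3 * z1) (y := y1 * w3) (by linear_combination Em3)
          ((ox3.mul oz1).ltQ (mul_ne_zero h3 h) (oy1.mul ow3) (by decide))
      subst x30
      have xm0 : xm = 0 := by
        by_contra h3
        have h4 : y3 * w3 ≠ 0 := by
          intro h4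
          exact mul_ne_zero h3 h (by linear_combination E0 + h4)
        exact dom1 (v := D.P) (x := y3 * w3) (y := xm * z1) (by linear_combination -E0)
          ((oy3.mul ow3).ltP h4 (oxm.mul oz1) (by decide))
      exact hx ⟨rfl, rfl, rfl, xm0⟩
    · have y00 : y0 = 0 := by simpa [hm] using y0wm
      subst y00
      by_cases h3 : w3 = 0
      · subst h3
        have x30 : x3 = 0 := by
          by_contra h3
          have e : x3 * z1 = y2 * wm := by linear_combination Em3
          have hne : y2 * wm ≠ 0 := by rw [← e]; exact mul_ne_zero h3 h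
          exact htwo K D d hd 3 1 (-2) (-1) x3 z1 y2 wm (by simp) (by simp) (by norm_num)
            (by norm_num) (by norm_num) (Or.inr (by decide)) h3 h (left_ne_zero_of_mul hne) hm
            hx3.wt hz1.wt hy2.wt hwm.wt hx3.bd hy2.bd hz1.bd hwm.bd e
        subst x30
        have y20 : y2 = 0 := by
          have : y2 * wm = 0 := by linear_combination -Em3
          simpa [hm] using this
        subst y20
        have xm0 : xm = 0 := by
          by_contra h4
          exact dom1 (v := D.Q) (x := xm * z1) (y := y1 * wm) (by linear_combination E0)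
            ((oxm.mul oz1).ltQ (mul_ne_zero h4 h) (oy1.mul owm) (by decide))
        subst xm0
        have y10 : y1 = 0 := by
          have : y1 * wm = 0 := by linear_combination -E0
          simpa [hm] using this
        subst y10
        have x2n : x2 ≠ 0 := fun h2 => hx ⟨h2, rfl, rfl, rfl⟩
        have y3n : y3 ≠ 0 := fun h2 => hy ⟨rfl, h2, rfl, rfl⟩
        exact htwo K D d hd 2 1 (-3) (-1) x2 z1 y3 wm (by simp) (by simp) (by norm_num)
            (by norm_num) (by norm_num) (Or.inr (by decide)) x2n h y3n hm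
            hx2.wt hz1.wt hy3.wt hwm.wt hx2.bd hy3.bd hz1.bd hwm.bd (by linear_combination E3)
      · have y20 : y2 = 0 := by simpa [h3] using y2w3
        subst y20
        have x30 : x3 = 0 := by
          by_contra h4
          exact dom1 (v := D.Q) (x := x3 * z1) (y := y1 * w3) (by linear_combination Em3)
            ((ox3.mul oz1).ltQ (mul_ne_zero h4 h) (oy1.mul ow3) (by decide))
        subst x30
        have y10 : y1 = 0 := by
          have : y1 * w3 = 0 := by linear_combination -Em3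
          simpa [h3] using this
        subst y10
        have y30 : y3 = 0 := by
          by_contra h4
          exact dom1 (v := D.P) (x := y3 * w3) (y := xm * z1) (by linear_combination -E0)
            ((oy3.mul ow3).ltP (mul_ne_zero h4 h3) (oxm.mul oz1) (by decide))
        exact hy ⟨rfl, y30, rfl, rfl⟩
  subst A3
  have z3n : z3 ≠ 0 := fun h3 => hz ⟨rfl, h3, rfl⟩
  have x20 : x2 = 0 := by simpa [z3n] using x2z3
  subst x20
  refine ⟨rfl, rfl, ?_⟩
  by_contra h
  have y00 : y0 = 0 := by simpa [h] using y0wm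
  subst y00
  have y30 : y3 = 0 := by
    by_contra h3
    exact dom1 (v := D.P) (x := y3 * wm) (y := xm * z3) (by linear_combination -E3)
      ((oy3.mul owm).ltP (mul_ne_zero h3 h) (oxm.mul oz3) (by decide))
  subst y30
  have y20 : y2 = 0 := by
    by_contra h3
    exact dom2 (v := D.Q) (x := y2 * wm) (y := x0 * z3) (z := -(y1 * w3))
      (by linear_combination -Em3)
      ((oy2.mul owm).ltQ (mul_ne_zero h3 h) (ox0.mul oz3) (by decide))
      (vneg ((oy2.mul owm).ltQ (mul_ne_zero h3 h) (oy1.mul ow3) (by decide)))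
  subst y20
  have y10 : y1 = 0 := by
    by_contra h3
    have h4 : x3 * z3 ≠ 0 := by
      intro h4
      exact mul_ne_zero h3 h (by linear_combination h4 - E0)
    exact dom1 (v := D.Q) (x := x3 * z3) (y := y1 * wm) (by linear_combination E0)
      ((ox3.mul oz3).ltQ h4 (oy1.mul owm) (by decide))
  exact hy ⟨rfl, rfl, rfl, y10⟩

end Pool.Agent.W518.EG
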