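import Pool.Agent.W518.EG.Branch

/-!
# Project EG (MP_4f5420_ag): the two flags force case A
-/

set_option autoImplicit false

open scoped WithZero Matrix
open IntermediateField
open Pool.Agent.Helper395.CS hiding genus
open Pool.Agent.Helper395.BC

namespace Pool.Agent.W518.EG

variable {K : Type} [Field K] [Algebra ℂ K]

theorem Pre.zeta_ne (D : Pre K) : D.ζ ≠ 0 := D.prim.ne_zero (by norm_num)

theorem Pre.Wt.mul {D : Pre K} {j k : ℤ} {x y : K} (hx : D.Wt j x) (hy : D.Wt k y) :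
    D.Wt (j + k) (x * y) := by
  unfold Pre.Wt at *
  rw [map_mul, hx, hy, smul_mul_smul_comm, zpow_add₀ D.zeta_ne]

theorem Pre.Wt.congr {D : Pre K} {j k : ℤ} {x : K} (hx : D.Wt j x) (h : (7 : ℤ) ∣ j - k) :
    D.Wt k x := by
  unfold Pre.Wt at *
  rw [hx]
  obtain ⟨m, hm⟩ := h
  have : j = k + 7 * m := by omega
  rw [this, zpow_add₀ D.zeta_ne, zpow_mul]
  have h7 : D.ζ ^ (7 : ℤ) = 1 := by exact_mod_cast D.prim.pow_eq_one
  rw [h7, one_zpow, mul_one]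

theorem Pre.Wt.add {D : Pre K} {j : ℤ} {x y : K} (hx : D.Wt j x) (hy : D.Wt j y) :
    D.Wt j (x + y) := by
  unfold Pre.Wt at *
  rw [map_add, hx, hy, smul_add]

theorem Pre.Wt.neg {D : Pre K} {j : ℤ} {x : K} (hx : D.Wt j x) : D.Wt j (-x) := by
  unfold Pre.Wt at *
  rw [map_neg, hx, smul_neg]

theorem Pre.Wt.sub {D : Pre K} {j : ℤ} {x y : K} (hx : D.Wt j x) (hy : D.Wt j y) :
    D.Wt j (x - y) := by
  rw [sub_eq_add_neg]; exact hx.add hy.neg

theorem split7 (hc : S_comp) (D : Pre K) {e0 e1 e2 e3 f1 f2 f3 : K} (h0 : D.Wt 0 e0)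
    (h1 : D.Wt 1 e1) (h2 : D.Wt 2 e2) (h3 : D.Wt 3 e3) (g1 : D.Wt (-1) f1) (g2 : D.Wt (-2) f2)
    (g3 : D.Wt (-3) f3) (h : e0 + e1 + e2 + e3 + f1 + f2 + f3 = 0) :
    e0 = 0 ∧ e1 = 0 ∧ e2 = 0 ∧ e3 = 0 ∧ f1 = 0 ∧ f2 = 0 ∧ f3 = 0 := by
  obtain ⟨-, -, c1, c2, -⟩ := hc K D
  have key : ∀ j : ℤ, D.comp j e0 + D.comp j e1 + D.comp j e2 + D.comp j e3 + D.comp j f1 +
      D.comp j f2 + D.comp j f3 = 0 := by
    intro j
    rw [← map_add, ← map_add, ← map_add, ← map_add, ← map_add, ← map_add, h, map_zero]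
  have k0 := key 0
  rw [c1 0 0 e0 h0 (by decide), c2 0 1 e1 h1 (by decide), c2 0 2 e2 h2 (by decide),
    c2 0 3 e3 h3 (by decide), c2 0 (-1) f1 g1 (by decide), c2 0 (-2) f2 g2 (by decide),
    c2 0 (-3) f3 g3 (by decide)] at k0
  have k1 := key 1
  rw [c2 1 0 e0 h0 (by decide), c1 1 1 e1 h1 (by decide), c2 1 2 e2 h2 (by decide),
    c2 1 3 e3 h3 (by decide), c2 1 (-1) f1 g1 (by decide), c2 1 (-2) f2 g2 (by decide),
    c2 1 (-3) f3 g3 (by decide)] at k1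
  have k2 := key 2
  rw [c2 2 0 e0 h0 (by decide), c2 2 1 e1 h1 (by decide), c1 2 2 e2 h2 (by decide),
    c2 2 3 e3 h3 (by decide), c2 2 (-1) f1 g1 (by decide), c2 2 (-2) f2 g2 (by decide),
    c2 2 (-3) f3 g3 (by decide)] at k2
  have k3 := key 3
  rw [c2 3 0 e0 h0 (by decide), c2 3 1 e1 h1 (by decide), c2 3 2 e2 h2 (by decide),
    c1 3 3 e3 h3 (by decide), c2 3 (-1) f1 g1 (by decide), c2 3 (-2) f2 g2 (by decide),
    c2 3 (-3) f3 g3 (by decide)] at k3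
  have l1 := key (-1)
  rw [c2 (-1) 0 e0 h0 (by decide), c2 (-1) 1 e1 h1 (by decide), c2 (-1) 2 e2 h2 (by decide),
    c2 (-1) 3 e3 h3 (by decide), c1 (-1) (-1) f1 g1 (by decide), c2 (-1) (-2) f2 g2 (by decide),
    c2 (-1) (-3) f3 g3 (by decide)] at l1
  have l2 := key (-2)
  rw [c2 (-2) 0 e0 h0 (by decide), c2 (-2) 1 e1 h1 (by decide), c2 (-2) 2 e2 h2 (by decide),
    c2 (-2) 3 e3 h3 (by decide), c2 (-2) (-1) f1 g1 (by decide), c1 (-2) (-2) f2 g2 (by decide),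
    c2 (-2) (-3) f3 g3 (by decide)] at l2
  have l3 := key (-3)
  rw [c2 (-3) 0 e0 h0 (by decide), c2 (-3) 1 e1 h1 (by decide), c2 (-3) 2 e2 h2 (by decide),
    c2 (-3) 3 e3 h3 (by decide), c2 (-3) (-1) f1 g1 (by decide), c2 (-3) (-2) f2 g2 (by decide),
    c1 (-3) (-3) f3 g3 (by decide)] at l3
  simp only [add_zero, zero_add] at k0 k1 k2 k3 l1 l2 l3
  exact ⟨k0, k1, k2, k3, l1, l2, l3⟩

/-- the decomposition into components of weights `-3, ..., 3` -/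
theorem decomp (hc : S_comp) (D : Pre K) (f : K) : f = D.comp 0 f + D.comp 1 f + D.comp 2 f +
    D.comp 3 f + D.comp (-3) f + D.comp (-2) f + D.comp (-1) f := by
  obtain ⟨-, c0, -, -, c1, -⟩ := hc K D
  have h := c0 f
  simp only [Finset.sum_range_succ, Finset.sum_range_zero, zero_add] at h
  have h4 := c1 (((4 : ℕ) : ℤ)) (-3) f (by decide)
  have h5 := c1 (((5 : ℕ) : ℤ)) (-2) f (by decide)
  have h6 := c1 (((6 : ℕ) : ℤ)) (-1) f (by decide)
  rw [h4, h5, h6] at h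
  exact h.symm

theorem Bd_one_ne (D : Pre K) {d : K} (hd : D.Tw d) : d ≠ 0 := hd.ne

theorem VT_comp (hc : S_comp) (D : Dat K) {u : K} (hu : D.Bd 1 u) (j : ℤ) :
    D.VT j (D.comp j u) := by
  obtain ⟨c0, -, -, -, -, -, -, c1⟩ := hc K D.toPre
  exact ⟨c0 j u, c1 1 one_ne_zero (map_one _) u j hu⟩

theorem WT_comp (hc : S_comp) (D : Dat K) {d : K} (hd : D.Tw d) {w : K} (hw : D.Bd d w) (j : ℤ) :
    D.WT d j (D.comp j w) := by
  obtain ⟨c0, -, -, -, -, -, -, c1⟩ := hc K D.toPre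
  exact ⟨c0 j w, c1 d hd.ne hd.inv w j hw⟩

theorem branch (hc : S_comp) (htwo : S_two) (hV : S_V) (hW : S_W) (D : Dat K) (d : K)
    (hd : D.Tw d) {κ u u' : K} (hκ : κ ≠ 0) (hu0 : u ≠ 0) (hu0' : u' ≠ 0)
    (hu : D.Bd 1 u) (hw : D.Bd d (κ * u)) (hu' : D.Bd 1 u') (hw' : D.Bd d (κ * u'))
    (h1 : ∀ j : ℤ, (j = 1 ∨ j = -2 ∨ j = -3) → D.comp j u = 0 ∧ D.comp j (κ * u) = 0)
    (h2 : ∀ j : ℤ, (j = -1 ∨ j = 2 ∨ j = 3) → D.comp j u' = 0 ∧ D.comp j (κ * u') = 0) :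
    D.comp 2 u = 0 ∧ D.comp 2 (κ * u) = 0 ∧ D.comp (-1) (κ * u) = 0 := by
  have hw00 : D.comp 0 (κ * u) = 0 := (WT_comp hc D hd hw 0).o0 hW hd (by decide)
  have hw00' : D.comp 0 (κ * u') = 0 := (WT_comp hc D hd hw' 0).o0 hW hd (by decide)
  have du := decomp hc D.toPre u
  have dw := decomp hc D.toPre (κ * u)
  have du' := decomp hc D.toPre u'
  have dw' := decomp hc D.toPre (κ * u')
  rw [(h1 1 (by simp)).1, (h1 (-2) (by simp)).1, (h1 (-3) (by simp)).1] at du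
  rw [(h1 1 (by simp)).2, (h1 (-2) (by simp)).2, (h1 (-3) (by simp)).2, hw00] at dw
  rw [(h2 (-1) (by simp)).1, (h2 2 (by simp)).1, (h2 3 (by simp)).1] at du'
  rw [(h2 (-1) (by simp)).2, (h2 2 (by simp)).2, (h2 3 (by simp)).2, hw00'] at dw'
  have hx2 := VT_comp hc D hu 2
  have hx3 := VT_comp hc D hu 3
  have hx0 := VT_comp hc D hu 0
  have hxm := VT_comp hc D hu (-1)
  have hy2 := VT_comp hc D hu' (-2)
  have hy3 := VT_comp hc D hu' (-3)
  have hy0 := VT_comp hc D hu' 0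
  have hy1 := VT_comp hc D hu' 1
  have hw2 := WT_comp hc D hd hw 2
  have hw3 := WT_comp hc D hd hw 3
  have hwm := WT_comp hc D hd hw (-1)
  have hz2 := WT_comp hc D hd hw' (-2)
  have hz3 := WT_comp hc D hd hw' (-3)
  have hz1 := WT_comp hc D hd hw' 1
  set x2 := D.comp 2 u
  set x3 := D.comp 3 u
  set x0 := D.comp 0 u
  set xm := D.comp (-1) u
  set y2 := D.comp (-2) u'
  set y3 := D.comp (-3) u'
  set y0 := D.comp 0 u'
  set y1 := D.comp 1 u'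
  set w2 := D.comp 2 (κ * u)
  set w3 := D.comp 3 (κ * u)
  set wm := D.comp (-1) (κ * u)
  set z2 := D.comp (-2) (κ * u')
  set z3 := D.comp (-3) (κ * u')
  set z1 := D.comp 1 (κ * u')
  have key : u * (κ * u') = u' * (κ * u) := by ring
  have hx : ¬ (x2 = 0 ∧ x3 = 0 ∧ x0 = 0 ∧ xm = 0) := by
    rintro ⟨a, b, c, e⟩
    rw [a, b, c, e] at du
    exact hu0 (by simpa using du)
  have hy : ¬ (y2 = 0 ∧ y3 = 0 ∧ y0 = 0 ∧ y1 = 0) := by
    rintro ⟨a, b, c, e⟩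
    rw [a, b, c, e] at du'
    exact hu0' (by simpa using du')
  have hwn : ¬ (w2 = 0 ∧ w3 = 0 ∧ wm = 0) := by
    rintro ⟨a, b, c⟩
    rw [a, b, c] at dw
    exact mul_ne_zero hκ hu0 (by simpa using dw)
  have hzn : ¬ (z2 = 0 ∧ z3 = 0 ∧ z1 = 0) := by
    rintro ⟨a, b, c⟩
    rw [a, b, c] at dw'
    exact mul_ne_zero hκ hu0' (by simpa using dw')
  have key2 : (x0 + x2 + x3 + xm) * (y1 * 0 + (z1 + z3 + z2)) =
      (y0 + y1 + y3 + y2) * (w2 + w3 + wm) := by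
    have e1 : u = x0 + x2 + x3 + xm := by rw [du]; ring
    have e2 : u' = y0 + y1 + y3 + y2 := by rw [du']; ring
    have e3 : κ * u = w2 + w3 + wm := by rw [dw]; ring
    have e4 : κ * u' = z1 + z3 + z2 := by rw [dw']; ring
    rw [← e1, ← e2, ← e3, ← e4, mul_zero, zero_add, key]
  obtain ⟨E0, E1, E2, E3, F1, F2, F3⟩ := split7 hc D.toPre
    (e0 := x2 * z2 + x3 * z3 + xm * z1 - (y2 * w2 + y3 * w3 + y1 * wm))
    (e1 := x3 * z2 + x0 * z1 - y2 * w3) (e2 := -(y0 * w2))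
    (e3 := x2 * z1 + xm * z3 - (y0 * w3 + y3 * wm + y1 * w2))
    (f1 := x2 * z3 - (y3 * w2 + y0 * wm)) (f2 := x0 * z2)
    (f3 := x3 * z1 + x0 * z3 + xm * z2 - (y2 * wm + y1 * w3))
    (((((hx2.wt.mul hz2.wt).congr (by decide)).add ((hx3.wt.mul hz3.wt).congr (by decide))).add
      ((hxm.wt.mul hz1.wt).congr (by decide))).sub
      ((((hy2.wt.mul hw2.wt).congr (by decide)).add ((hy3.wt.mul hw3.wt).congr (by decide))).add
      ((hy1.wt.mul hwm.wt).congr (by decide))))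
    ((((hx3.wt.mul hz2.wt).congr (by decide)).add ((hx0.wt.mul hz1.wt).congr (by decide))).sub
      ((hy2.wt.mul hw3.wt).congr (by decide)))
    (((hy0.wt.mul hw2.wt).congr (by decide)).neg)
    ((((hx2.wt.mul hz1.wt).congr (by decide)).add ((hxm.wt.mul hz3.wt).congr (by decide))).sub
      ((((hy0.wt.mul hw3.wt).congr (by decide)).add ((hy3.wt.mul hwm.wt).congr (by decide))).add
      ((hy1.wt.mul hw2.wt).congr (by decide))))
    (((hx2.wt.mul hz3.wt).congr (by decide)).sub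
      (((hy3.wt.mul hw2.wt).congr (by decide)).add ((hy0.wt.mul hwm.wt).congr (by decide))))
    ((hx0.wt.mul hz2.wt).congr (by decide))
    (((((hx3.wt.mul hz1.wt).congr (by decide)).add ((hx0.wt.mul hz3.wt).congr (by decide))).add
      ((hxm.wt.mul hz2.wt).congr (by decide))).sub
      (((hy2.wt.mul hwm.wt).congr (by decide)).add ((hy1.wt.mul hw3.wt).congr (by decide))))
    (by linear_combination key2)
  exact solve htwo hV hW D d hd hx2 hx3 hx0 hxm hy2 hy3 hy0 hy1 hw2 hw3 hwm hz2 hz3 hz1 hx hy hwn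
    hzn (by linear_combination -E2) F2 (by linear_combination E1) (by linear_combination F1)
    (by linear_combination E3) (by linear_combination F3) (by linear_combination E0)

/-- there is no four-dimensional `U` -/
theorem no_U (hc : S_comp) (htwo : S_two) (hV : S_V) (hW : S_W) (hflag : S_flag) (hA : S_caseA)
    (D : Dat K) (d : K) (hd : D.Tw d) (κ : K) (U : Submodule ℂ K) (hκ : κ ≠ 0)
    (hfin : FiniteDimensional ℂ U) (hU : ∀ u ∈ U, D.Bd 1 u ∧ D.Bd d (κ * u)) :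
    Module.finrank ℂ U ≤ 3 := by
  by_contra hlt
  obtain ⟨⟨u, huU, hu0, h1⟩, ⟨u', huU', hu0', h2⟩⟩ :=
    hflag K D d hd κ U hκ hfin (by omega) hU
  obtain ⟨g1, g2, g3⟩ := branch hc htwo hV hW D d hd hκ hu0 hu0' (hU u huU).1 (hU u huU).2
    (hU u' huU').1 (hU u' huU').2 h1 h2
  refine hlt (hA K D d hd κ U hκ hfin hU u huU hu0 ?_ ?_)
  · rintro j (rfl | rfl | rfl | rfl)
    · exact (h1 1 (by simp)).1
    · exact g1
    · exact (h1 (-2) (by simp)).1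
    · exact (h1 (-3) (by simp)).1
  · rintro j (rfl | rfl | rfl | rfl | rfl)
    · exact (h1 1 (by simp)).2
    · exact g3
    · exact g2
    · exact (h1 (-2) (by simp)).2
    · exact (h1 (-3) (by simp)).2

end Pool.Agent.W518.EG
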