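import Pool.Agent.W518.PC.Defs
import Pool.Agent.Helper395.CS.Hyp

/-!
# Project EG (MP_4f5420_ag): gonality of étale double covers, definitions and statements

`K` is the function field of a curve with an automorphism `ρ` of order 7 and a function `t` of
degree 5 with `ρ t = ζ t` and divisor `5 Q - 5 P`. The fixed field `F` of `ρ` has genus 1, and
`V = L(6 P + 6 Q)` is the canonical space. An unramified double cover is `K(√d)`, `d ∈ F`, and the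
space `W` of the `κ ∈ K` with `√d κ ∈ L(6 P + 6 Q)` is the space of Prym differentials.
-/

set_option autoImplicit false

open scoped WithZero Matrix
open IntermediateField
open Pool.Agent.Helper395.CS hiding genus
open Pool.Agent.Helper395.BC
open Pool.Agent.W518.PC (lpow)

namespace Pool.Agent.W518.EG

/-- A curve with an automorphism `ρ` of order 7 and a semi-invariant function `t` with divisor
`5 Q - 5 P`. -/
structure Pre (K : Type) [Field K] [Algebra ℂ K] where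
  ζ : ℂ
  ρ : K ≃ₐ[ℂ] K
  t : K
  P : Point K
  Q : Point K
  curve : IsCurve K
  prim : IsPrimitiveRoot ζ 7
  rho_t : ρ t = ζ • t
  rho_pow : ρ ^ 7 = 1
  ne : P ≠ Q
  ordP : P.ord t = -5
  ordQ : Q.ord t = 5
  ord : ∀ v, v ≠ P → v ≠ Q → v.ord t = 0

/-- In addition the fixed field of `ρ` is not rational. -/
structure Dat (K : Type) [Field K] [Algebra ℂ K] extends Pre K where
  nr : ∀ f : K, ρ f = f → Transcendental ℂ f → 14 ≤ degP f

variable {K : Type} [Field K] [Algebra ℂ K]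

/-- `f` is semi-invariant of weight `j` -/
def Pre.Wt (D : Pre K) (j : ℤ) (f : K) : Prop := D.ρ f = (D.ζ ^ j) • f

/-- the component of weight `j` -/
noncomputable def Pre.comp (D : Pre K) (j : ℤ) : K →ₗ[ℂ] K :=
  (7 : ℂ)⁻¹ • ∑ i ∈ Finset.range 7, (D.ζ ^ (-(j * i))) • ((D.ρ ^ i : K ≃ₐ[ℂ] K).toLinearMap)

/-- `√δ κ` has poles at most `6 P + 6 Q` -/
def Pre.Bd (D : Pre K) (δ κ : K) : Prop :=
  κ = 0 ∨ (-12 ≤ 2 * D.P.ord κ + D.P.ord δ ∧ -12 ≤ 2 * D.Q.ord κ + D.Q.ord δ ∧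
    ∀ v, v ≠ D.P → v ≠ D.Q → 0 ≤ 2 * v.ord κ + v.ord δ)

/-- the order at `P` of a function of weight `j` (not divisible by 7) in `L(6 P + 6 Q)` with 7 zeros
away from `P` and `Q`; its order at `Q` is `-7 - aexp j` -/
def aexp (j : ℤ) : ℤ := (2 * j) % 7 - 7

/-- `K(√d)` is an unramified double cover coming from a double cover of the fixed field of `ρ` -/
structure Pre.Tw (D : Pre K) (d : K) : Prop where
  ne : d ≠ 0
  inv : D.ρ d = d
  ordP : D.P.ord d = -14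
  ordQ : D.Q.ord d = -14
  even : ∀ v : Point K, (2 : ℤ) ∣ v.ord d
  nsq : ∀ (g : K) (c : ℂ), D.ρ g = g → d ≠ c • g ^ 2

/-! ### statements on `Pre` and `Dat` -/

/-- EG-0. `ρ` fixes `P` (the only pole of `t`) and `Q` (the only zero of `t`); use
`Point.comap D.ρ`. -/
def S_0 : Prop := ∀ (K : Type) [Field K] [Algebra ℂ K] (D : Pre K),
  (∀ f, D.P.ord (D.ρ f) = D.P.ord f) ∧ (∀ f, D.Q.ord (D.ρ f) = D.Q.ord f) ∧
  ∀ v : Point K, v ≠ D.P → v ≠ D.Q → v.comap D.ρ ≠ D.P ∧ v.comap D.ρ ≠ D.Q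

/-- EG-mod. Let `n = ord_P f`. Then `u = f ^ 5 * t ^ n` has order 0 at `P` and `ρ u = ζ ^ (5 j + n) u`.
There is `c ≠ 0` in `ℂ` with `v_P (u - c) < 1` (`exists_residue` or the like). Apply `ρ` (which
preserves the valuation at `P`): `v_P (ζ ^ (5 j + n) u - c) < 1`, so `(ζ ^ (5 j + n) - 1) c = 0` and
`7 ∣ 5 j + n`, i.e. `n ≡ 2 j`. At `Q`: `u = f ^ 5 * t ^ (-n)`, `7 ∣ 5 j - n`. -/
def S_mod : Prop := ∀ (K : Type) [Field K] [Algebra ℂ K] (D : Pre K) (j : ℤ) (f : K), f ≠ 0 →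
  D.Wt j f → (7 : ℤ) ∣ D.P.ord f - 2 * j ∧ (7 : ℤ) ∣ D.Q.ord f + 2 * j

/-- EG-D7. For transcendental `f` one has `degP f = [K : ℂ(f)] = 7 [F : ℂ(f)]`, `F` the fixed field of
`ρ` (order 7, `[K : F] = 7` by Artin, `IntermediateField.finrank_fixedField_eq_card` for the subgroup
generated by `ρ`, or `FixedPoints`). Other proof: `ρ` acts freely on the points `≠ P, Q` (the values of
`t` at `v` and its translates differ by powers of `ζ`), the function `v ↦ max (- ord_v f) 0` is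
invariant, and at `P`, `Q` the orders are divisible by 7 (`S_mod`). -/
def S_D7 : Prop := ∀ (K : Type) [Field K] [Algebra ℂ K] (D : Pre K) (f : K),
  D.ρ f = f → (7 : ℤ) ∣ degP f

/-- EG-ORD. `P.ord f + Q.ord f = 0` (`sum_ord`), `P.ord f = 7 c` (`S_mod` with weight 0). Write
`c = 5 a + r`, `|r| ≤ 2`; `g = f * (t ^ 7) ^ a` is fixed by `ρ` and has divisor `7 r (P - Q)`. If
`r = ±1` then `degP g = 7`, contradiction to `nr` (`g` is not constant since `ord_P g ≠ 0`); if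
`r = ±2` then `g ^ 2 * (t ^ 7) ^ (±1)` has divisor `∓ 7 (P - Q)`, contradiction in the same way. -/
def S_ORD : Prop := ∀ (K : Type) [Field K] [Algebra ℂ K] (D : Dat K) (f : K), f ≠ 0 → D.ρ f = f →
  (∀ v, v ≠ D.P → v ≠ D.Q → v.ord f = 0) → (35 : ℤ) ∣ D.P.ord f

/-- EG-comp. The calculus of components. (4) For `v ≠ P, Q`: `v.ord (ρ f) = (v.comap ρ).ord f` and
`v.comap ρ ≠ P, Q`; use valuations (`v.val κ ^ 2 * v.val δ ≤ 1` is stable under sums). -/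
def S_comp : Prop := ∀ (K : Type) [Field K] [Algebra ℂ K] (D : Pre K),
  (∀ j f, D.Wt j (D.comp j f)) ∧
  (∀ f, ∑ i ∈ Finset.range 7, D.comp i f = f) ∧
  (∀ j k f, D.Wt k f → (7 : ℤ) ∣ j - k → D.comp j f = f) ∧
  (∀ j k f, D.Wt k f → ¬ (7 : ℤ) ∣ j - k → D.comp j f = 0) ∧
  (∀ j k f, (7 : ℤ) ∣ j - k → D.comp j f = D.comp k f) ∧
  (∀ δ, δ ≠ 0 → ∀ f g, D.Bd δ f → D.Bd δ g → D.Bd δ (f + g)) ∧
  (∀ δ, ∀ f (c : ℂ), D.Bd δ f → D.Bd δ (c • f)) ∧
  (∀ δ, δ ≠ 0 → D.ρ δ = δ → ∀ f j, D.Bd δ f → D.Bd δ (D.comp j f))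

/-- EG-typeV. Let `a = P.ord f`, `b = Q.ord f`, so `a, b ≥ -6`, `a ≡ 2 j`, `b ≡ -2 j` mod 7 (`S_mod`),
`a + b ≤ 0` (`sum_ord`, the other orders are `≥ 0`) and `7 ∣ a + b`, so `a + b = 0` or `-7`.
If `a + b = 0` all other orders are 0, and `f * t ^ (-j)` is fixed by `ρ` with `ord_P = a + 5 j`, so
`35 ∣ a + 5 j` (`S_ORD`), so `5 ∣ a`, so `a ∈ {-5, 0, 5}`, and `f` is a constant times `t`, `1`, `t⁻¹`
(a function without poles is constant, `const_of_regular`). If `a + b = -7` then `-6 ≤ a ≤ -1`, which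
gives `a = aexp j`, `b = -7 - aexp j` and `¬ 7 ∣ j`; for `j ≡ ±1` the function `f * t ^ (∓1)` is fixed
by `ρ` and has `degP ≤ 7`, so it is constant by `nr`, contradiction to `a + b = -7`. -/
def S_V : Prop := ∀ (K : Type) [Field K] [Algebra ℂ K] (D : Dat K) (j : ℤ) (f : K), f ≠ 0 →
  D.Wt j f → D.Bd 1 f →
  (∃ c : ℂ, c ≠ 0 ∧ (((7 : ℤ) ∣ j ∧ f = algebraMap ℂ K c) ∨ ((7 : ℤ) ∣ j - 1 ∧ f = c • D.t) ∨
    ((7 : ℤ) ∣ j + 1 ∧ f = c • D.t⁻¹))) ∨
  (((7 : ℤ) ∣ j - 2 ∨ (7 : ℤ) ∣ j + 2 ∨ (7 : ℤ) ∣ j - 3 ∨ (7 : ℤ) ∣ j + 3) ∧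
    D.P.ord f = aexp j ∧ D.Q.ord f = -7 - aexp j)

/-- EG-V1. By `S_V` `f` and `g` have the same orders at `P` and `Q`; so `f / g` (fixed by `ρ`) has
poles only at the zeros of `g` off `P`, `Q`, whose number is at most 7 (`sum_ord`); so
`degP (f / g) ≤ 7` and `f / g` is constant by `nr`. -/
def S_V1 : Prop := ∀ (K : Type) [Field K] [Algebra ℂ K] (D : Dat K) (j : ℤ) (f g : K), g ≠ 0 →
  D.Wt j f → D.Wt j g → D.Bd 1 f → D.Bd 1 g → ∃ c : ℂ, f = c • g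

/-- EG-typeW. Same proof with `a = P.ord f - 7`, `b = Q.ord f - 7` (half the orders of `d f ^ 2`). If
`a + b = 0` then `d f ^ 2` has divisor `2 a (P - Q)` and `h = d * (f * t ^ (-j)) ^ 2` is fixed by `ρ`
with `ord_P h = 2 a + 10 j`, so `35 ∣ 2 a + 10 j`, `5 ∣ a`, `a ∈ {-5, 0, 5}`; as `a ≡ 2 j` mod 7 one has
`a = -5 j'` with `j' ∈ {1, 0, -1}`, `j' ≡ j` mod 7, and `d * (f * t ^ (-j')) ^ 2` has no zeros and poles,
so it is constant, contradiction to `nsq` for `g = (f * t ^ (-j'))⁻¹`. -/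
def S_W : Prop := ∀ (K : Type) [Field K] [Algebra ℂ K] (D : Dat K) (d : K), D.Tw d →
  ∀ (j : ℤ) (f : K), f ≠ 0 → D.Wt j f → D.Bd d f →
  ¬ (7 : ℤ) ∣ j ∧ D.P.ord f = 7 + aexp j ∧ D.Q.ord f = - aexp j

/-- EG-W1. As `S_V1` with `S_W`: `f / g` has poles only at the points `v ≠ P, Q` with
`2 ord_v g + ord_v d > 0`, of order at most half of it, and these halves have sum 7. -/
def S_W1 : Prop := ∀ (K : Type) [Field K] [Algebra ℂ K] (D : Dat K) (d : K), D.Tw d →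
  ∀ (j : ℤ) (f g : K), g ≠ 0 → D.Wt j f → D.Wt j g → D.Bd d f → D.Bd d g → ∃ c : ℂ, f = c • g

/-- EG-two. Suppose `a b = c e` and let `G = b / c = e / a`, of weight `k - l` (and `m - j`, so these
agree mod 7). By `S_V`, `S_W`: `ord_P G - 7 = aexp k - aexp l =: g` and `ord_Q G - 7 = -g`. For
`v ≠ P, Q`: `2 ord_v G + ord_v d ≥ -2 ord_v c` and `≥ -2 ord_v a`. `H = d * (G * t ^ (l - k)) ^ 2` is
fixed by `ρ`, `ord_P H = 2 g + 10 (k - l) =: N`, `ord_Q H = - N`, `7 ∣ N` (`S_mod`). Let `2 y` be the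
number of poles of `H` off `P`, `Q` (all orders of `H` there are even). `degP H = |N| + 2 y` so
`7 ∣ y` (`S_D7`) and `y ≤ ∑_{v ≠ P, Q} ord_v a = 7`. If `y = 7` then `ord_v a = ord_v c` for all
`v ≠ P, Q` (both zero divisors have degree 7 and contain the polar divisor), so `a / c * t ^ (l - j)` is
fixed by `ρ` with divisor supported on `P`, `Q`, so `35 ∣ aexp j - aexp l + 5 (j - l)` (`S_ORD`), which
is false for `j ≠ l` in `{2, -2, 3, -3}` except for `{j, l} = {3, -3}`. So `y = 0`, `H` has no poles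
off `P`, `Q`, and since `ord_P H + ord_Q H = 0` no zeros there, so `35 ∣ N` by `S_ORD`. So `k = l` by
hypothesis, `N = 0`, `H` is constant, contradiction to `nsq`. -/
def S_two : Prop := ∀ (K : Type) [Field K] [Algebra ℂ K] (D : Dat K) (d : K), D.Tw d →
  ∀ (j k l m : ℤ) (a b c e : K),
  (j = 2 ∨ j = -2 ∨ j = 3 ∨ j = -3) → (l = 2 ∨ l = -2 ∨ l = 3 ∨ l = -3) → j ≠ l →
  ¬ (j = 3 ∧ l = -3) → ¬ (j = -3 ∧ l = 3) →
  (k = l ∨ ¬ (35 : ℤ) ∣ 2 * (aexp k - aexp l) + 10 * (k - l)) →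
  a ≠ 0 → b ≠ 0 → c ≠ 0 → e ≠ 0 → D.Wt j a → D.Wt k b → D.Wt l c → D.Wt m e →
  D.Bd 1 a → D.Bd 1 c → D.Bd d b → D.Bd d e → a * b ≠ c * e

end Pool.Agent.W518.EG
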