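import Pool.Agent.Helper395.BC.Twist

/-!
# Étale double covers of curves: definitions for MP_4f5420_ag

A smooth projective connected curve over `ℂ` is described by its function field `K` (`IsCurve K`), its
points by the normalised discrete valuations of `K` trivial on `ℂ` (`Point K`) and its line bundles by
local generators (`LineBundle K`), as in `Pool.Agent.Helper395.CS.Defs`; nonconstant morphisms to the
projective line are transcendental elements `f` of `K`, of degree `[K : ℂ(f)]`.
-/

set_option autoImplicit false

open scoped WithZero Matrix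
open IntermediateField
open Pool.Agent.Helper395.CS hiding genus
open Pool.Agent.Helper395.BC

namespace Pool.Agent.W518.EG

/-- The gonality of a curve: the smallest degree `[K : ℂ(f)]` of a nonconstant function `f`. -/
noncomputable def gonality (K : Type) [Field K] [Algebra ℂ K] : ℕ :=
  sInf {n | ∃ f : K, Transcendental ℂ f ∧ Module.finrank ℂ⟮f⟯ K = n}

/-- `x ∈ K'` is integral over the local ring `𝒪_v = {z | v z ≤ 1}` of the point `v` of the curve with
function field `K`, i.e. `x` is regular at all points above `v` of the curve with function field `K'`. -/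
def IntegralAt {K : Type} [Field K] [Algebra ℂ K] (v : Point K) {K' : Type} [Field K']
    [Algebra K K'] (x : K') : Prop :=
  ((algebraMap K K').comp v.val.valuationSubring.subtype).IsIntegralElem x

/-- `K'` is the function field of the étale double cover `f` of the curve with function field `K`
attached to the line bundle `η`: there are an isomorphism `η ⊗ η → 𝒪`, given by multiplication with
some `e ∈ Kˣ`, and a `y ∈ K'`, `y ∉ K`, with `y² = e`, `K'` has degree 2 over `K`, and `f_* 𝒪` is
`𝒪 ⊕ η y`: its stalk at `v`, the integral closure of `𝒪_v` in `K'`, consists of the `a + b y` with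
`a ∈ 𝒪_v` and `b ∈ η_v`. -/
structure IsEtaleDoubleCover {K : Type} [Field K] [Algebra ℂ K] (η : LineBundle K)
    (K' : Type) [Field K'] [Algebra ℂ K'] [Algebra K K'] : Prop where
  tower : IsScalarTower ℂ K K'
  curve : IsCurve K'
  finrank_eq : Module.finrank K K' = 2
  root : ∃ (e : Kˣ) (y : K'), (∀ v s, s ∈ (lmul η η).stalk v ↔ (e : K) * s ∈ (one K).stalk v) ∧
    y ^ 2 = algebraMap K K' e ∧ (∀ g : K, algebraMap K K' g ≠ y) ∧
    ∀ (v : Point K) (a b : K), IntegralAt v (algebraMap K K' a + algebraMap K K' b * y) ↔
      v.val a ≤ 1 ∧ b ∈ η.stalk v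

/-- `η` lies in the difference variety `C_i - C_i`: it is isomorphic to `𝒪(A - B)` with effective
divisors `A`, `B` of degree `i`. The stalk of `𝒪(A - B)` at `v` consists of the functions of order at
least `B v - A v` at `v`. -/
def InDifference {K : Type} [Field K] [Algebra ℂ K] (η : LineBundle K) (i : ℕ) : Prop :=
  ∃ A B : Point K →₀ ℕ, A.sum (fun _ n => n) = i ∧ B.sum (fun _ n => n) = i ∧
    ∃ c : Kˣ, ∀ v s, s ∈ η.stalk v ↔ (c : K) * s = 0 ∨ (B v : ℤ) - A v ≤ v.ord ((c : K) * s)

end Pool.Agent.W518.EG
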