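import Pool.Agent.W518.EG.Branch2
import Pool.Agent.W518.EG.FinalDefs
import Pool.Agent.W45.PC.G

/-!
# Project EG (MP_4f5420_ag): the final assembly
-/

set_option autoImplicit false

open scoped WithZero Matrix
open IntermediateField
open Pool.Agent.Helper395.CS hiding genus
open Pool.Agent.Helper395.BC
open Pool.Agent.W518.PC (lpow)
open Pool.Agent.W45.PCG (lchain lplus le_lplus one_le_lplus)

namespace Pool.Agent.W518.EG

variable {K : Type} [Field K] [Algebra ℂ K]

theorem H0_fin (hK : IsCurve K) (L : LineBundle K) : FiniteDimensional ℂ (H0 L) := by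
  have h1 : ∀ v s, s ∈ (one K).stalk v → s ∈ (lplus L).stalk v := fun v s hs => by
    rw [mem_one_stalk] at hs
    exact hs.trans (one_le_lplus L v)
  have h2 : ∀ v s, s ∈ L.stalk v → s ∈ (lplus L).stalk v := fun v s hs =>
    le_trans (show v.val s ≤ v.val (L.frame v : K) from hs) (le_lplus L v)
  exact (lchain hK h2).1.2 ((lchain hK h1).1.1 (H0_one hK).1)

theorem exists_ord (v : Point K) (n : ℤ) : ∃ u : Kˣ, v.ord (u : K) = n := by
  obtain ⟨x, hx⟩ := v.surj (WithZero.exp (-n))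
  have hx0 : x ≠ 0 := by
    rintro rfl
    rw [map_zero] at hx
    exact WithZero.exp_ne_zero hx.symm
  refine ⟨Units.mk0 x hx0, ?_⟩
  rw [Units.val_mk0]
  unfold Point.ord
  rw [hx, WithZero.log_exp, neg_neg]

/-- the line bundle `η` with `2 ord_v η_v + ord_v d = 0` -/
noncomputable def eta (hK : IsCurve K) (d : K) (_hev : ∀ v : Point K, (2 : ℤ) ∣ v.ord d) :
    LineBundle K where
  frame v := (exists_ord v (-(v.ord d / 2))).choose
  finite := by
    refine (finite_ord hK d).subset fun v hv => ?_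
    intro h
    have h1 := (exists_ord v (-(v.ord d / 2))).choose_spec
    apply hv
    rw [v.val_eq_one_iff (Units.ne_zero _), h1, h]
    rfl

theorem eta_ord (hK : IsCurve K) (d : K) (hev : ∀ v : Point K, (2 : ℤ) ∣ v.ord d) (v : Point K) :
    2 * v.ord ((eta hK d hev).frame v : K) + v.ord d = 0 := by
  have h1 : v.ord ((eta hK d hev).frame v : K) = -(v.ord d / 2) :=
    (exists_ord v (-(v.ord d / 2))).choose_spec
  have := hev v
  rw [h1]
  omega

theorem mem_eta (hK : IsCurve K) (d : K) (hev : ∀ v : Point K, (2 : ℤ) ∣ v.ord d) (v : Point K)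
    (s : K) : s ∈ (eta hK d hev).stalk v ↔ s = 0 ∨ 0 ≤ 2 * v.ord s + v.ord d := by
  by_cases hs : s = 0
  · simp [hs, lstalk_zero]
  · change v.val s ≤ v.val ((eta hK d hev).frame v : K) ↔ _
    rw [v.val_le_val_iff hs (Units.ne_zero _)]
    have := eta_ord hK d hev v
    simp only [hs, false_or]
    omega

theorem mem_eta2 (hK : IsCurve K) (d : K) (hd : d ≠ 0) (hev : ∀ v : Point K, (2 : ℤ) ∣ v.ord d)
    (v : Point K) (s : K) :
    s ∈ (lmul (eta hK d hev) (eta hK d hev)).stalk v ↔ d * s ∈ (one K).stalk v := by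
  rw [mem_one_stalk]
  by_cases hs : s = 0
  · simp [hs, lstalk_zero]
  · rw [mem_lmul]
    have h0 : ((eta hK d hev).frame v : K) ≠ 0 := Units.ne_zero _
    rw [← map_mul, v.val_le_val_iff hs (mul_ne_zero h0 h0), v.ord_mul h0 h0,
      v.val_le_one_iff (mul_ne_zero hd hs), v.ord_mul hd hs]
    have := eta_ord hK d hev v
    omega

/-- an unramified double cover with `d` semi-invariant is nontrivial -/
theorem no_sqrt (D : Pre K) {d : K} (hd : D.Tw d) (a : ℂ) (c : K) (h : d = a • c ^ 2) : False := by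
  have ha : a ≠ 0 := by
    rintro rfl
    rw [zero_smul] at h
    exact hd.ne h
  have h1 : D.ρ d = a • (D.ρ c) ^ 2 := by
    rw [h, map_smul, map_pow]
  rw [hd.inv] at h1
  have h2 : (D.ρ c) ^ 2 = c ^ 2 := by
    have h3 : a • ((D.ρ c) ^ 2 - c ^ 2) = 0 := by
      rw [smul_sub, ← h1, ← h, sub_self]
    rcases smul_eq_zero.1 h3 with h4 | h4
    · exact absurd h4 ha
    · exact sub_eq_zero.1 h4
  have h3 : D.ρ c = c ∨ D.ρ c = -c := sq_eq_sq_iff_eq_or_eq_neg.1 h2
  rcases h3 with h3 | h3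
  · exact hd.nsq c a h3 h
  · have h7 : (D.ρ ^ 7) c = c := by rw [D.rho_pow]; rfl
    have h8 : (D.ρ ^ 7) c = -c := by
      change D.ρ (D.ρ (D.ρ (D.ρ (D.ρ (D.ρ (D.ρ c)))))) = -c
      simp only [h3, map_neg, neg_neg]
    have h9 : c = 0 := by
      have : (2 : K) * c = 0 := by
        rw [h7] at h8
        linear_combination h8
      have h10 : CharZero K := charZero_of_injective_algebraMap (algebraMap ℂ K).injective
      exact (mul_eq_zero.1 this).resolve_left two_ne_zero
    rw [h9] at h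
    exact hd.ne (by simpa using h)

theorem eta_not_iso (D : Pre K) {d : K} (hd : D.Tw d) :
    ¬ (eta D.curve d hd.even).Iso (one K) := by
  rintro ⟨c, hc⟩
  have hc0 : (c : K) ≠ 0 := c.ne_zero
  have h1 : ∀ v : Point K, v.ord (d / (c : K) ^ 2) = 0 := by
    intro v
    have h2 := hc v ((eta D.curve d hd.even).frame v : K)
    have h3 := hc v (c : K)⁻¹
    rw [mem_one_stalk] at h2 h3
    have e1 : ((eta D.curve d hd.even).frame v : K) ∈ (eta D.curve d hd.even).stalk v :=
      le_refl (v.val ((eta D.curve d hd.even).frame v : K))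
    have h4 := h2.1 e1
    rw [mul_inv_cancel₀ hc0, map_one] at h3
    have h5 := h3.2 le_rfl
    rw [mem_eta] at h5
    rw [v.val_le_one_iff (mul_ne_zero hc0 (Units.ne_zero _)), v.ord_mul hc0 (Units.ne_zero _)] at h4
    have h6 := eta_ord D.curve d hd.even v
    rcases h5 with h5 | h5
    · exact absurd h5 (inv_ne_zero hc0)
    rw [v.ord_inv] at h5
    rw [div_eq_mul_inv, v.ord_mul hd.ne (inv_ne_zero (pow_ne_zero 2 hc0)), v.ord_inv, v.ord_pow]
    push_cast
    omega
  have hne : d / (c : K) ^ 2 ≠ 0 := div_ne_zero hd.ne (pow_ne_zero 2 hc0)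
  obtain ⟨a, ha⟩ := const_of_regular D.curve (z := d / (c : K) ^ 2) (fun v => by
    rw [v.val_le_one_iff hne, h1])
  refine no_sqrt D hd a c ?_
  rw [Algebra.smul_def, ← ha]
  field_simp

theorem lpow_pq (D : Pre K) (a b t : ℤ) : lpow (D.pq a b) t = D.pq (a * t) (b * t) := by
  have h : ∀ v, (lpow (D.pq a b) t).frame v = (D.pq (a * t) (b * t)).frame v := by
    intro v
    change ((lpt D.P).frame v ^ a * (lpt D.Q).frame v ^ b) ^ t =
      (lpt D.P).frame v ^ (a * t) * (lpt D.Q).frame v ^ (b * t)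
    rw [mul_zpow, zpow_mul, zpow_mul]
  have h2 : (lpow (D.pq a b) t).frame = (D.pq (a * t) (b * t)).frame := funext h
  cases hx : lpow (D.pq a b) t
  cases hy : D.pq (a * t) (b * t)
  rw [hx, hy] at h2
  simp only at h2
  subst h2
  rfl

theorem genus_seven (hH0 : S_H0) (hdims : S_dims) (hGEN : S_GEN) (D : Dat K)
    (hFs : ∀ α β : ℤ, 1 ≤ α + β → FiniteDimensional ℂ (D.Fs α β) ∧
      (Module.finrank ℂ (D.Fs α β) : ℤ) = α + β) : genus K = 7 := by
  obtain ⟨-, h2⟩ := hdims K D hFs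
  refine hGEN K D.curve 14 7 1 (D.pq 7 7) (by norm_num) (by norm_num)
    (by rw [(hH0 K D.toPre 7 7).1]; norm_num) ?_
  intro t ht
  have h3 := h2 t ht
  rw [lpow_pq]
  refine ⟨h3.1, ?_⟩
  have h4 := h3.2
  omega

theorem Bd_one_iff (hH0 : S_H0) (D : Pre K) (u : K) (h : u ∈ H0 (D.pq 6 6)) : D.Bd 1 u := by
  rw [(hH0 K D 6 6).2] at h
  rcases h with h | ⟨h1, h2, h3⟩
  · exact Or.inl h
  · right
    refine ⟨?_, ?_, fun v hv hv' => ?_⟩
    · rw [Point.ord_one]; omega
    · rw [Point.ord_one]; omega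
    · rw [Point.ord_one]
      have := h3 v hv hv'
      omega

theorem gon_lower (hH0 : S_H0) (hRR : S_RR) (hgon : S_gonW) (D : Dat K) (hg : genus K = 7)
    (h7 : Module.finrank ℂ (H0 (D.pq 6 6)) = 7) (f : K) (hf : Transcendental ℂ f) :
    5 ≤ Module.finrank ℂ⟮f⟯ K := by
  by_contra hlt
  have hdeg : degP f ≤ 4 := by
    have h1 := degZ_eq D.curve hf
    rw [degZ_eq_degP D.curve] at h1
    omega
  obtain ⟨U, hU1, hU2, hU3⟩ := hRR K D.curve hg (D.pq 6 6)
    (by rw [(hH0 K D.toPre 6 6).1]; norm_num) h7 f hf hdeg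
  exact hgon K D f U hf hU1 hU2 fun u hu =>
    ⟨Bd_one_iff hH0 D.toPre u (hU3 u hu).1, Bd_one_iff hH0 D.toPre _ (hU3 u hu).2⟩

end Pool.Agent.W518.EG
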