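import Pool.Agent.W518.EG.Stms2

/-!
# Project EG (MP_4f5420_ag): the line bundles `𝒪(a P + b Q)`
-/

set_option autoImplicit false

open scoped WithZero Matrix
open IntermediateField
open Pool.Agent.Helper395.CS hiding genus
open Pool.Agent.Helper395.BC
open Pool.Agent.W518.PC (lpow)

namespace Pool.Agent.W518.EG

variable {K : Type} [Field K] [Algebra ℂ K]

theorem ord_zpow' (v : Point K) (u : Kˣ) (n : ℤ) : v.ord ((u ^ n : Kˣ) : K) = n * v.ord (u : K) := by
  unfold Point.ord
  rw [Units.val_zpow_eq_zpow_val, map_zpow₀, WithZero.log_zpow]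
  simp

theorem ord_lpt_self (v : Point K) : v.ord ((lpt v).frame v : K) = -1 := by
  rw [lpt_frame_self, v.ord_inv, ord_unif]

theorem ord_lpt_ne {v w : Point K} (h : w ≠ v) : w.ord ((lpt v).frame w : K) = 0 := by
  rw [lpt_frame_ne h, Units.val_one, w.ord_one]

theorem pq_ord (D : Pre K) (a b : ℤ) (v : Point K) : v.ord ((D.pq a b).frame v : K) =
    a * v.ord ((lpt D.P).frame v : K) + b * v.ord ((lpt D.Q).frame v : K) := by
  change v.ord (((lpt D.P).frame v ^ a * (lpt D.Q).frame v ^ b : Kˣ) : K) = _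
  rw [Units.val_mul, v.ord_mul (Units.ne_zero _) (Units.ne_zero _), ord_zpow', ord_zpow']

theorem pq_ordP (D : Pre K) (a b : ℤ) : D.P.ord ((D.pq a b).frame D.P : K) = -a := by
  rw [pq_ord, ord_lpt_self, ord_lpt_ne D.ne]; ring

theorem pq_ordQ (D : Pre K) (a b : ℤ) : D.Q.ord ((D.pq a b).frame D.Q : K) = -b := by
  rw [pq_ord, ord_lpt_self, ord_lpt_ne D.ne.symm]; ring

theorem pq_ord_ne (D : Pre K) (a b : ℤ) {v : Point K} (h1 : v ≠ D.P) (h2 : v ≠ D.Q) :
    v.ord ((D.pq a b).frame v : K) = 0 := by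
  rw [pq_ord, ord_lpt_ne h1, ord_lpt_ne h2]; ring

theorem s_H0 : S_H0 := by
  intro K _ _ D a b
  constructor
  · have hd : ∀ (L : LineBundle K) (t : ℤ), (lpow L t).degree = t * L.degree := by
      intro L t
      unfold LineBundle.degree
      have h : ∀ v : Point K, -v.ord ((lpow L t).frame v : K) = t * -v.ord (L.frame v : K) := by
        intro v
        change -v.ord (((L.frame v) ^ t : Kˣ) : K) = _
        rw [ord_zpow']
        ring
      rw [finsum_congr h, mul_finsum]
    unfold Pre.pq
    rw [lmul_degree, hd, hd, lpt_degree, lpt_degree]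
    ring
  · intro f
    change (∀ v : Point K, v.val f ≤ v.val ((D.pq a b).frame v : K)) ↔ _
    by_cases hf : f = 0
    · simp [hf]
    · have h1 : ∀ v : Point K, v.val f ≤ v.val ((D.pq a b).frame v : K) ↔
          v.ord ((D.pq a b).frame v : K) ≤ v.ord f := fun v =>
        v.val_le_val_iff hf (Units.ne_zero _)
      simp only [h1, hf, false_or]
      constructor
      · intro h
        refine ⟨?_, ?_, fun v hv hv' => ?_⟩
        · rw [← pq_ordP D a b]; exact h _
        · rw [← pq_ordQ D a b]; exact h _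
        · rw [← pq_ord_ne D a b hv hv']; exact h _
      · rintro ⟨hP, hQ, hv⟩ v
        by_cases h2 : v = D.P
        · rw [h2, pq_ordP]; exact hP
        by_cases h3 : v = D.Q
        · rw [h3, pq_ordQ]; exact hQ
        rw [pq_ord_ne D a b h2 h3]; exact hv v h2 h3

end Pool.Agent.W518.EG
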