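import Pool.Agent.W518.EG.Final

/-!
# Project EG (MP_4f5420_ag): the integral closure of the local rings in the double cover
-/

set_option autoImplicit false

open scoped WithZero Matrix Polynomial
open IntermediateField
open Pool.Agent.Helper395.CS hiding genus
open Pool.Agent.Helper395.BC

namespace Pool.Agent.W518.EG

variable {K : Type} [Field K] [Algebra ℂ K]

/-- the local ring of the point `v`, with values in an extension `K'` -/
noncomputable def locHom (v : Point K) (K' : Type) [Field K'] [Algebra K K'] :
    v.val.valuationSubring →+* K' := (algebraMap K K').comp v.val.valuationSubring.subtype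

/-- elements of `K` that are integral over the local ring are in the local ring -/
theorem le_one_of_integral (v : Point K) {K' : Type} [Field K'] [Algebra K K'] {a : K}
    (h : (locHom v K').IsIntegralElem (algebraMap K K' a)) : v.val a ≤ 1 := by
  obtain ⟨p, hp, hpa⟩ := h
  by_contra hcon
  rw [not_le] at hcon
  have h1 : Polynomial.eval₂ v.val.valuationSubring.subtype a p = 0 := by
    have h2 : Polynomial.eval₂ (locHom v K') (algebraMap K K' a) p =
        algebraMap K K' (Polynomial.eval₂ v.val.valuationSubring.subtype a p) := by
      rw [Polynomial.hom_eval₂]; rfl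
    rw [h2] at hpa
    exact (map_eq_zero _).1 hpa
  rw [Polynomial.eval₂_eq_sum_range, Finset.sum_range_succ, hp.coeff_natDegree, map_one,
    one_mul] at h1
  have h3 : v.val (∑ i ∈ Finset.range p.natDegree,
      v.val.valuationSubring.subtype (p.coeff i) * a ^ i) < v.val (a ^ p.natDegree) := by
    rw [map_pow]
    have hpos : (0 : ℤᵐ⁰) < v.val a ^ p.natDegree := pow_pos (zero_lt_one.trans hcon) _
    refine Valuation.map_sum_lt _ hpos.ne' fun i hi => ?_
    rw [map_mul, map_pow]
    have h4 : v.val (v.val.valuationSubring.subtype (p.coeff i)) ≤ 1 := (p.coeff i).2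
    calc v.val (v.val.valuationSubring.subtype (p.coeff i)) * v.val a ^ i ≤ 1 * v.val a ^ i :=
          mul_le_mul_left h4 _
      _ = v.val a ^ i := one_mul _
      _ < v.val a ^ p.natDegree := pow_lt_pow_right₀ hcon (Finset.mem_range.1 hi)
  have h5 : a ^ p.natDegree = -(∑ i ∈ Finset.range p.natDegree,
      v.val.valuationSubring.subtype (p.coeff i) * a ^ i) := by linear_combination h1
  rw [h5, Valuation.map_neg] at h3
  exact lt_irrefl _ h3

theorem integral_of_le_one (v : Point K) {K' : Type} [Field K'] [Algebra K K'] {a : K}
    (h : v.val a ≤ 1) : (locHom v K').IsIntegralElem (algebraMap K K' a) :=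
  RingHom.isIntegralElem_map (locHom v K') (x := (⟨a, h⟩ : v.val.valuationSubring))

theorem integral_iff (v : Point K) {K' : Type} [Field K'] [Algebra K K'] {e : K} {y : K'}
    (hy : y ^ 2 = algebraMap K K' e) (hy' : ∀ g : K, algebraMap K K' g ≠ y) (a b : K) :
    (locHom v K').IsIntegralElem (algebraMap K K' a + algebraMap K K' b * y) ↔
      v.val a ≤ 1 ∧ v.val (b ^ 2 * e) ≤ 1 := by
  have hone : v.val (2 : K) = 1 := by
    have := v.const 2 (by norm_num)
    rwa [map_ofNat] at this
  constructor
  · intro h
    -- the conjugate is integral too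
    have hconj : (locHom v K').IsIntegralElem (algebraMap K K' a - algebraMap K K' b * y) := by
      obtain ⟨p, hp, hpa⟩ := h
      refine ⟨p, hp, ?_⟩
      by_cases hb : b = 0
      · rw [hb, map_zero, zero_mul, add_zero] at hpa
        rw [hb, map_zero, zero_mul, sub_zero]
        exact hpa
      have hbk : algebraMap K K' b ≠ 0 := (map_ne_zero _).2 hb
      set P : K[X] := p.map v.val.valuationSubring.subtype with hP
      have he : ∀ x : K', Polynomial.eval₂ (locHom v K') x p = Polynomial.aeval x P := by
        intro x
        rw [hP, Polynomial.aeval_def, Polynomial.eval₂_map]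
        rfl
      rw [he] at hpa ⊢
      set m : K[X] := Polynomial.X ^ 2 - Polynomial.C (2 * a) * Polynomial.X +
        Polynomial.C (a ^ 2 - b ^ 2 * e) with hm
      have hmon : m.Monic := by rw [hm]; monicity!
      have hmdeg : m.natDegree = 2 := by rw [hm]; compute_degree!
      have hmx : Polynomial.aeval (algebraMap K K' a + algebraMap K K' b * y) m = 0 := by
        rw [hm]
        simp only [map_add, map_sub, map_mul, map_pow, Polynomial.aeval_X, Polynomial.aeval_C,
          map_ofNat]
        linear_combination (algebraMap K K' b) ^ 2 * hy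
      have hmx' : Polynomial.aeval (algebraMap K K' a - algebraMap K K' b * y) m = 0 := by
        rw [hm]
        simp only [map_add, map_sub, map_mul, map_pow, Polynomial.aeval_X, Polynomial.aeval_C,
          map_ofNat]
        linear_combination (algebraMap K K' b) ^ 2 * hy
      have hdiv := Polynomial.modByMonic_add_div P m
      set R := P %ₘ m with hR
      have hRdeg : R.natDegree < 2 := by
        rw [hR, ← hmdeg]
        exact Polynomial.natDegree_modByMonic_lt P hmon (by
          intro h1
          rw [h1, Polynomial.natDegree_one] at hmdeg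
          omega)
      have hRx : Polynomial.aeval (algebraMap K K' a + algebraMap K K' b * y) R = 0 := by
        rw [← hdiv, map_add, map_mul, hmx, zero_mul, add_zero] at hpa
        exact hpa
      have hRlin : R = Polynomial.C (R.coeff 1) * Polynomial.X + Polynomial.C (R.coeff 0) :=
        Polynomial.eq_X_add_C_of_natDegree_le_one (by omega)
      have hc1 : R.coeff 1 = 0 := by
        by_contra hne
        rw [hRlin] at hRx
        simp only [map_add, map_mul, Polynomial.aeval_X, Polynomial.aeval_C] at hRx
        have hck : algebraMap K K' (R.coeff 1) ≠ 0 := (map_ne_zero _).2 hne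
        apply hy' ((-(R.coeff 0) / (R.coeff 1) - a) / b)
        rw [map_div₀, map_sub, map_div₀, map_neg]
        field_simp
        linear_combination -hRx
      have hc0 : R.coeff 0 = 0 := by
        rw [hRlin, hc1] at hRx
        simp only [map_zero, zero_mul, zero_add, Polynomial.aeval_C] at hRx
        exact (map_eq_zero _).1 hRx
      have hR0 : R = 0 := by rw [hRlin, hc1, hc0]; simp
      rw [← hdiv, hR0, zero_add, map_mul, hmx', zero_mul]
    have h1 := RingHom.IsIntegralElem.add (locHom v K') h hconj
    have h2 := RingHom.IsIntegralElem.mul (locHom v K') h hconj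
    have e1 : algebraMap K K' a + algebraMap K K' b * y +
        (algebraMap K K' a - algebraMap K K' b * y) = algebraMap K K' (2 * a) := by
      rw [map_mul, map_ofNat]; ring
    have e2 : (algebraMap K K' a + algebraMap K K' b * y) *
        (algebraMap K K' a - algebraMap K K' b * y) = algebraMap K K' (a ^ 2 - b ^ 2 * e) := by
      rw [map_sub, map_mul, map_pow, map_pow]
      linear_combination -(algebraMap K K' b) ^ 2 * hy
    rw [e1] at h1
    rw [e2] at h2
    have h3 := le_one_of_integral v h1
    have h4 := le_one_of_integral v h2
    rw [map_mul, hone, one_mul] at h3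
    refine ⟨h3, ?_⟩
    have h5 : b ^ 2 * e = a ^ 2 - (a ^ 2 - b ^ 2 * e) := by ring
    rw [h5]
    refine Valuation.map_sub_le _ ?_ h4
    rw [map_pow]
    exact pow_le_one' h3 2
  · rintro ⟨h1, h2⟩
    refine RingHom.IsIntegralElem.add (locHom v K') (integral_of_le_one v h1) ?_
    have h3 : v.val (b ^ 2 * e) ≤ 1 := h2
    refine ⟨Polynomial.X ^ 2 - Polynomial.C ⟨b ^ 2 * e, h3⟩, ?_, ?_⟩
    · monicity!
    · rw [Polynomial.eval₂_sub, Polynomial.eval₂_pow, Polynomial.eval₂_X, Polynomial.eval₂_C]
      have h4 : locHom v K' ⟨b ^ 2 * e, h3⟩ = algebraMap K K' (b ^ 2 * e) := rfl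
      rw [h4, map_mul, map_pow]
      linear_combination (algebraMap K K' b) ^ 2 * hy

end Pool.Agent.W518.EG
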