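import Pool.Agent.W518.EG.Final
import Pool.Agent.W518.EG.H0
import Pool.Agent.W518.EG.Integral

/-!
# Project EG (MP_4f5420_ag): the bundle `η` is not in `C₃ - C₃`, and the final theorem
-/

set_option autoImplicit false

open scoped WithZero Matrix
open IntermediateField
open Pool.Agent.Helper395.CS hiding genus
open Pool.Agent.Helper395.BC
open Pool.Agent.W518.PC (lpow)
open Pool.Agent.W45.PCG (lchain lplus le_lplus one_le_lplus)

namespace Pool.Agent.W518.EG

variable {K : Type} [Field K] [Algebra ℂ K]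

/-- `𝒪(-B)` -/
noncomputable def lneg (B : Point K →₀ ℕ) : LineBundle K where
  frame v := (exists_ord v (B v)).choose
  finite := by
    refine (B.support.finite_toSet).subset fun v hv => ?_
    by_contra h
    have h0 : B v = 0 := by simpa using h
    have h1 := (exists_ord v (B v)).choose_spec
    apply hv
    rw [v.val_eq_one_iff (Units.ne_zero _), h1, h0]
    rfl

theorem lneg_ord (B : Point K →₀ ℕ) (v : Point K) : v.ord ((lneg B).frame v : K) = B v :=
  (exists_ord v (B v)).choose_spec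

theorem lneg_degree (B : Point K →₀ ℕ) : (lneg B).degree = -((B.sum fun _ n => n : ℕ) : ℤ) := by
  unfold LineBundle.degree
  rw [finsum_congr (fun v => by rw [lneg_ord B v]), finsum_neg_distrib,
    finsum_eq_sum_of_support_subset (s := B.support)]
  · rw [Finsupp.sum]
    push_cast
    rfl
  · intro v hv
    simpa using hv

theorem mem_mulneg (L : LineBundle K) (B : Point K →₀ ℕ) (v : Point K) (s : K) :
    s ∈ (lmul L (lneg B)).stalk v ↔ s = 0 ∨ v.ord (L.frame v : K) + B v ≤ v.ord s := by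
  by_cases hs : s = 0
  · simp [hs, lstalk_zero]
  · rw [mem_lmul, ← map_mul, v.val_le_val_iff hs (mul_ne_zero (Units.ne_zero _) (Units.ne_zero _)),
      v.ord_mul (Units.ne_zero _) (Units.ne_zero _), lneg_ord]
    simp [hs]

theorem not_diff (hno : ∀ (κ : K) (D : Dat K) (d : K), D.Tw d → ∀ (U : Submodule ℂ K), κ ≠ 0 →
      FiniteDimensional ℂ U → (∀ u ∈ U, D.Bd 1 u ∧ D.Bd d (κ * u)) → Module.finrank ℂ U ≤ 3)
    (D : Dat K) {d : K} (hd : D.Tw d) (h7 : Module.finrank ℂ (H0 (D.pq 6 6)) = 7) :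
    ¬ InDifference (eta D.curve d hd.even) 3 := by
  rintro ⟨A, B, hA, hB, c, hc⟩
  set M := lmul (D.pq 6 6) (lneg B) with hM
  have hle : ∀ v s, s ∈ M.stalk v → s ∈ (D.pq 6 6).stalk v := by
    intro v s hs
    rw [hM, mem_mulneg] at hs
    rcases hs with rfl | hs
    · exact lstalk_zero
    · by_cases h0 : s = 0
      · rw [h0]; exact lstalk_zero
      · change v.val s ≤ v.val ((D.pq 6 6).frame v : K)
        rw [v.val_le_val_iff h0 (Units.ne_zero _)]
        omega
  have hfin := H0_fin D.curve (D.pq 6 6)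
  have hfinM := H0_fin D.curve M
  have hdim := ((lchain D.curve hle).2 hfin).1
  have hdeg : M.degree = (D.pq 6 6).degree - 3 := by
    rw [hM, lmul_degree, lneg_degree, hB]
    push_cast
    ring
  rw [hdeg, h7] at hdim
  have h4 : 4 ≤ Module.finrank ℂ (H0 M) := by push_cast at hdim; omega
  have hc0 : (c : K) ≠ 0 := c.ne_zero
  -- the order of `c`
  have hcv : ∀ v : Point K, v.ord (c : K) + v.ord ((eta D.curve d hd.even).frame v : K) =
      B v - A v := by
    intro v
    have hf0 : ((eta D.curve d hd.even).frame v : K) ≠ 0 := Units.ne_zero _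
    have e1 : ((eta D.curve d hd.even).frame v : K) ∈ (eta D.curve d hd.even).stalk v :=
      le_refl (v.val ((eta D.curve d hd.even).frame v : K))
    have h1 := (hc v _).1 e1
    rw [v.ord_mul hc0 hf0] at h1
    have h1' : (B v : ℤ) - A v ≤ v.ord (c : K) + v.ord ((eta D.curve d hd.even).frame v : K) := by
      rcases h1 with h1 | h1
      · exact absurd h1 (mul_ne_zero hc0 hf0)
      · exact h1
    obtain ⟨u, hu⟩ := exists_ord v ((B v : ℤ) - A v - v.ord (c : K))
    have h2 := (hc v (u : K)).2 (Or.inr (by rw [v.ord_mul hc0 u.ne_zero, hu]; omega))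
    change v.val (u : K) ≤ v.val ((eta D.curve d hd.even).frame v : K) at h2
    rw [v.val_le_val_iff u.ne_zero hf0, hu] at h2
    omega
  have hbd : ∀ u ∈ H0 M, D.Bd 1 u ∧ D.Bd d ((c : K)⁻¹ * u) := by
    intro u hu
    by_cases hu0 : u = 0
    · subst hu0
      exact ⟨Or.inl rfl, Or.inl (mul_zero _)⟩
    have hu' : ∀ v : Point K, v.ord ((D.pq 6 6).frame v : K) + B v ≤ v.ord u := by
      intro v
      have := hu v
      rw [hM, mem_mulneg] at this
      rcases this with h | h
      · exact absurd h hu0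
      · exact h
    have hP := hu' D.P
    have hQ := hu' D.Q
    rw [pq_ordP] at hP
    rw [pq_ordQ] at hQ
    have hord : ∀ v : Point K, v.ord ((c : K)⁻¹ * u) = v.ord u - v.ord (c : K) := by
      intro v
      rw [v.ord_mul (inv_ne_zero hc0) hu0, v.ord_inv]
      ring
    have h1P := hcv D.P
    have h1Q := hcv D.Q
    have h2P := eta_ord D.curve d hd.even D.P
    have h2Q := eta_ord D.curve d hd.even D.Q
    refine ⟨Or.inr ⟨?_, ?_, fun v hv hv' => ?_⟩, Or.inr ⟨?_, ?_, fun v hv hv' => ?_⟩⟩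
    · rw [Point.ord_one]; omega
    · rw [Point.ord_one]; omega
    · rw [Point.ord_one]
      have := hu' v
      rw [pq_ord_ne D.toPre 6 6 hv hv'] at this
      omega
    · rw [hord]; omega
    · rw [hord]; omega
    · rw [hord]
      have h3 := hu' v
      rw [pq_ord_ne D.toPre 6 6 hv hv'] at h3
      have h1 := hcv v
      have h2 := eta_ord D.curve d hd.even v
      omega
  have := hno (c : K)⁻¹ D d hd (H0 M) (inv_ne_zero hc0) hfinM hbd
  omega

/-- the final theorem, from the statements of the project -/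
theorem final (hc : S_comp) (htwo : S_two) (hV : S_V) (hW : S_W) (hflag : S_flag)
    (hA : S_caseA) (hgon : S_gonW) (hRR : S_RR) (hF : S_F) (hdims : S_dims) (hGEN : S_GEN)
    (hEX : S_EX) (h5 : S_5) (hPQ : S_PQ) (hNR : S_NR) (hlow : S_low) (hTw : S_Tw) (hM : S_M) :
    ∃ (K : Type) (_ : Field K) (_ : Algebra ℂ K) (η : LineBundle K)
      (K' : Type) (_ : Field K') (_ : Algebra ℂ K') (_ : Algebra K K'),
      IsCurve K ∧ genus K = 7 ∧ gonality K = 5 ∧
      (lmul η η).Iso (one K) ∧ ¬ η.Iso (one K) ∧ IsEtaleDoubleCover η K' ∧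
      gonality K' ≤ 7 ∧ ¬ InDifference η 3 := by
  obtain ⟨K, iF, iA, ⟨M⟩⟩ := hEX
  obtain ⟨D₀, hL⟩ := hPQ K M
  set D : Dat K := { D₀ with nr := fun f hf ht => hNR K M D₀ hL f (by rw [← hL.ρ]; exact hf) ht }
    with hD
  have hDtw : D.Tw (M.z ^ 2 - 4) := hTw K M D₀ hL
  have hFs := hF K D (fun m hm => hlow K M D₀ hL m hm (by
    have h1 := H0_fin M.curve (D₀.pq (7 * m) (7 * m))
    exact Submodule.finiteDimensional_of_le inf_le_left))
  have hg : genus K = 7 := genus_seven s_H0 hdims hGEN D hFs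
  have h7 : Module.finrank ℂ (H0 (D.pq 6 6)) = 7 := (hdims K D hFs).1.2
  have hlower := gon_lower s_H0 hRR hgon D hg h7
  obtain ⟨ht, ht5⟩ := h5 K M
  have hgon5 : gonality K = 5 := by
    unfold gonality
    have hmem : Module.finrank ℂ⟮M.t⟯ K ∈ {n | ∃ f : K, Transcendental ℂ f ∧
        Module.finrank ℂ⟮f⟯ K = n} := ⟨M.t, ht, rfl⟩
    refine le_antisymm ((Nat.sInf_le hmem).trans ht5) ?_
    refine le_csInf ⟨_, hmem⟩ ?_
    rintro n ⟨f, hf, rfl⟩
    exact hlower f hf
  obtain ⟨K', i1, i2, i3, i4, hK', hfr, ⟨y, hy, hy'⟩, x, hx, hx7⟩ := hM K M (by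
    rintro ⟨g, hg⟩
    exact no_sqrt D.toPre hDtw 1 g (by rw [one_smul, hg]))
  refine ⟨K, iF, iA, eta D.curve _ hDtw.even, K', i1, i2, i3, M.curve, hg, hgon5, ?_,
    eta_not_iso D.toPre hDtw, ?_, ?_, ?_⟩
  · refine ⟨Units.mk0 _ hDtw.ne, fun v s => ?_⟩
    rw [Units.val_mk0]
    exact mem_eta2 D.curve _ hDtw.ne hDtw.even v s
  · refine ⟨i4, hK', hfr, Units.mk0 _ hDtw.ne, y, fun v s => ?_, ?_, hy', fun v a b => ?_⟩
    · rw [Units.val_mk0]
      exact mem_eta2 D.curve _ hDtw.ne hDtw.even v s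
    · rw [Units.val_mk0]; exact hy
    · refine (integral_iff v hy hy' a b).trans (and_congr_right fun _ => ?_)
      rw [mem_eta]
      by_cases hb : b = 0
      · simp [hb]
      · rw [v.val_le_one_iff (mul_ne_zero (pow_ne_zero 2 hb) hDtw.ne),
          v.ord_mul (pow_ne_zero 2 hb) hDtw.ne, v.ord_pow]
        simp only [hb, false_or]
        push_cast
        rfl
  · unfold gonality
    have hmem : Module.finrank ℂ⟮x⟯ K' ∈ {n | ∃ f : K', Transcendental ℂ f ∧
        Module.finrank ℂ⟮f⟯ K' = n} := ⟨x, hx, rfl⟩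
    exact (Nat.sInf_le hmem).trans hx7
  · exact not_diff (fun κ D d hd U hκ hfin hU => no_U hc htwo hV hW hflag hA D d hd κ U hκ hfin hU)
      D hDtw h7

end Pool.Agent.W518.EG
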