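import Pool.Agent.W518.EG.MTw

/-!
# Project EG (MP_4f5420_ag): EG-low
-/

set_option autoImplicit false

open scoped WithZero Matrix Polynomial
open IntermediateField
open Pool.Agent.Helper395.CS hiding genus
open Pool.Agent.Helper395.BC

namespace Pool.Agent.W518.EG

variable {K : Type} [Field K] [Algebra ℂ K]

/-- the space spanned by the `z ^ i`, `i ≤ m`, and `z ^ i W`, `i ≤ m - 2` -/
noncomputable def lowMap (M : Mod K) (m : ℕ) :
    (Polynomial.degreeLT ℂ (m + 1) × Polynomial.degreeLT ℂ (m - 1)) →ₗ[ℂ] K where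
  toFun p := Polynomial.aeval M.z p.1.1 + Polynomial.aeval M.z p.2.1 * M.W
  map_add' p q := by
    change Polynomial.aeval M.z (p.1.1 + q.1.1) + Polynomial.aeval M.z (p.2.1 + q.2.1) * M.W = _
    rw [map_add, map_add]; ring
  map_smul' c p := by
    change Polynomial.aeval M.z (c • p.1.1) + Polynomial.aeval M.z (c • p.2.1) * M.W = _
    rw [map_smul, map_smul, RingHom.id_apply, smul_add, smul_mul_assoc]

theorem lowMap_apply (M : Mod K) (m : ℕ)
    (p : Polynomial.degreeLT ℂ (m + 1) × Polynomial.degreeLT ℂ (m - 1)) :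
    lowMap M m p = Polynomial.aeval M.z p.1.1 + Polynomial.aeval M.z p.2.1 * M.W := rfl

theorem lowMap_inj (M : Mod K) (m : ℕ) : Function.Injective (lowMap M m) := by
  rw [injective_iff_map_eq_zero]
  intro p hp
  rw [lowMap_apply] at hp
  have h2 := congrArg M.ι hp
  rw [map_add, map_mul, map_zero, fix_adj M.ι M.iota_z (mem_adj _),
    fix_adj M.ι M.iota_z (mem_adj _), M.iota_W] at h2
  have h2K : (2 : K) ≠ 0 := by
    have h10 : CharZero K := charZero_of_injective_algebraMap (algebraMap ℂ K).injective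
    exact two_ne_zero
  have h3 : Polynomial.aeval M.z p.1.1 = 0 := by
    have : (2 : K) * Polynomial.aeval M.z p.1.1 = 0 := by linear_combination hp + h2
    exact (mul_eq_zero.1 this).resolve_left h2K
  have h4 : Polynomial.aeval M.z p.2.1 = 0 := by
    rw [h3, zero_add] at hp
    exact (mul_eq_zero.1 hp).resolve_right (W_ne M)
  have e1 : p.1.1 = 0 := by
    by_contra h
    exact aeval_ne_zero M.trans h h3
  have e2 : p.2.1 = 0 := by
    by_contra h
    exact aeval_ne_zero M.trans h h4
  exact Prod.ext (Subtype.ext e1) (Subtype.ext e2)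

theorem val_poly_le {M : Mod K} {D : Pre K} (L : Link M D) {v : Point K}
    (hv : v = D.P ∨ v = D.Q) (p : ℂ[X]) {n : ℕ} (hp : p.natDegree ≤ n) :
    v.val (Polynomial.aeval M.z p) ≤ WithZero.exp (7 * (n : ℤ)) := by
  have hz0 : M.z ≠ 0 := ne_zero_of_transcendental M.trans
  by_cases h0 : p = 0
  · rw [h0, map_zero, map_zero]; exact zero_le
  obtain ⟨h1, h2⟩ := P_val_z L
  have hvz : 1 < v.val M.z ∧ v.ord M.z = -7 := by
    rcases hv with rfl | rfl
    · exact ⟨h1, L.P_z⟩
    · exact ⟨h2, L.Q_z⟩
  rw [v.val_eq_exp (aeval_ne_zero M.trans h0), ord_poly_inf hz0 hvz.1 h0 M.trans, hvz.2,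
    WithZero.exp_le_exp]
  have : (p.natDegree : ℤ) ≤ n := by exact_mod_cast hp
  linarith

theorem ord_W {M : Mod K} {D : Pre K} (L : Link M D) {v : Point K} (hv : v = D.P ∨ v = D.Q) :
    v.ord M.W = -14 := by
  have hz0 : M.z ≠ 0 := ne_zero_of_transcendental M.trans
  obtain ⟨h1, h2⟩ := P_val_z L
  have hvz : 1 < v.val M.z ∧ v.ord M.z = -7 := by
    rcases hv with rfl | rfl
    · exact ⟨h1, L.P_z⟩
    · exact ⟨h2, L.Q_z⟩
  have h3 := congrArg v.ord M.W_sq
  rw [v.ord_pow, ← pA_aeval, ← pB_aeval, v.ord_mul (aeval_ne_zero M.trans pA_ne)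
    (aeval_ne_zero M.trans pB_ne), ord_poly_inf hz0 hvz.1 pA_ne M.trans,
    ord_poly_inf hz0 hvz.1 pB_ne M.trans, pA_deg, pB_deg, hvz.2] at h3
  push_cast at h3
  omega

theorem s_low : S_low := by
  intro K _ _ M D L m hm hfin
  have hmem : ∀ p, lowMap M m p ∈ D.Fs m m := by
    intro p
    rw [mem_Fs, lowMap_apply]
    constructor
    · rw [L.ρ, map_add, map_mul, fix_adj M.ρ M.rho_z (mem_adj _),
        fix_adj M.ρ M.rho_z (mem_adj _), M.rho_W]
    · by_cases h0 : Polynomial.aeval M.z p.1.1 + Polynomial.aeval M.z p.2.1 * M.W = 0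
      · exact Or.inl h0
      right
      have hd1 : p.1.1.natDegree ≤ m := by
        by_cases h : p.1.1 = 0
        · rw [h, Polynomial.natDegree_zero]; omega
        have := Polynomial.mem_degreeLT.1 p.1.2
        rw [Polynomial.degree_eq_natDegree h] at this
        have h' : p.1.1.natDegree < m + 1 := by exact_mod_cast this
        omega
      have hd2 : p.2.1.natDegree ≤ m - 2 := by
        by_cases h : p.2.1 = 0
        · rw [h, Polynomial.natDegree_zero]; omega
        have := Polynomial.mem_degreeLT.1 p.2.2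
        rw [Polynomial.degree_eq_natDegree h] at this
        have h' : p.2.1.natDegree < m - 1 := by exact_mod_cast this
        omega
      have key : ∀ v : Point K, (v = D.P ∨ v = D.Q) → -(7 * (m : ℤ)) ≤
          v.ord (Polynomial.aeval M.z p.1.1 + Polynomial.aeval M.z p.2.1 * M.W) := by
        intro v hv
        have h1 := val_poly_le L hv p.1.1 hd1
        have h2 := val_poly_le L hv p.2.1 hd2
        have h3 : v.val M.W = WithZero.exp 14 := by
          rw [v.val_eq_exp (W_ne M), ord_W L hv]; rfl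
        have h4 : v.val (Polynomial.aeval M.z p.2.1 * M.W) ≤ WithZero.exp (7 * (m : ℤ)) := by
          rw [map_mul, h3]
          calc v.val (Polynomial.aeval M.z p.2.1) * WithZero.exp 14 ≤
                WithZero.exp (7 * ((m - 2 : ℕ) : ℤ)) * WithZero.exp 14 :=
                mul_le_mul_left h2 _
            _ = WithZero.exp (7 * (m : ℤ)) := by
                rw [← WithZero.exp_add]
                congr 1
                have : ((m - 2 : ℕ) : ℤ) = m - 2 := by omega
                rw [this]; ring
        have h5 := Valuation.map_add_le v.val h1 h4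
        rw [v.val_eq_exp h0, WithZero.exp_le_exp] at h5
        omega
      refine ⟨key _ (Or.inl rfl), key _ (Or.inr rfl), fun v hP hQ => ?_⟩
      have hz := L.z_le v hP hQ
      rw [← v.val_le_one_iff h0]
      have hW : v.val M.W ≤ 1 := by
        have h1 : v.val (M.W ^ 2) ≤ 1 := by
          rw [M.W_sq, ← pA_aeval, ← pB_aeval, map_mul]
          exact mul_le_one' (aeval_le hz _) (aeval_le hz _)
        rw [map_pow] at h1
        by_contra hcon
        rw [not_le] at hcon
        exact absurd h1 (not_le.2 (one_lt_pow' hcon two_ne_zero))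
      refine Valuation.map_add_le _ (aeval_le hz _) ?_
      rw [map_mul]
      exact mul_le_one' (aeval_le hz _) hW
  have h1 := LinearMap.finrank_le_finrank_of_injective
    (f := (lowMap M m).codRestrict (D.Fs m m) hmem) (by
      intro x y h
      exact lowMap_inj M m (congrArg Subtype.val h))
  have e1 : Module.finrank ℂ (Polynomial.degreeLT ℂ (m + 1)) = m + 1 := by
    rw [(Polynomial.degreeLTEquiv ℂ (m + 1)).finrank_eq, Module.finrank_fin_fun]
  have e2 : Module.finrank ℂ (Polynomial.degreeLT ℂ (m - 1)) = m - 1 := by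
    rw [(Polynomial.degreeLTEquiv ℂ (m - 1)).finrank_eq, Module.finrank_fin_fun]
  have i1 : Module.Finite ℂ (Polynomial.degreeLT ℂ (m + 1)) :=
    Module.Finite.equiv (Polynomial.degreeLTEquiv ℂ (m + 1)).symm
  have i2 : Module.Finite ℂ (Polynomial.degreeLT ℂ (m - 1)) :=
    Module.Finite.equiv (Polynomial.degreeLTEquiv ℂ (m - 1)).symm
  rw [Module.finrank_prod, e1, e2] at h1
  omega

end Pool.Agent.W518.EG
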