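import Pool.Agent.W518.EG.MTw

/-!
# Project EG (MP_4f5420_ag): EG-NR
-/

set_option autoImplicit false

open scoped WithZero Matrix Polynomial
open IntermediateField
open Pool.Agent.Helper395.CS hiding genus
open Pool.Agent.Helper395.BC

namespace Pool.Agent.W518.EG

variable {K : Type} [Field K] [Algebra ℂ K]

theorem q_rm (α : ℂ) (h : (pA.rootMultiplicity α = 1 ∧ pB.rootMultiplicity α = 0) ∨
    (pA.rootMultiplicity α = 0 ∧ pB.rootMultiplicity α = 1)) :
    (pA * pB).rootMultiplicity α = 1 := by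
  rw [Polynomial.rootMultiplicity_mul (mul_ne_zero pA_ne pB_ne)]
  omega

/-- if `b ^ 2 q = r` with `b` rational and `deg r ≤ 2` then `r = 0` -/
theorem r_zero {z : K} (hz : Transcendental ℂ z) {b : K} (hb : b ∈ ℂ⟮z⟯) {r : ℂ[X]}
    (h : b ^ 2 * (Polynomial.aeval z pA * Polynomial.aeval z pB) = Polynomial.aeval z r)
    (hr : r.natDegree ≤ 2) : r = 0 := by
  by_contra hr0
  obtain ⟨p, q, hq, -, rfl⟩ := (mem_adj_iff hz).1 hb
  have hqz := aeval_ne_zero hz hq
  have hp : p ≠ 0 := by
    rintro rfl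
    rw [map_zero, zero_div, zero_pow two_ne_zero, zero_mul] at h
    exact aeval_ne_zero hz hr0 h.symm
  have h2 : (pA * pB) * p ^ 2 = r * q ^ 2 := by
    apply aeval_inj hz
    rw [map_mul, map_mul, map_pow, map_mul, map_pow, ← h]
    field_simp
  have key : ∀ α : ℂ, (pA * pB).rootMultiplicity α = 1 → r.IsRoot α := by
    intro α hα
    have h3 := rm_eq (mul_ne_zero pA_ne pB_ne) hp hr0 hq h2 α
    rw [← Polynomial.rootMultiplicity_pos hr0]
    omega
  obtain ⟨α, hα, h4, h5, h6⟩ := pB_root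
  have r1 : r.IsRoot 2 := key 2 (q_rm 2 (Or.inl ⟨pA_rm, by
    apply Polynomial.rootMultiplicity_eq_zero
    rw [Polynomial.IsRoot.def, pB_eval]; norm_num⟩))
  have r2 : r.IsRoot (-2) := key (-2) (q_rm (-2) (Or.inl ⟨pA_rm', by
    apply Polynomial.rootMultiplicity_eq_zero
    rw [Polynomial.IsRoot.def, pB_eval]; norm_num⟩))
  have r3 : r.IsRoot α := key α (q_rm α (Or.inr ⟨Polynomial.rootMultiplicity_eq_zero h6, hα⟩))
  have hsub : ({2, -2, α} : Finset ℂ) ⊆ r.roots.toFinset := by
    intro x hx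
    simp only [Finset.mem_insert, Finset.mem_singleton] at hx
    rw [Multiset.mem_toFinset, Polynomial.mem_roots hr0]
    rcases hx with rfl | rfl | rfl
    · exact r1
    · exact r2
    · exact r3
  have hcard : ({2, -2, α} : Finset ℂ).card = 3 := by
    rw [Finset.card_eq_three]
    exact ⟨2, -2, α, by norm_num, h4.symm, h5.symm, rfl⟩
  have h7 := Finset.card_le_card hsub
  have h8 := Multiset.toFinset_card_le r.roots
  have h9 := Polynomial.card_roots' r
  omega

theorem s_NR : S_NR := by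
  intro K _ _ M D L f hf ht
  by_contra hlt
  rw [not_le] at hlt
  have hK := M.curve
  have hz := M.trans
  have hz0 : M.z ≠ 0 := ne_zero_of_transcendental hz
  obtain ⟨hvP, hvQ⟩ := P_val_z L
  have hfD : D.ρ f = f := by rw [L.ρ]; exact hf
  have hpos : ∀ g : K, Transcendental ℂ g → 1 ≤ degP g := by
    intro g hg
    have h1 := degZ_eq hK hg
    rw [degZ_eq_degP hK] at h1
    have h3 := hK.finiteDimensional hg
    have h4 : 0 < Module.finrank ℂ⟮g⟯ K := Module.finrank_pos
    omega
  have h7 := s_D7 K D f hfD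
  have hp1 := hpos f ht
  have hdf : degP f = 7 := by omega
  -- a function with a pole at P
  obtain ⟨h, hρ, hdh, hP⟩ : ∃ h : K, D.ρ h = h ∧ degP h ≤ 7 ∧ D.P.ord h < 0 := by
    by_cases hcase : D.P.ord f < 0
    · exact ⟨f, hfD, hdf.le, hcase⟩
    · have hf0 : f ≠ 0 := ne_zero_of_transcendental ht
      have hv : D.P.val f ≤ 1 := by rw [D.P.val_le_one_iff hf0]; omega
      obtain ⟨c, hc⟩ := exists_residue hK ht D.P hv
      have hne : f - algebraMap ℂ K c ≠ 0 := by
        intro h
        apply ht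
        rw [sub_eq_zero.1 h]
        exact isAlgebraic_algebraMap c
      refine ⟨(f - algebraMap ℂ K c)⁻¹, ?_, ?_, ?_⟩
      · rw [map_inv₀, map_sub, hfD, AlgEquiv.commutes]
      · rw [← degZ_inv, inv_inv, degZ_eq_degP hK]
        have h1 := degP_add_le hK f (-algebraMap ℂ K c)
        rw [← sub_eq_add_neg] at h1
        have h2 : degP (-algebraMap ℂ K c) = 0 := by
          rw [degP_neg]; simp [degP, Point.ord_const]
        omega
      · rw [D.P.val_lt_one_iff hne] at hc
        rw [Point.ord_inv]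
        omega
  have hh0 : h ≠ 0 := by
    rintro rfl
    rw [Point.ord_zero] at hP
    omega
  have hmod := (inv_mod D hh0 hρ).1
  have e1 : ∑ᶠ x : Point K, max (-x.ord h) 0 = degP h := rfl
  have h1 := one_le_finsum' (supp_max' hK h) (fun v => le_max_right _ _) D.P
  rw [e1] at h1
  have oP : D.P.ord h = -7 := by omega
  have hreg : ∀ v, v ≠ D.P → 0 ≤ v.ord h := by
    intro v hv
    have h2 := two_le_finsum (supp_max' hK h) (fun v => le_max_right _ _) hv
    rw [e1] at h2
    omega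
  have hregv : ∀ v, v ≠ D.P → v.val h ≤ 1 := fun v hv => (v.val_le_one_iff hh0).2 (hreg v hv)
  have hιreg : ∀ v : Point K, v.val M.z ≤ 1 → v.val h ≤ 1 ∧ v.val (M.ι h) ≤ 1 := by
    intro v hv
    constructor
    · apply hregv
      rintro rfl
      exact absurd hvP (not_lt.2 hv)
    · rw [← Point.comap_val]
      apply hregv
      intro hc
      have h2 : (v.comap M.ι).val M.z = D.P.val M.z := by rw [hc]
      rw [Point.comap_val, M.iota_z] at h2
      rw [h2] at hv
      exact absurd hvP (not_lt.2 hv)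
  obtain ⟨a, ha, b, hb, hab⟩ := M.fixed h (by rw [← L.ρ]; exact hρ)
  have hιa := fix_adj M.ι M.iota_z ha
  have hιb := fix_adj M.ι M.iota_z hb
  have hιh : M.ι h = a - b * M.W := by
    rw [hab, map_add, map_mul, hιa, hιb, M.iota_W]; ring
  have h2K : (2 : K) ≠ 0 := by
    have h10 : CharZero K := charZero_of_injective_algebraMap (algebraMap ℂ K).injective
    exact two_ne_zero
  have v2 : ∀ v : Point K, v.val (2 : K) = 1 := by
    intro v
    have := v.const 2 (by norm_num)
    rwa [map_ofNat] at this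
  -- `a` is a polynomial
  have ea : 2 * a = h + M.ι h := by rw [hιh, hab]; ring
  have eb : 2 * (b * M.W) = h - M.ι h := by rw [hιh, hab]; ring
  obtain ⟨pa, hpa⟩ := poly_of_regular hK hz ha (fun v hv => by
    obtain ⟨k1, k2⟩ := hιreg v hv
    have h3 : v.val (2 * a) ≤ 1 := by rw [ea]; exact Valuation.map_add_le _ k1 k2
    rwa [map_mul, v2, one_mul] at h3)
  have hr_mem : b ^ 2 * (Polynomial.aeval M.z pA * Polynomial.aeval M.z pB) ∈ ℂ⟮M.z⟯ :=
    mul_mem (pow_mem hb 2) (mul_mem (mem_adj _) (mem_adj _))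
  have hbW : b ^ 2 * (Polynomial.aeval M.z pA * Polynomial.aeval M.z pB) = (b * M.W) ^ 2 := by
    rw [pA_aeval, pB_aeval, mul_pow, M.W_sq]
  obtain ⟨r, hr⟩ := poly_of_regular hK hz hr_mem (fun v hv => by
    obtain ⟨k1, k2⟩ := hιreg v hv
    have h3 : v.val (2 * (b * M.W)) ≤ 1 := by rw [eb]; exact Valuation.map_sub_le _ k1 k2
    rw [map_mul, v2, one_mul] at h3
    rw [hbW, map_pow]
    exact pow_le_one' h3 2)
  -- the values at P
  have vPh : D.P.val h = WithZero.exp 7 := by rw [D.P.val_eq_exp hh0, oP]; rfl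
  have hιh0 : M.ι h ≠ 0 := fun h3 => hh0 ((map_eq_zero_iff _ M.ι.injective).1 h3)
  have vPιh : D.P.val (M.ι h) ≤ 1 := by
    rw [D.P.val_le_one_iff hιh0, L.P_ι]
    exact hreg _ D.ne.symm
  have h17 : (1 : ℤᵐ⁰) ≤ WithZero.exp 7 := by
    rw [← WithZero.exp_zero, WithZero.exp_le_exp]; norm_num
  have vPa : D.P.val a ≤ WithZero.exp 7 := by
    have h3 : D.P.val (2 * a) ≤ WithZero.exp 7 := by
      rw [ea]; exact Valuation.map_add_le _ vPh.le (vPιh.trans h17)
    rwa [map_mul, v2, one_mul] at h3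
  have vPb : D.P.val (b * M.W) ≤ WithZero.exp 7 := by
    have h3 : D.P.val (2 * (b * M.W)) ≤ WithZero.exp 7 := by
      rw [eb]; exact Valuation.map_sub_le _ vPh.le (vPιh.trans h17)
    rwa [map_mul, v2, one_mul] at h3
  have hr0 : r = 0 := by
    apply r_zero hz hb hr
    by_cases hrr : r = 0
    · rw [hrr, Polynomial.natDegree_zero]; norm_num
    have h3 : D.P.val (Polynomial.aeval M.z r) ≤ WithZero.exp 14 := by
      rw [← hr, hbW, map_pow]
      calc D.P.val (b * M.W) ^ 2 ≤ (WithZero.exp 7) ^ 2 := pow_le_pow_left' vPb 2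
        _ = WithZero.exp 14 := by rw [← WithZero.exp_nsmul]; norm_num
    have h4 := ord_poly_inf hz0 hvP hrr hz
    rw [D.P.val_eq_exp (aeval_ne_zero hz hrr), WithZero.exp_le_exp, h4, L.P_z] at h3
    omega
  have hbW0 : b * M.W = 0 := by
    have h3 : (b * M.W) ^ 2 = 0 := by rw [← hbW, hr, hr0, map_zero]
    exact pow_eq_zero_iff two_ne_zero |>.1 h3
  have hha : h = Polynomial.aeval M.z pa := by rw [hab, hbW0, add_zero, hpa]
  have hpa0 : pa ≠ 0 := by
    rintro rfl
    rw [map_zero] at hha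
    exact hh0 hha
  have k1 := ord_poly_inf hz0 hvP hpa0 hz
  have k2 := ord_poly_inf hz0 hvQ hpa0 hz
  rw [← hha, L.P_z, oP] at k1
  rw [← hha, L.Q_z] at k2
  have k3 := hreg D.Q D.ne.symm
  omega

end Pool.Agent.W518.EG
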