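import Pool.Agent.W518.EG.TF

/-!
# Project EG (MP_4f5420_ag): EG-dims
-/

set_option autoImplicit false

open scoped WithZero Matrix
open IntermediateField
open Pool.Agent.Helper395.CS hiding genus
open Pool.Agent.Helper395.BC

namespace Pool.Agent.W518.EG

variable {K : Type} [Field K] [Algebra ℂ K]

/-- the part of weight `j` of `L(n P + n Q)` -/
noncomputable def Pre.Wj (D : Pre K) (n j : ℤ) : Submodule ℂ K :=
  H0 (D.pq n n) ⊓ LinearMap.ker ((D.ρ : K ≃ₐ[ℂ] K).toLinearMap - (D.ζ ^ j) • LinearMap.id)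

theorem mem_Wj (D : Pre K) (n j : ℤ) (f : K) : f ∈ D.Wj n j ↔ f ∈ H0 (D.pq n n) ∧ D.Wt j f := by
  unfold Pre.Wj Pre.Wt
  rw [Submodule.mem_inf, LinearMap.mem_ker, LinearMap.sub_apply, LinearMap.smul_apply,
    LinearMap.id_apply, sub_eq_zero]
  rfl

theorem H0_rho (D : Pre K) (n : ℤ) {f : K} (hf : f ∈ H0 (D.pq n n)) : D.ρ f ∈ H0 (D.pq n n) := by
  rw [(s_H0 K D n n).2] at hf ⊢
  rcases hf with rfl | ⟨h1, h2, h3⟩
  · left; exact map_zero _
  obtain ⟨k1, k2, k3⟩ := s_0 K D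
  refine Or.inr ⟨by rw [k1]; exact h1, by rw [k2]; exact h2, fun v hv hv' => ?_⟩
  have := h3 (v.comap D.ρ) (k3 v hv hv').1 (k3 v hv hv').2
  rwa [Point.comap_ord] at this

theorem H0_comp (D : Pre K) (n j : ℤ) {f : K} (hf : f ∈ H0 (D.pq n n)) :
    D.comp j f ∈ H0 (D.pq n n) := by
  rw [comp_apply]
  refine Submodule.smul_mem _ _ (Submodule.sum_mem _ fun i hi => Submodule.smul_mem _ _ ?_)
  clear hi
  induction i with
  | zero => exact hf
  | succ i ih =>
    rw [pow_succ', AlgEquiv.mul_apply]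
    exact H0_rho D n ih

/-- decomposition into weights -/
noncomputable def splitEquiv (D : Pre K) (n : ℤ) :
    H0 (D.pq n n) ≃ₗ[ℂ] ((j : Fin 7) → D.Wj n ((j : ℕ) : ℤ)) where
  toFun f j := ⟨D.comp ((j : ℕ) : ℤ) f.1, (mem_Wj D _ _ _).2
    ⟨H0_comp D n _ f.2, (s_comp K D).1 _ _⟩⟩
  invFun g := ⟨∑ j : Fin 7, (g j).1, Submodule.sum_mem _ fun j _ =>
    ((mem_Wj D _ _ _).1 (g j).2).1⟩
  left_inv f := by
    apply Subtype.ext
    change ∑ j : Fin 7, D.comp ((j : ℕ) : ℤ) f.1 = f.1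
    have h := (s_comp K D).2.1 f.1
    rw [Finset.sum_range] at h
    exact h
  right_inv g := by
    funext j
    apply Subtype.ext
    change D.comp ((j : ℕ) : ℤ) (∑ i : Fin 7, (g i).1) = (g j).1
    rw [map_sum, Finset.sum_eq_single j]
    · exact (s_comp K D).2.2.1 _ _ _ ((mem_Wj D _ _ _).1 (g j).2).2 (by simp)
    · intro i _ hij
      refine (s_comp K D).2.2.2.1 _ _ _ ((mem_Wj D _ _ _).1 (g i).2).2 ?_
      have h1 := i.2
      have h2 := j.2
      have h3 : (i : ℕ) ≠ (j : ℕ) := fun h => hij (Fin.ext h)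
      omega
    · intro h
      exact absurd (Finset.mem_univ _) h
  map_add' f g := by
    funext j
    apply Subtype.ext
    exact map_add _ _ _
  map_smul' c f := by
    funext j
    apply Subtype.ext
    exact map_smul _ _ _

theorem Wj_fin (D : Pre K) (n j : ℤ) : FiniteDimensional ℂ (D.Wj n j) := by
  have h1 := H0_fin D.curve (D.pq n n)
  exact Submodule.finiteDimensional_of_le inf_le_left

theorem finrank_split (D : Pre K) (n : ℤ) : Module.finrank ℂ (H0 (D.pq n n)) =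
    ∑ j : Fin 7, Module.finrank ℂ (D.Wj n ((j : ℕ) : ℤ)) := by
  have hfin : ∀ j : Fin 7, FiniteDimensional ℂ (D.Wj n ((j : ℕ) : ℤ)) := fun j => Wj_fin D n _
  rw [(splitEquiv D n).finrank_eq, Module.finrank_pi_fintype]

/-- the part of weight `j` in terms of invariant functions -/
theorem Wj_eq (D : Pre K) (n j α β : ℤ) (h1 : 7 * α ≤ n - 5 * j) (h2 : n - 5 * j < 7 * α + 7)
    (h3 : 7 * β ≤ n + 5 * j) (h4 : n + 5 * j < 7 * β + 7) :
    D.Wj n j = (D.Fs α β).map (LinearMap.mulLeft ℂ (D.t ^ j)) := by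
  have ht0 := t_ne D
  have htj : D.t ^ j ≠ 0 := zpow_ne_zero _ ht0
  ext f
  rw [mem_Wj, Submodule.mem_map, (s_H0 K D n n).2]
  constructor
  · rintro ⟨hf, hwt⟩
    refine ⟨f * D.t ^ (-j), ?_, ?_⟩
    · rw [mem_Fs]
      have hρ : D.ρ (f * D.t ^ (-j)) = f * D.t ^ (-j) :=
        fix_of_wt D (hwt.mul (wt_tpow D (-j))) (by omega)
      refine ⟨hρ, ?_⟩
      by_cases hf0 : f = 0
      · left; rw [hf0, zero_mul]
      right
      obtain ⟨k1, k2, k3⟩ := hf.resolve_left hf0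
      have hne : f * D.t ^ (-j) ≠ 0 := mul_ne_zero hf0 (zpow_ne_zero _ ht0)
      obtain ⟨m1, m2⟩ := inv_mod D hne hρ
      have oP : D.P.ord (f * D.t ^ (-j)) = D.P.ord f + 5 * j := by
        rw [Point.ord_mul _ hf0 (zpow_ne_zero _ ht0), ord_zpow, D.ordP]; ring
      have oQ : D.Q.ord (f * D.t ^ (-j)) = D.Q.ord f - 5 * j := by
        rw [Point.ord_mul _ hf0 (zpow_ne_zero _ ht0), ord_zpow, D.ordQ]; ring
      refine ⟨by omega, by omega, fun v hv hv' => ?_⟩
      rw [Point.ord_mul _ hf0 (zpow_ne_zero _ ht0), ord_zpow, D.ord v hv hv', mul_zero, add_zero]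
      exact k3 v hv hv'
    · rw [LinearMap.mulLeft_apply, mul_left_comm, ← zpow_add₀ ht0, add_neg_cancel, zpow_zero,
        mul_one]
  · rintro ⟨g, hg, rfl⟩
    rw [mem_Fs] at hg
    obtain ⟨hρ, hg⟩ := hg
    rw [LinearMap.mulLeft_apply]
    constructor
    · by_cases hg0 : g = 0
      · left; rw [hg0, mul_zero]
      right
      obtain ⟨k1, k2, k3⟩ := hg.resolve_left hg0
      refine ⟨?_, ?_, fun v hv hv' => ?_⟩
      · rw [Point.ord_mul _ htj hg0, ord_zpow, D.ordP]; omega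
      · rw [Point.ord_mul _ htj hg0, ord_zpow, D.ordQ]; omega
      · rw [Point.ord_mul _ htj hg0, ord_zpow, D.ord v hv hv', mul_zero, zero_add]
        exact k3 v hv hv'
    · have hw : D.Wt 0 g := by
        unfold Pre.Wt
        rw [hρ, zpow_zero, one_smul]
      have := (wt_tpow D j).mul hw
      rwa [add_zero] at this

theorem Wj_finrank (D : Pre K) (n j α β : ℤ) (h1 : 7 * α ≤ n - 5 * j)
    (h2 : n - 5 * j < 7 * α + 7) (h3 : 7 * β ≤ n + 5 * j) (h4 : n + 5 * j < 7 * β + 7) :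
    Module.finrank ℂ (D.Wj n j) = Module.finrank ℂ (D.Fs α β) := by
  rw [Wj_eq D n j α β h1 h2 h3 h4]
  have hinj : Function.Injective (LinearMap.mulLeft ℂ (D.t ^ j)) := by
    intro x y h
    exact mul_left_cancel₀ (zpow_ne_zero _ (t_ne D)) h
  exact (LinearEquiv.finrank_eq (Submodule.equivMapOfInjective _ hinj (D.Fs α β))).symm

theorem Fs_zero (D : Pre K) : Module.finrank ℂ (D.Fs 0 0) = 1 := by
  have h : D.Fs 0 0 = H0 (one K) := by
    ext f
    rw [mem_Fs, mem_H0_one D.curve]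
    constructor
    · rintro ⟨-, h⟩
      rcases h with rfl | ⟨h1, h2, h3⟩
      · exact ⟨0, (map_zero _).symm⟩
      by_cases hf0 : f = 0
      · exact ⟨0, by rw [hf0, map_zero]⟩
      refine const_of_regular D.curve fun v => ?_
      rw [v.val_le_one_iff hf0]
      by_cases hP : v = D.P
      · rw [hP]; omega
      by_cases hQ : v = D.Q
      · rw [hQ]; omega
      exact h3 v hP hQ
    · rintro ⟨c, rfl⟩
      refine ⟨AlgEquiv.commutes _ _, Or.inr ⟨?_, ?_, fun v _ _ => ?_⟩⟩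
      · rw [Point.ord_const]; norm_num
      · rw [Point.ord_const]; norm_num
      · rw [Point.ord_const]
  rw [h, (H0_one D.curve).2]

theorem s_dims : S_dims := by
  intro K _ _ D hFs
  refine ⟨⟨H0_fin D.curve _, ?_⟩, fun m hm => ⟨H0_fin D.curve _, ?_⟩⟩
  · have h0 : Module.finrank ℂ (D.Wj 6 ((0 : ℕ) : ℤ)) = 1 := by
      rw [Wj_finrank D.toPre 6 ((0 : ℕ) : ℤ) 0 0 (by norm_num) (by norm_num) (by norm_num)
        (by norm_num), Fs_zero]
    have key : ∀ (j : ℕ) (α β : ℤ), α + β = 1 → 7 * α ≤ 6 - 5 * (j : ℤ) →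
        6 - 5 * (j : ℤ) < 7 * α + 7 → 7 * β ≤ 6 + 5 * (j : ℤ) → 6 + 5 * (j : ℤ) < 7 * β + 7 →
        Module.finrank ℂ (D.Wj 6 (j : ℤ)) = 1 := by
      intro j α β h h1 h2 h3 h4
      rw [Wj_finrank D.toPre 6 (j : ℤ) α β h1 h2 h3 h4]
      have := (hFs α β (by omega)).2
      omega
    have k1 := key 1 0 1 (by norm_num) (by norm_num) (by norm_num) (by norm_num) (by norm_num)
    have k2 := key 2 (-1) 2 (by norm_num) (by norm_num) (by norm_num) (by norm_num) (by norm_num)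
    have k3 := key 3 (-2) 3 (by norm_num) (by norm_num) (by norm_num) (by norm_num) (by norm_num)
    have k4 := key 4 (-2) 3 (by norm_num) (by norm_num) (by norm_num) (by norm_num) (by norm_num)
    have k5 := key 5 (-3) 4 (by norm_num) (by norm_num) (by norm_num) (by norm_num) (by norm_num)
    have k6 := key 6 (-4) 5 (by norm_num) (by norm_num) (by norm_num) (by norm_num) (by norm_num)
    rw [finrank_split, Fin.sum_univ_seven]
    change Module.finrank ℂ (D.Wj 6 ((0 : ℕ) : ℤ)) + Module.finrank ℂ (D.Wj 6 ((1 : ℕ) : ℤ)) +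
      Module.finrank ℂ (D.Wj 6 ((2 : ℕ) : ℤ)) + Module.finrank ℂ (D.Wj 6 ((3 : ℕ) : ℤ)) +
      Module.finrank ℂ (D.Wj 6 ((4 : ℕ) : ℤ)) + Module.finrank ℂ (D.Wj 6 ((5 : ℕ) : ℤ)) +
      Module.finrank ℂ (D.Wj 6 ((6 : ℕ) : ℤ)) = 7
    rw [h0, k1, k2, k3, k4, k5, k6]
  · have key : ∀ (j : ℕ) (a b : ℤ), 0 ≤ a + b + 1 → 7 * a ≤ - 5 * (j : ℤ) →
        - 5 * (j : ℤ) < 7 * a + 7 → 7 * b ≤ 5 * (j : ℤ) → 5 * (j : ℤ) < 7 * b + 7 →
        (Module.finrank ℂ (D.Wj (7 * m) (j : ℤ)) : ℤ) = 2 * m + a + b := by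
      intro j a b h h1 h2 h3 h4
      rw [Wj_finrank D.toPre (7 * m) (j : ℤ) (m + a) (m + b) (by omega) (by omega) (by omega)
        (by omega), (hFs (m + a) (m + b) (by omega)).2]
      ring
    have k0 := key 0 0 0 (by norm_num) (by norm_num) (by norm_num) (by norm_num) (by norm_num)
    have k1 := key 1 (-1) 0 (by norm_num) (by norm_num) (by norm_num) (by norm_num) (by norm_num)
    have k2 := key 2 (-2) 1 (by norm_num) (by norm_num) (by norm_num) (by norm_num) (by norm_num)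
    have k3 := key 3 (-3) 2 (by norm_num) (by norm_num) (by norm_num) (by norm_num) (by norm_num)
    have k4 := key 4 (-3) 2 (by norm_num) (by norm_num) (by norm_num) (by norm_num) (by norm_num)
    have k5 := key 5 (-4) 3 (by norm_num) (by norm_num) (by norm_num) (by norm_num) (by norm_num)
    have k6 := key 6 (-5) 4 (by norm_num) (by norm_num) (by norm_num) (by norm_num) (by norm_num)
    rw [finrank_split, Fin.sum_univ_seven]
    change Module.finrank ℂ (D.Wj (7 * m) ((0 : ℕ) : ℤ)) +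
      Module.finrank ℂ (D.Wj (7 * m) ((1 : ℕ) : ℤ)) +
      Module.finrank ℂ (D.Wj (7 * m) ((2 : ℕ) : ℤ)) +
      Module.finrank ℂ (D.Wj (7 * m) ((3 : ℕ) : ℤ)) +
      Module.finrank ℂ (D.Wj (7 * m) ((4 : ℕ) : ℤ)) +
      Module.finrank ℂ (D.Wj (7 * m) ((5 : ℕ) : ℤ)) +
      Module.finrank ℂ (D.Wj (7 * m) ((6 : ℕ) : ℤ)) + 6 = 14 * m
    omega

end Pool.Agent.W518.EG
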