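import Pool.Agent.W518.EG.TGon

/-!
# Project EG (MP_4f5420_ag): EG-gonW, conclusion
-/

set_option autoImplicit false

open scoped WithZero Matrix
open IntermediateField
open Pool.Agent.Helper395.CS hiding genus
open Pool.Agent.Helper395.BC

namespace Pool.Agent.W518.EG

variable {K : Type} [Field K] [Algebra ℂ K]

/-- the components of an element of order -1 at `P` -/
theorem comps_P1 (D : Dat K) {u : K} (hu0 : u ≠ 0) (hu : D.Bd 1 u) (h : D.P.ord u = -1) :
    D.comp (-3) u = 0 ∧ D.comp 1 u = 0 ∧ D.comp (-2) u = 0 ∧ D.comp 2 u = 0 ∧ D.comp 3 u ≠ 0 := by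
  have L := locP D
  have v1 := L.vanish hu0 hu (-3) (by norm_num) (by norm_num) (by rw [TV_m3]; omega)
  have v2 := L.vanish hu0 hu 1 (by norm_num) (by norm_num) (by rw [TV_1]; omega)
  have v3 := L.vanish hu0 hu (-2) (by norm_num) (by norm_num) (by rw [TV_m2]; omega)
  have v4 := L.vanish hu0 hu 2 (by norm_num) (by norm_num) (by rw [TV_2]; omega)
  rw [one_mul] at v1 v2 v3 v4
  obtain ⟨j, h1, h2, h3, h4⟩ := L.exists_ord hu0 hu
  rw [one_mul] at h3
  refine ⟨v1, v2, v3, v4, ?_⟩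
  rw [h] at h4
  rcases j7 j h1 h2 with rfl | rfl | rfl | rfl | rfl | rfl | rfl <;>
  simp only [TV_m3, TV_1, TV_m2, TV_2, TV_3, TV_0, TV_m1] at h4
  all_goals first
    | omega
    | exact h3

/-- the components of an element of order 0 at `P` -/
theorem comps_P0 (D : Dat K) {u : K} (hu0 : u ≠ 0) (hu : D.Bd 1 u) (h : D.P.ord u = 0) :
    D.comp (-3) u = 0 ∧ D.comp 1 u = 0 ∧ D.comp (-2) u = 0 ∧ D.comp 2 u = 0 ∧ D.comp 3 u = 0 ∧
      D.comp 0 u ≠ 0 := by
  have L := locP D
  have v1 := L.vanish hu0 hu (-3) (by norm_num) (by norm_num) (by rw [TV_m3]; omega)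
  have v2 := L.vanish hu0 hu 1 (by norm_num) (by norm_num) (by rw [TV_1]; omega)
  have v3 := L.vanish hu0 hu (-2) (by norm_num) (by norm_num) (by rw [TV_m2]; omega)
  have v4 := L.vanish hu0 hu 2 (by norm_num) (by norm_num) (by rw [TV_2]; omega)
  have v5 := L.vanish hu0 hu 3 (by norm_num) (by norm_num) (by rw [TV_3]; omega)
  rw [one_mul] at v1 v2 v3 v4 v5
  obtain ⟨j, h1, h2, h3, h4⟩ := L.exists_ord hu0 hu
  rw [one_mul] at h3
  refine ⟨v1, v2, v3, v4, v5, ?_⟩
  rw [h] at h4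
  rcases j7 j h1 h2 with rfl | rfl | rfl | rfl | rfl | rfl | rfl <;>
  simp only [TV_m3, TV_1, TV_m2, TV_2, TV_3, TV_0, TV_m1] at h4
  all_goals first
    | omega
    | exact h3

/-- the components of an element of order -4 at `P` -/
theorem comps_P4 (D : Dat K) {u : K} (hu0 : u ≠ 0) (hu : D.Bd 1 u) (h : D.P.ord u = -4) :
    D.comp (-3) u = 0 ∧ D.comp 1 u = 0 ∧ D.comp (-2) u ≠ 0 := by
  have L := locP D
  have v1 := L.vanish hu0 hu (-3) (by norm_num) (by norm_num) (by rw [TV_m3]; omega)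
  have v2 := L.vanish hu0 hu 1 (by norm_num) (by norm_num) (by rw [TV_1]; omega)
  rw [one_mul] at v1 v2
  obtain ⟨j, h1, h2, h3, h4⟩ := L.exists_ord hu0 hu
  rw [one_mul] at h3
  refine ⟨v1, v2, ?_⟩
  rw [h] at h4
  rcases j7 j h1 h2 with rfl | rfl | rfl | rfl | rfl | rfl | rfl <;>
  simp only [TV_m3, TV_1, TV_m2, TV_2, TV_3, TV_0, TV_m1] at h4
  all_goals first
    | omega
    | exact h3

/-- the components of an element of order -3 at `P` -/
theorem comps_P3 (D : Dat K) {u : K} (hu0 : u ≠ 0) (hu : D.Bd 1 u) (h : D.P.ord u = -3) :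
    D.comp (-3) u = 0 ∧ D.comp 1 u = 0 ∧ D.comp (-2) u = 0 := by
  have L := locP D
  have v1 := L.vanish hu0 hu (-3) (by norm_num) (by norm_num) (by rw [TV_m3]; omega)
  have v2 := L.vanish hu0 hu 1 (by norm_num) (by norm_num) (by rw [TV_1]; omega)
  have v3 := L.vanish hu0 hu (-2) (by norm_num) (by norm_num) (by rw [TV_m2]; omega)
  rw [one_mul] at v1 v2 v3
  exact ⟨v1, v2, v3⟩

/-- the components of an element of order -1 at `Q` -/
theorem comps_Q1 (D : Dat K) {u : K} (hu0 : u ≠ 0) (hu : D.Bd 1 u) (h : D.Q.ord u = -1) :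
    D.comp 3 u = 0 ∧ D.comp (-1) u = 0 ∧ D.comp 2 u = 0 ∧ D.comp (-2) u = 0 ∧
      D.comp (-3) u ≠ 0 := by
  have L := locQ D
  have v1 := L.vanish hu0 hu (-3) (by norm_num) (by norm_num) (by rw [TV_m3]; omega)
  have v2 := L.vanish hu0 hu 1 (by norm_num) (by norm_num) (by rw [TV_1]; omega)
  have v3 := L.vanish hu0 hu (-2) (by norm_num) (by norm_num) (by rw [TV_m2]; omega)
  have v4 := L.vanish hu0 hu 2 (by norm_num) (by norm_num) (by rw [TV_2]; omega)
  rw [show (-1 : ℤ) * (-3) = 3 by norm_num] at v1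
  rw [show (-1 : ℤ) * 1 = -1 by norm_num] at v2
  rw [show (-1 : ℤ) * (-2) = 2 by norm_num] at v3
  rw [show (-1 : ℤ) * 2 = -2 by norm_num] at v4
  obtain ⟨j, h1, h2, h3, h4⟩ := L.exists_ord hu0 hu
  refine ⟨v1, v2, v3, v4, ?_⟩
  rw [h] at h4
  rcases j7 j h1 h2 with rfl | rfl | rfl | rfl | rfl | rfl | rfl <;>
  simp only [TV_m3, TV_1, TV_m2, TV_2, TV_3, TV_0, TV_m1] at h4
  all_goals first
    | omega
    | exact h3

/-- the components of an element of order 0 at `Q` -/
theorem comps_Q0 (D : Dat K) {u : K} (hu0 : u ≠ 0) (hu : D.Bd 1 u) (h : D.Q.ord u = 0) :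
    D.comp 3 u = 0 ∧ D.comp (-1) u = 0 ∧ D.comp 2 u = 0 ∧ D.comp (-2) u = 0 ∧
      D.comp (-3) u = 0 ∧ D.comp 0 u ≠ 0 := by
  have L := locQ D
  have v1 := L.vanish hu0 hu (-3) (by norm_num) (by norm_num) (by rw [TV_m3]; omega)
  have v2 := L.vanish hu0 hu 1 (by norm_num) (by norm_num) (by rw [TV_1]; omega)
  have v3 := L.vanish hu0 hu (-2) (by norm_num) (by norm_num) (by rw [TV_m2]; omega)
  have v4 := L.vanish hu0 hu 2 (by norm_num) (by norm_num) (by rw [TV_2]; omega)
  have v5 := L.vanish hu0 hu 3 (by norm_num) (by norm_num) (by rw [TV_3]; omega)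
  rw [show (-1 : ℤ) * (-3) = 3 by norm_num] at v1
  rw [show (-1 : ℤ) * 1 = -1 by norm_num] at v2
  rw [show (-1 : ℤ) * (-2) = 2 by norm_num] at v3
  rw [show (-1 : ℤ) * 2 = -2 by norm_num] at v4
  rw [show (-1 : ℤ) * 3 = -3 by norm_num] at v5
  obtain ⟨j, h1, h2, h3, h4⟩ := L.exists_ord hu0 hu
  refine ⟨v1, v2, v3, v4, v5, ?_⟩
  rw [h] at h4
  rcases j7 j h1 h2 with rfl | rfl | rfl | rfl | rfl | rfl | rfl <;>
  simp only [TV_m3, TV_1, TV_m2, TV_2, TV_3, TV_0, TV_m1] at h4
  all_goals first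
    | omega
    | simpa using h3

theorem O_smul {D : Pre K} {x : K} {p q : ℤ} (c : ℂ) (h : D.O x p q) : D.O (c • x) p q := by
  by_cases hc : c = 0
  · left; rw [hc, zero_smul]
  rcases h with rfl | ⟨h0, h1, h2⟩
  · left; rw [smul_zero]
  · right
    refine ⟨smul_ne_zero hc h0, ?_, ?_⟩
    · rw [ord_smul' _ hc, h1]
    · rw [ord_smul' _ hc, h2]

theorem dom5 {v : Point K} {x a b c d e : K} (h : x = a + b - c - d - e) (h1 : v.val a < v.val x)
    (h2 : v.val b < v.val x) (h3 : v.val c < v.val x) (h4 : v.val d < v.val x)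
    (h5 : v.val e < v.val x) : False := by
  have := Valuation.map_sub_lt v.val (Valuation.map_sub_lt v.val (Valuation.map_sub_lt v.val
    (Valuation.map_add_lt v.val h1 h2) h3) h4) h5
  rw [← h] at this
  exact lt_irrefl _ this

/-- the normalised case -/
theorem gon_aux (D : Dat K) (f : K) (q : ℂ) (U : Submodule ℂ K) (hf : Transcendental ℂ f)
    (hfin : FiniteDimensional ℂ U) (h4 : 4 ≤ Module.finrank ℂ U)
    (hU : ∀ u ∈ U, D.Bd 1 u ∧ D.Bd 1 (f * u)) (hP : 1 ≤ D.P.ord f)
    (hQ : D.Q.val (f - algebraMap ℂ K q) < 1) : False := by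
  have hf0 : f ≠ 0 := ne_zero_of_transcendental hf
  have hfq : f - algebraMap ℂ K q ≠ 0 := by
    intro h
    apply hf
    rw [sub_eq_zero.1 h]
    exact isAlgebraic_algebraMap q
  have hQ1 : 1 ≤ D.Q.ord (f - algebraMap ℂ K q) := by
    rw [Point.val_lt_one_iff _ hfq] at hQ
    omega
  have hU' : ∀ u ∈ U, D.Bd 1 u ∧ D.Bd 1 ((f - algebraMap ℂ K q) * u) := by
    intro u hu
    refine ⟨(hU u hu).1, ?_⟩
    have : (f - algebraMap ℂ K q) * u = f * u + (-q) • u := by
      rw [Algebra.smul_def, map_neg]; ring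
    rw [this]
    exact Bd_add D.toPre (hU u hu).2 (Bd_smul D.toPre _ (hU u hu).1)
  obtain ⟨u, huU, hu0, hu1, hu2⟩ := (locP D).one hfin h4 hU hf0 hP
  obtain ⟨u', huU', hu0', hu1', hu2'⟩ := (locQ D).one hfin h4 hU' hfq hQ1
  obtain ⟨s, hsU, hs0, hs1, hs2, hs3⟩ := (locP D).four hfin h4 hU hf0 hP
  rw [one_mul] at hs3
  set y := f * u with hy
  set y' := (f - algebraMap ℂ K q) * u' with hy'
  set r := f * s with hr
  have hy0 : y ≠ 0 := mul_ne_zero hf0 hu0
  have hy0' : y' ≠ 0 := mul_ne_zero hfq hu0'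
  have hr0 : r ≠ 0 := mul_ne_zero hf0 hs0
  obtain ⟨x1, x2, x3, x4, x5⟩ := comps_P1 D hu0 (hU u huU).1 hu1
  obtain ⟨y1, y2, y3, y4, y5, y6⟩ := comps_P0 D hy0 (hU u huU).2 hu2
  obtain ⟨a1, a2, a3, a4, a5⟩ := comps_Q1 D hu0' (hU' u' huU').1 hu1'
  obtain ⟨b1, b2, b3, b4, b5, b6⟩ := comps_Q0 D hy0' (hU' u' huU').2 hu2'
  obtain ⟨s1, s2, s3⟩ := comps_P4 D hs0 (hU s hsU).1 hs1
  obtain ⟨r1, r2, r3⟩ := comps_P3 D hr0 (hU s hsU).2 hs2
  have dx := decomp s_comp D.toPre u
  have dy := decomp s_comp D.toPre y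
  have da := decomp s_comp D.toPre u'
  have db := decomp s_comp D.toPre y'
  have ds := decomp s_comp D.toPre s
  have dr := decomp s_comp D.toPre r
  rw [x1, x2, x3, x4] at dx
  rw [y1, y2, y3, y4, y5] at dy
  rw [a1, a2, a3, a4] at da
  rw [b1, b2, b3, b4, b5] at db
  rw [s1, s2, hs3] at ds
  rw [r1, r2, r3] at dr
  have X3 := VT_comp s_comp D (hU u huU).1 3
  have X0 := VT_comp s_comp D (hU u huU).1 0
  have Xm := VT_comp s_comp D (hU u huU).1 (-1)
  have Y0 := VT_comp s_comp D (hU u huU).2 0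
  have Ym := VT_comp s_comp D (hU u huU).2 (-1)
  have A3 := VT_comp s_comp D (hU' u' huU').1 (-3)
  have A0 := VT_comp s_comp D (hU' u' huU').1 0
  have A1 := VT_comp s_comp D (hU' u' huU').1 1
  have B0 := VT_comp s_comp D (hU' u' huU').2 0
  have B1 := VT_comp s_comp D (hU' u' huU').2 1
  have S2 := VT_comp s_comp D (hU s hsU).1 (-2)
  have S2' := VT_comp s_comp D (hU s hsU).1 2
  have S0 := VT_comp s_comp D (hU s hsU).1 0
  have Sm := VT_comp s_comp D (hU s hsU).1 (-1)
  have R2 := VT_comp s_comp D (hU s hsU).2 2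
  have R3 := VT_comp s_comp D (hU s hsU).2 3
  have R0 := VT_comp s_comp D (hU s hsU).2 0
  have Rm := VT_comp s_comp D (hU s hsU).2 (-1)
  have key1 : u' * y = u * (y' + algebraMap ℂ K q * u') := by rw [hy, hy']; ring
  have key2 : s * y = u * r := by rw [hy, hr]; ring
  rw [← hy] at Y0 Ym
  rw [← hy'] at B0 B1
  rw [← hr] at R2 R3 R0 Rm
  set c3 := D.comp 3 u
  set c0 := D.comp 0 u
  set cm := D.comp (-1) u
  set e0 := D.comp 0 y
  set em := D.comp (-1) y
  set p3 := D.comp (-3) u'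
  set p0 := D.comp 0 u'
  set p1 := D.comp 1 u'
  set g0 := D.comp 0 y'
  set g1 := D.comp 1 y'
  set k2 := D.comp (-2) s
  set l2 := D.comp 2 s
  set l0 := D.comp 0 s
  set lm := D.comp (-1) s
  set m2 := D.comp 2 r
  set m3 := D.comp 3 r
  set m0 := D.comp 0 r
  set mm := D.comp (-1) r
  set Q := algebraMap ℂ K q with hQdef
  have k1' : (p3 + p0 + p1) * (e0 + em) = (c3 + c0 + cm) * (g0 + g1 + Q * (p3 + p0 + p1)) := by
    have t1 : u = c3 + c0 + cm := by conv_lhs => rw [dx]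
                                     ring
    have t2 : y = e0 + em := by conv_lhs => rw [dy]
                                ring
    have t3 : u' = p3 + p0 + p1 := by conv_lhs => rw [da]
                                      ring
    have t4 : y' = g0 + g1 := by conv_lhs => rw [db]
                                 ring
    rw [← t1, ← t2, ← t3, ← t4]
    exact key1
  have hQw : D.Wt 0 Q := by
    unfold Pre.Wt
    rw [hQdef, AlgEquiv.commutes, zpow_zero, one_smul]
  have W : ∀ {j k l : ℤ} {a b : K}, D.VT j a → D.VT k b → (7 : ℤ) ∣ j + k - l → D.Wt l (a * b) :=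
    fun ha hb h => (ha.wt.mul hb.wt).congr h
  have WQ : ∀ {j k l : ℤ} {a b : K}, D.VT j a → D.VT k b → (7 : ℤ) ∣ j + k - l →
      D.Wt l (Q * (a * b)) := fun ha hb h =>
    (hQw.mul (ha.wt.mul hb.wt)).congr (by simpa using h)
  obtain ⟨E0, -, -, E3, -, -, -⟩ := split7 s_comp D.toPre
    (e0 := p0 * e0 + p1 * em - c0 * g0 - cm * g1 - Q * (c3 * p3) - Q * (c0 * p0) - Q * (cm * p1))
    (e1 := p1 * e0 - c0 * g1 - Q * (c0 * p1))
    (e2 := 0)
    (e3 := p3 * em - c3 * g0 - Q * (c3 * p0) - Q * (cm * p3))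
    (f1 := p0 * em - cm * g0 - Q * (cm * p0))
    (f2 := 0)
    (f3 := p3 * e0 - c3 * g1 - Q * (c0 * p3) - Q * (c3 * p1))
    ((((((W A0 Y0 (by decide)).add (W A1 Ym (by decide))).sub (W X0 B0 (by decide))).sub
      (W Xm B1 (by decide))).sub (WQ X3 A3 (by decide))).sub (WQ X0 A0 (by decide)) |>.sub
      (WQ Xm A1 (by decide)))
    (((W A1 Y0 (by decide)).sub (W X0 B1 (by decide))).sub (WQ X0 A1 (by decide)))
    (by unfold Pre.Wt; simp)
    ((((W A3 Ym (by decide)).sub (W X3 B0 (by decide))).sub (WQ X3 A0 (by decide))).sub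
      (WQ Xm A3 (by decide)))
    (((W A0 Ym (by decide)).sub (W Xm B0 (by decide))).sub (WQ Xm A0 (by decide)))
    (by unfold Pre.Wt; simp)
    ((((W A3 Y0 (by decide)).sub (W X3 B1 (by decide))).sub (WQ X0 A3 (by decide))).sub
      (WQ X3 A1 (by decide)))
    (by linear_combination k1')
  have oc3 := X3.oj s_V (by simp)
  have oc0 := X0.o0 s_V
  have ocm := Xm.om s_V
  have oe0 := Y0.o0 s_V
  have oem := Ym.om s_V
  have op3 := A3.oj s_V (by simp)
  have op0 := A0.o0 s_V
  have op1 := A1.o1 s_V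
  have og0 := B0.o0 s_V
  have og1 := B1.o1 s_V
  have hq0 : q = 0 := by
    by_contra hq
    have hne : q • (c3 * p3) ≠ 0 := smul_ne_zero hq (mul_ne_zero x5 a5)
    have o1 := O_smul q (oc3.mul op3)
    have eq : q • (c3 * p3) = (p0 * e0 + p1 * em) - c0 * g0 - (cm * g1 + q • (c0 * p0)) -
        q • (cm * p1) := by
      rw [Algebra.smul_def, Algebra.smul_def, Algebra.smul_def]
      linear_combination -E0
    have lt : ∀ {x : K}, D.O x 0 0 → D.P.val x < D.P.val (q • (c3 * p3)) := fun hx =>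
      o1.ltP hne hx (by decide)
    have h1 := lt (op0.mul oe0)
    have h2 := lt (op1.mul oem)
    have h3 := lt (oc0.mul og0)
    have h4 := lt (ocm.mul og1)
    have h5 := lt (O_smul q (oc0.mul op0))
    have h6 := lt (O_smul q (ocm.mul op1))
    have := Valuation.map_sub_lt D.P.val (Valuation.map_sub_lt D.P.val
      (Valuation.map_sub_lt D.P.val (Valuation.map_add_lt D.P.val h1 h2) h3)
      (Valuation.map_add_lt D.P.val h4 h5)) h6
    rw [← eq] at this
    exact lt_irrefl _ this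
  have hQ0 : Q = 0 := by rw [hQdef, hq0, map_zero]
  have hem : em ≠ 0 := by
    intro h
    rw [hQ0, h] at E3
    have : c3 * g0 = 0 := by linear_combination -E3
    rcases mul_eq_zero.1 this with h1 | h1
    · exact x5 h1
    · exact b6 h1
  have k2' : (k2 + l2 + l0 + lm) * (e0 + em) = (c3 + c0 + cm) * (m2 + m3 + m0 + mm) := by
    have t1 : u = c3 + c0 + cm := by conv_lhs => rw [dx]
                                     ring
    have t2 : y = e0 + em := by conv_lhs => rw [dy]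
                                ring
    have t3 : s = k2 + l2 + l0 + lm := by conv_lhs => rw [ds]
                                          ring
    have t4 : r = m2 + m3 + m0 + mm := by conv_lhs => rw [dr]
                                          ring
    rw [← t1, ← t2, ← t3, ← t4]
    exact key2
  obtain ⟨-, -, -, -, -, -, G3⟩ := split7 s_comp D.toPre
    (e0 := l0 * e0 - c0 * m0)
    (e1 := l2 * em - cm * m2)
    (e2 := l2 * e0 - c3 * mm - c0 * m2 - cm * m3)
    (e3 := -(c3 * m0) - c0 * m3)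
    (f1 := l0 * em + lm * e0 - c3 * m3 - c0 * mm - cm * m0)
    (f2 := k2 * e0 + lm * em - c3 * m2 - cm * mm)
    (f3 := k2 * em)
    ((W S0 Y0 (by decide)).sub (W X0 R0 (by decide)))
    ((W S2' Ym (by decide)).sub (W Xm R2 (by decide)))
    ((((W S2' Y0 (by decide)).sub (W X3 Rm (by decide))).sub (W X0 R2 (by decide))).sub
      (W Xm R3 (by decide)))
    ((W X3 R0 (by decide)).neg.sub (W X0 R3 (by decide)))
    (((((W S0 Ym (by decide)).add (W Sm Y0 (by decide))).sub (W X3 R3 (by decide))).sub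
      (W X0 Rm (by decide))).sub (W Xm R0 (by decide)))
    ((((W S2 Y0 (by decide)).add (W Sm Ym (by decide))).sub (W X3 R2 (by decide))).sub
      (W Xm Rm (by decide)))
    (W S2 Ym (by decide))
    (by linear_combination k2')
  exact mul_ne_zero s3 hem G3

theorem s_gonW : S_gonW := by
  intro K _ _ D f U hf hfin h4 hU
  have hK := D.curve
  -- the values at P and Q
  have res : ∀ v : Point K, ∃ a : ℂ, ∀ c : ℂ, c ≠ a → 1 ≤ v.val (f - algebraMap ℂ K c) := by
    intro v
    by_cases h : v.val f ≤ 1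
    · obtain ⟨a, ha⟩ := exists_residue hK hf v h
      refine ⟨a, fun c hc => ?_⟩
      by_contra hlt
      rw [not_le] at hlt
      have h1 := Valuation.map_sub_lt v.val ha hlt
      have h2 : f - algebraMap ℂ K a - (f - algebraMap ℂ K c) = algebraMap ℂ K (c - a) := by
        rw [map_sub]; ring
      rw [h2, v.const _ (sub_ne_zero.2 hc)] at h1
      exact lt_irrefl _ h1
    · refine ⟨0, fun c _ => ?_⟩
      by_contra hlt
      rw [not_le] at hlt
      apply h
      have h1 : f = (f - algebraMap ℂ K c) + algebraMap ℂ K c := by ring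
      rw [h1]
      exact Valuation.map_add_le _ hlt.le (v.const_le c)
  obtain ⟨aP, hP⟩ := res D.P
  obtain ⟨aQ, hQ⟩ := res D.Q
  obtain ⟨c, hc⟩ := Infinite.exists_notMem_finset ({aP, aQ} : Finset ℂ)
  simp only [Finset.mem_insert, Finset.mem_singleton, not_or] at hc
  have hPc := hP c hc.1
  have hQc := hQ c hc.2
  have hfc : f - algebraMap ℂ K c ≠ 0 := by
    intro h
    apply hf
    rw [sub_eq_zero.1 h]
    exact isAlgebraic_algebraMap c
  have hft : Transcendental ℂ (f - algebraMap ℂ K c) := by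
    intro h
    apply hf
    have : f = (f - algebraMap ℂ K c) + algebraMap ℂ K c := by ring
    rw [this]
    exact h.add (isAlgebraic_algebraMap c)
  have hgt : Transcendental ℂ (f - algebraMap ℂ K c)⁻¹ := transcendental_inv hft
  have hgP : D.P.val (f - algebraMap ℂ K c)⁻¹ ≤ 1 := by
    rw [map_inv₀]; exact inv_le_one_of_one_le₀ hPc
  have hgQ : D.Q.val (f - algebraMap ℂ K c)⁻¹ ≤ 1 := by
    rw [map_inv₀]; exact inv_le_one_of_one_le₀ hQc
  obtain ⟨r, hr⟩ := exists_residue hK hgt D.P hgP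
  set f' := (f - algebraMap ℂ K c)⁻¹ - algebraMap ℂ K r with hf'
  have hft' : Transcendental ℂ f' := by
    intro h
    apply hgt
    have : (f - algebraMap ℂ K c)⁻¹ = f' + algebraMap ℂ K r := by rw [hf']; ring
    rw [this]
    exact h.add (isAlgebraic_algebraMap r)
  have hfQ : D.Q.val f' ≤ 1 := by
    rw [hf']
    exact Valuation.map_sub_le _ hgQ (Point.const_le _ r)
  obtain ⟨q, hq⟩ := exists_residue hK hft' D.Q hfQ
  have hP1 : 1 ≤ D.P.ord f' := by
    rw [Point.val_lt_one_iff _ (ne_zero_of_transcendental hft')] at hr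
    omega
  -- the new space
  have hinj : Function.Injective (LinearMap.mulLeft ℂ (f - algebraMap ℂ K c)) := by
    intro x y h
    exact mul_left_cancel₀ hfc h
  set U' := U.map (LinearMap.mulLeft ℂ (f - algebraMap ℂ K c)) with hU'def
  have hfin' : FiniteDimensional ℂ U' := inferInstance
  have hrank : Module.finrank ℂ U' = Module.finrank ℂ U :=
    (LinearEquiv.finrank_eq (Submodule.equivMapOfInjective _ hinj U)).symm
  refine gon_aux D f' q U' hft' hfin' (by rw [hrank]; exact h4) ?_ hP1 hq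
  rintro _ ⟨x, hx, rfl⟩
  have e1 : (LinearMap.mulLeft ℂ (f - algebraMap ℂ K c)) x = f * x + (-c) • x := by
    rw [LinearMap.mulLeft_apply, Algebra.smul_def, map_neg]; ring
  have b1 : D.Bd 1 ((LinearMap.mulLeft ℂ (f - algebraMap ℂ K c)) x) := by
    rw [e1]
    exact Bd_add D.toPre (hU x hx).2 (Bd_smul D.toPre _ (hU x hx).1)
  refine ⟨b1, ?_⟩
  have e2 : f' * (LinearMap.mulLeft ℂ (f - algebraMap ℂ K c)) x =
      x + (-r) • ((LinearMap.mulLeft ℂ (f - algebraMap ℂ K c)) x) := by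
    rw [hf', LinearMap.mulLeft_apply, Algebra.smul_def, map_neg]
    field_simp
    ring
  rw [e2]
  exact Bd_add D.toPre (hU x hx).1 (Bd_smul D.toPre _ b1)

end Pool.Agent.W518.EG
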