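import Pool.Agent.W518.EG.Final
import Pool.Agent.W518.SMR.Odd

/-!
# Project EG (MP_4f5420_ag): EG-RR
-/

set_option autoImplicit false

open scoped WithZero Matrix
open IntermediateField
open Pool.Agent.Helper395.CS hiding genus
open Pool.Agent.Helper395.BC
open Pool.Agent.W518.SMR (lpole lpole_val two_le_h0_lpole)

namespace Pool.Agent.W518.EG

variable {K : Type} [Field K] [Algebra ℂ K]

theorem lpole_degree (hK : IsCurve K) (f : Kˣ) : (lpole hK f).degree = degP (f : K) := by
  unfold LineBundle.degree degP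
  refine finsum_congr fun v => ?_
  have h1 := lpole_val hK f v
  have h2 : v.val (f : K) = WithZero.exp (-v.ord (f : K)) := v.val_eq_exp f.ne_zero
  have h3 : v.val ((lpole hK f).frame v : K) =
      WithZero.exp (-v.ord ((lpole hK f).frame v : K)) := v.val_eq_exp (Units.ne_zero _)
  rw [h2, h3] at h1
  rcases le_total (v.ord (f : K)) 0 with h | h
  · have h4 : (1 : ℤᵐ⁰) ≤ WithZero.exp (-v.ord (f : K)) := by
      rw [← WithZero.exp_zero, WithZero.exp_le_exp]; omega
    rw [max_eq_right h4] at h1
    have h5 := WithZero.exp_injective h1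
    omega
  · have h4 : WithZero.exp (-v.ord (f : K)) ≤ (1 : ℤᵐ⁰) := by
      rw [← WithZero.exp_zero, WithZero.exp_le_exp]; omega
    rw [max_eq_left h4, ← WithZero.exp_zero] at h1
    have h5 := WithZero.exp_injective h1
    omega

theorem s_RR : S_RR := by
  intro K _ _ hK hg L hdeg h7 f hf hdegP
  have hg0 : genus K ≠ 0 := by omega
  have hf0 : f ≠ 0 := ne_zero_of_transcendental hf
  set fu : Kˣ := Units.mk0 f hf0 with hfu
  set P := lpole hK fu with hP
  have hPdeg : P.degree ≤ 4 := by
    rw [hP, lpole_degree]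
    exact hdegP
  have h2 : 2 ≤ Module.finrank ℂ (H0 P) := two_le_h0_lpole hK hg0 fu (by
    intro c hc
    apply hf
    have : f = algebraMap ℂ K c := hc
    rw [this]
    exact isAlgebraic_algebraMap c)
  -- a section of `K ⊗ L⁻¹`
  obtain ⟨hfinL, hrL⟩ := rrL hK hg0 L
  rw [h7, hdeg, hg] at hrL
  have h1 : Module.finrank ℂ (H0 (lmul (can hK hg0) (linv L))) = 1 := by
    push_cast at hrL
    omega
  have hpos : 0 < Module.finrank ℂ (H0 (lmul (can hK hg0) (linv L))) := by omega
  have := Module.nontrivial_of_finrank_pos hpos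
  obtain ⟨⟨g, hg'⟩, hgne⟩ := exists_ne (0 : H0 (lmul (can hK hg0) (linv L)))
  have hg0' : g ≠ 0 := fun h => hgne (Subtype.ext h)
  set M := lmul L (linv P) with hM
  obtain ⟨hfinM, hrM⟩ := rrL hK hg0 M
  -- multiplication by `g` embeds `H0 P` into `H0 (K ⊗ M⁻¹)`
  have hmap : ∀ s ∈ H0 P, g * s ∈ H0 (lmul (can hK hg0) (linv M)) := by
    intro s hs v
    have e1 := hg' v
    rw [mem_lmul_linv] at e1
    have e2 : v.val s ≤ v.val (P.frame v : K) := hs v
    rw [mem_lmul_linv]
    change v.val (g * (L.frame v : K)) ≤ v.val ((can hK hg0).frame v : K) at e1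
    change v.val (g * s * ((lmul L (linv P)).frame v : K)) ≤ v.val ((can hK hg0).frame v : K)
    have e3 : ((lmul L (linv P)).frame v : K) = (L.frame v : K) * (P.frame v : K)⁻¹ := by
      change ((L.frame v * (P.frame v)⁻¹ : Kˣ) : K) = _
      rw [Units.val_mul, Units.val_inv_eq_inv_val]
    rw [e3, map_mul, map_mul, map_mul, map_inv₀]
    rw [map_mul] at e1
    have hp : 0 < v.val (P.frame v : K) := frame_pos P v
    calc v.val g * v.val s * (v.val (L.frame v : K) * (v.val (P.frame v : K))⁻¹) =
          (v.val g * v.val (L.frame v : K)) * (v.val s * (v.val (P.frame v : K))⁻¹) := by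
          simp only [mul_comm, mul_left_comm, mul_assoc]
      _ ≤ (v.val g * v.val (L.frame v : K)) * 1 := by
          refine mul_le_mul_right ?_ _
          rw [← div_eq_mul_inv]
          exact (div_le_one₀ hp).2 e2
      _ ≤ v.val ((can hK hg0).frame v : K) := by rw [mul_one]; exact e1
  have hfin2 := H0_fin hK (lmul (can hK hg0) (linv M))
  have hle : Module.finrank ℂ (H0 P) ≤ Module.finrank ℂ (H0 (lmul (can hK hg0) (linv M))) := by
    have hle' : (H0 P).map (LinearMap.mulLeft ℂ g) ≤ H0 (lmul (can hK hg0) (linv M)) := by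
      rintro _ ⟨s, hs, rfl⟩
      exact hmap s hs
    have hinj : Function.Injective (LinearMap.mulLeft ℂ g) := by
      intro x y h
      exact mul_left_cancel₀ hg0' h
    have h3 := Submodule.finrank_mono hle'
    have hfP := H0_fin hK P
    have h4 : Module.finrank ℂ ((H0 P).map (LinearMap.mulLeft ℂ g)) = Module.finrank ℂ (H0 P) :=
      (LinearEquiv.finrank_eq (Submodule.equivMapOfInjective _ hinj (H0 P))).symm
    omega
  have hMdeg : M.degree = 12 - P.degree := by
    rw [hM, lmul_degree, linv_degree, hdeg]; ring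
  rw [hMdeg, hg] at hrM
  refine ⟨H0 M, hfinM, by push_cast at hrM; omega, ?_⟩
  intro u hu
  have hv : ∀ v : Point K, v.val u * max 1 (v.val f) ≤ v.val (L.frame v : K) := by
    intro v
    have := hu v
    rw [hM, mem_lmul_linv] at this
    change v.val (u * (P.frame v : K)) ≤ v.val (L.frame v : K) at this
    rw [map_mul, hP, lpole_val] at this
    exact this
  constructor
  · intro v
    change v.val u ≤ v.val (L.frame v : K)
    refine le_trans ?_ (hv v)
    calc v.val u = v.val u * 1 := (mul_one _).symm
      _ ≤ v.val u * max 1 (v.val f) := mul_le_mul_right (le_max_left _ _) _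
  · intro v
    change v.val (f * u) ≤ v.val (L.frame v : K)
    refine le_trans ?_ (hv v)
    rw [map_mul, mul_comm]
    exact mul_le_mul_right (le_max_right _ _) _

end Pool.Agent.W518.EG
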