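import Pool.Agent.W518.EG.Final2
import Pool.Agent.W518.EG.TGon2
import Pool.Agent.W518.EG.TRR
import Pool.Agent.W518.EG.TDims
import Pool.Agent.W518.EG.MNR
import Pool.Agent.W518.EG.MLow
import Pool.Agent.W839.EG.Ex

/-!
# Project EG (MP_4f5420_ag): everything except EG-M
-/

set_option autoImplicit false

open Pool.Agent.Helper395.CS hiding genus
open Pool.Agent.Helper395.BC

namespace Pool.Agent.W518.EG

theorem final3 (hM : S_M) :
    ∃ (K : Type) (_ : Field K) (_ : Algebra ℂ K) (η : LineBundle K)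
      (K' : Type) (_ : Field K') (_ : Algebra ℂ K') (_ : Algebra K K'),
      IsCurve K ∧ genus K = 7 ∧ gonality K = 5 ∧
      (lmul η η).Iso (one K) ∧ ¬ η.Iso (one K) ∧ IsEtaleDoubleCover η K' ∧
      gonality K' ≤ 7 ∧ ¬ InDifference η 3 :=
  final s_comp s_two s_V s_W s_flag s_caseA s_gonW s_RR s_F s_dims s_GEN
    Pool.Agent.W839.EG.Ex.s_EX s_5 s_PQ s_NR s_low s_Tw hM

end Pool.Agent.W518.EG
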