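import Pool.Agent.W518.EG.TF

/-!
# Project EG (MP_4f5420_ag): EG-5 and basic facts on the model
-/

set_option autoImplicit false

open scoped WithZero Matrix Polynomial
open IntermediateField
open Pool.Agent.Helper395.CS hiding genus
open Pool.Agent.Helper395.BC

namespace Pool.Agent.W518.EG

variable {K : Type} [Field K] [Algebra ℂ K]

/-- `81 (t ^ 7 + t ^ (-7) + 2) = (z + 2) (2 z ^ 2 - 5 z + 11) ^ 2` and `t ≠ 0` -/
theorem Mod.t_ne (M : Mod K) : M.t ≠ 0 := by
  intro h
  have h1 := M.t_pow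
  rw [h] at h1
  have h2 : (162 : K) = 0 := by
    have h3 := congrArg M.ι h1
    simp only [map_mul, map_add, map_sub, map_pow, map_one, M.iota_z, M.iota_W, map_ofNat,
      map_zero] at h3
    have h0 : (0 : K) ^ 7 = 0 := by norm_num
    rw [h0] at h1 h3
    have hA : (M.z + 2) * (2 * M.z ^ 2 - 5 * M.z + 11) ^ 2 = 162 := by
      have hchar : (2 : K) ≠ 0 := by
        have h10 : CharZero K := charZero_of_injective_algebraMap (algebraMap ℂ K).injective
        exact two_ne_zero
      have : (2 : K) * ((M.z + 2) * (2 * M.z ^ 2 - 5 * M.z + 11) ^ 2 - 162) = 0 := by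
        linear_combination -h1 - h3
      have := (mul_eq_zero.1 this).resolve_left hchar
      linear_combination this
    have hB : (2 * M.z ^ 2 - 5 * M.z + 11) * (M.z + 1) * M.W = 0 := by
      rw [hA] at h1
      linear_combination -h1
    have hsq : ((2 * M.z ^ 2 - 5 * M.z + 11) * (M.z + 1) * M.W) ^ 2 = 0 := by rw [hB]; ring
    have h5 := M.W_sq
    have h6 : (2 * M.z ^ 2 - 5 * M.z + 11) ^ 2 * (M.z + 1) ^ 2 *
        ((M.z ^ 2 - 4) * (4 * M.z ^ 2 - 12 * M.z + 41)) = 0 := by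
      rw [← h5]; linear_combination hsq
    have h7 : (2 * M.z ^ 2 - 5 * M.z + 11) ^ 2 * (M.z + 1) ^ 2 *
        ((M.z ^ 2 - 4) * (4 * M.z ^ 2 - 12 * M.z + 41)) =
        ((M.z + 2) * (2 * M.z ^ 2 - 5 * M.z + 11) ^ 2) *
        ((M.z + 2) * (2 * M.z ^ 2 - 5 * M.z + 11) ^ 2 - 324) := by ring
    rw [h7, hA] at h6
    have h8 : (162 : K) * 162 = 0 := by linear_combination -h6
    rcases mul_eq_zero.1 h8 with h9 | h9 <;> exact h9
  have h10 : CharZero K := charZero_of_injective_algebraMap (algebraMap ℂ K).injective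
  exact absurd h2 (by norm_num)

theorem Mod.rel (M : Mod K) : 81 * (M.t ^ 7 + (M.t⁻¹) ^ 7 + 2) =
    (M.z + 2) * (2 * M.z ^ 2 - 5 * M.z + 11) ^ 2 := by
  have h1 := M.t_pow
  have h3 := congrArg M.ι h1
  simp only [map_mul, map_add, map_sub, map_pow, M.iota_z, M.iota_W, map_ofNat, map_one,
    M.iota_t] at h3
  have hchar : (2 : K) ≠ 0 := by
    have h10 : CharZero K := charZero_of_injective_algebraMap (algebraMap ℂ K).injective
    exact two_ne_zero
  have : (2 : K) * (81 * (M.t ^ 7 + (M.t⁻¹) ^ 7 + 2) -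
      (M.z + 2) * (2 * M.z ^ 2 - 5 * M.z + 11) ^ 2) = 0 := by
    linear_combination h1 + h3
  have := (mul_eq_zero.1 this).resolve_left hchar
  linear_combination this

theorem finrank_le_of_root {F E : Type} [Field F] [Field E] [Algebra F E] {z : E} {P : F[X]}
    (hP : P ≠ 0) (hz : Polynomial.aeval z P = 0) (hgen : (F⟮z⟯ : IntermediateField F E) = ⊤) :
    Module.finrank F E ≤ P.natDegree := by
  have hint : IsIntegral F z := (show IsAlgebraic F z from ⟨P, hP, hz⟩).isIntegral
  have h1 := IntermediateField.adjoin.finrank hint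
  rw [hgen, IntermediateField.finrank_top'] at h1
  rw [h1]
  exact Polynomial.natDegree_le_of_dvd (minpoly.dvd F z hz) hP

/-- the polynomial `(X + 2) (2 X ^ 2 - 5 X + 11) ^ 2 - c` -/
noncomputable def pol5 {F : Type} [Field F] (c : F) : F[X] :=
  (Polynomial.X + Polynomial.C 2) * (Polynomial.C 2 * Polynomial.X ^ 2 -
    Polynomial.C 5 * Polynomial.X + Polynomial.C 11) ^ 2 - Polynomial.C c

theorem pol5_natDegree {F : Type} [Field F] [CharZero F] (c : F) : (pol5 c).natDegree = 5 := by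
  unfold pol5
  compute_degree!

theorem pol5_ne {F : Type} [Field F] [CharZero F] (c : F) : pol5 c ≠ 0 := by
  intro h
  have := pol5_natDegree c
  rw [h, Polynomial.natDegree_zero] at this
  omega

theorem pol5_aeval {F E : Type} [Field F] [Field E] [Algebra F E] (c : F) (z : E) :
    Polynomial.aeval z (pol5 c) = (z + 2) * (2 * z ^ 2 - 5 * z + 11) ^ 2 - algebraMap F E c := by
  unfold pol5
  simp only [map_sub, map_mul, map_add, map_pow, Polynomial.aeval_X, Polynomial.aeval_C,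
    map_ofNat]

theorem Mod.t_trans (M : Mod K) : Transcendental ℂ M.t := by
  by_contra h
  obtain ⟨c, hc⟩ := exists_const h
  apply M.trans
  refine ⟨pol5 (81 * (c ^ 7 + (c⁻¹) ^ 7 + 2)), pol5_ne _, ?_⟩
  rw [pol5_aeval, ← M.rel, hc]
  simp only [map_mul, map_add, map_pow, map_inv₀, map_ofNat]
  ring

theorem Mod.gen' (M : Mod K) : (ℂ⟮M.t⟯⟮M.z⟯ : IntermediateField ℂ⟮M.t⟯ K) = ⊤ := by
  apply IntermediateField.restrictScalars_injective ℂ
  rw [IntermediateField.adjoin_simple_adjoin_simple, IntermediateField.restrictScalars_top]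
  exact M.gen

theorem s_5 : S_5 := by
  intro K _ _ M
  refine ⟨M.t_trans, ?_⟩
  have hc : CharZero ℂ⟮M.t⟯ := charZero_of_injective_algebraMap (algebraMap ℂ ℂ⟮M.t⟯).injective
  set τ : ℂ⟮M.t⟯ := ⟨M.t, IntermediateField.mem_adjoin_simple_self ℂ M.t⟩ with hτ
  have h1 := finrank_le_of_root (pol5_ne (81 * (τ ^ 7 + (τ⁻¹) ^ 7 + 2))) (z := M.z) (by
    rw [pol5_aeval, ← M.rel]
    have h2 : algebraMap ℂ⟮M.t⟯ K τ = M.t := rfl
    simp only [map_mul, map_add, map_pow, map_inv₀, map_ofNat, h2]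
    ring) M.gen'
  rwa [pol5_natDegree] at h1

end Pool.Agent.W518.EG
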