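import Pool.Agent.W518.EG.M5

/-!
# Project EG (MP_4f5420_ag): EG-PQ
-/

set_option autoImplicit false

open scoped WithZero Matrix Polynomial
open IntermediateField
open Pool.Agent.Helper395.CS hiding genus
open Pool.Agent.Helper395.BC

namespace Pool.Agent.W518.EG

variable {K : Type} [Field K] [Algebra ℂ K]

theorem two_le_finsum {g : Point K → ℤ} (hg : (Function.support g).Finite) (h0 : ∀ v, 0 ≤ g v)
    {v w : Point K} (hvw : v ≠ w) : g v + g w ≤ ∑ᶠ x, g x := by
  classical
  have hsub : Function.support g ⊆ ((hg.toFinset ∪ {v, w} : Finset (Point K)) : Set (Point K)) := by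
    intro x hx
    simp only [Finset.coe_union, Set.Finite.coe_toFinset, Set.mem_union]
    exact Or.inl hx
  rw [finsum_eq_sum_of_support_subset _ hsub, ← Finset.sum_pair hvw]
  exact Finset.sum_le_sum_of_subset_of_nonneg Finset.subset_union_right fun x _ _ => h0 x

theorem one_le_finsum' {g : Point K → ℤ} (hg : (Function.support g).Finite) (h0 : ∀ v, 0 ≤ g v)
    (v : Point K) : g v ≤ ∑ᶠ x, g x := by
  classical
  have hsub : Function.support g ⊆ ((hg.toFinset ∪ {v} : Finset (Point K)) : Set (Point K)) := by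
    intro x hx
    simp only [Finset.coe_union, Set.Finite.coe_toFinset, Set.mem_union]
    exact Or.inl hx
  rw [finsum_eq_sum_of_support_subset _ hsub, ← Finset.sum_singleton g v]
  exact Finset.sum_le_sum_of_subset_of_nonneg Finset.subset_union_right fun x _ _ => h0 x

theorem supp_max' (hK : IsCurve K) (f : K) :
    (Function.support fun v : Point K => max (-v.ord f) 0).Finite := by
  refine (finite_ord hK f).subset fun v hv => ?_
  rw [Function.mem_support] at hv
  change v.ord f ≠ 0
  omega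

theorem supp_maxZ (hK : IsCurve K) (f : K) :
    (Function.support fun v : Point K => max (v.ord f) 0).Finite := by
  refine (finite_ord hK f).subset fun v hv => ?_
  rw [Function.mem_support] at hv
  change v.ord f ≠ 0
  omega

/-- `t ^ 7 + t ^ (-7)` at a point where `t` has order different from 0 -/
theorem ord_tt {v : Point K} {t : K} (ht : t ≠ 0) (h : v.ord t ≠ 0) :
    v.val (81 * (t ^ 7 + (t⁻¹) ^ 7 + 2)) = WithZero.exp (7 * |v.ord t|) := by
  have h81 : v.val (81 : K) = 1 := by
    have := v.const 81 (by norm_num)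
    rwa [map_ofNat] at this
  have h2 : v.val (2 : K) = 1 := by
    have := v.const 2 (by norm_num)
    rwa [map_ofNat] at this
  have e1 : v.val (t ^ 7) = WithZero.exp (-(7 * v.ord t)) := by
    rw [v.val_eq_exp (pow_ne_zero 7 ht), v.ord_pow]
    norm_num
  have e2 : v.val (t⁻¹ ^ 7) = WithZero.exp (7 * v.ord t) := by
    rw [v.val_eq_exp (pow_ne_zero 7 (inv_ne_zero ht)), v.ord_pow, v.ord_inv]
    norm_num
  rw [map_mul, h81, one_mul]
  rcases lt_or_gt_of_ne h with h3 | h3
  · have e3 : v.val (t⁻¹ ^ 7) < v.val (t ^ 7) := by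
      rw [e1, e2, WithZero.exp_lt_exp]; omega
    have e4 : v.val (t ^ 7 + t⁻¹ ^ 7) = v.val (t ^ 7) := Valuation.map_add_eq_of_lt_left _ e3
    have e5 : v.val (2 : K) < v.val (t ^ 7 + t⁻¹ ^ 7) := by
      rw [e4, e1, h2, ← WithZero.exp_zero, WithZero.exp_lt_exp]; omega
    rw [Valuation.map_add_eq_of_lt_left _ e5, e4, e1, abs_of_neg h3]
    congr 1; ring
  · have e3 : v.val (t ^ 7) < v.val (t⁻¹ ^ 7) := by
      rw [e1, e2, WithZero.exp_lt_exp]; omega
    have e4 : v.val (t ^ 7 + t⁻¹ ^ 7) = v.val (t⁻¹ ^ 7) := Valuation.map_add_eq_of_lt_right _ e3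
    have e5 : v.val (2 : K) < v.val (t ^ 7 + t⁻¹ ^ 7) := by
      rw [e4, e2, h2, ← WithZero.exp_zero, WithZero.exp_lt_exp]; omega
    rw [Valuation.map_add_eq_of_lt_left _ e5, e4, e2, abs_of_pos h3]

theorem Mod.ord_fin (M : Mod K) {v : Point K} (hv : v.val M.z ≤ 1) : v.ord M.t = 0 := by
  by_contra h
  have h1 := ord_tt M.t_ne h
  rw [M.rel] at h1
  have h2 := aeval_le hv (pol5 (0 : ℂ))
  rw [pol5_aeval, map_zero, sub_zero, h1, ← WithZero.exp_zero, WithZero.exp_le_exp] at h2
  have h3 := abs_pos.2 h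
  omega

theorem Mod.ord_inf (M : Mod K) {v : Point K} (hv : 1 < v.val M.z) :
    v.ord M.t ≠ 0 ∧ 7 * |v.ord M.t| = -(5 * v.ord M.z) := by
  have hz0 : M.z ≠ 0 := ne_zero_of_transcendental M.trans
  have h2 := val_aeval_inf hv (pol5 (0 : ℂ)) (pol5_ne _)
  rw [pol5_aeval, map_zero, sub_zero, pol5_natDegree] at h2
  have h3 : v.val M.z ^ 5 = WithZero.exp (-(5 * v.ord M.z)) := by
    rw [← map_pow, v.val_eq_exp (pow_ne_zero 5 hz0), v.ord_pow]
    norm_num
  have hlt : v.ord M.z < 0 := (v.one_lt_val_iff hz0).1 hv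
  have hne : v.ord M.t ≠ 0 := by
    intro h
    have h1 : v.val M.t = 1 := (v.val_eq_one_iff M.t_ne).2 h
    rw [← M.rel, h3] at h2
    have h4 : v.val (81 * (M.t ^ 7 + (M.t⁻¹) ^ 7 + 2)) ≤ 1 := by
      have h81 : v.val (81 : K) = 1 := by
        have := v.const 81 (by norm_num)
        rwa [map_ofNat] at this
      have h22 : v.val (2 : K) ≤ 1 := by
        have := v.const 2 (by norm_num)
        rw [map_ofNat] at this
        exact this.le
      rw [map_mul, h81, one_mul]
      refine Valuation.map_add_le _ (Valuation.map_add_le _ ?_ ?_) h22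
      · rw [map_pow, h1, one_pow]
      · rw [map_pow, map_inv₀, h1, inv_one, one_pow]
    rw [h2, ← WithZero.exp_zero, WithZero.exp_le_exp] at h4
    omega
  refine ⟨hne, ?_⟩
  have h1 := ord_tt M.t_ne hne
  rw [M.rel, h2, h3] at h1
  exact (WithZero.exp_injective h1).symm

theorem Mod.degP_t (M : Mod K) : 1 ≤ degP M.t ∧ degP M.t ≤ 5 := by
  have h1 := degZ_eq M.curve M.t_trans
  rw [degZ_eq_degP M.curve] at h1
  have h2 := (s_5 K M).2
  have h3 := M.curve.finiteDimensional M.t_trans
  have h4 : 0 < Module.finrank ℂ⟮M.t⟯ K := Module.finrank_pos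
  omega

theorem Mod.big (M : Mod K) {v : Point K} (h : v.ord M.t ≠ 0) :
    5 ≤ |v.ord M.t| ∧ 7 * |v.ord M.t| = -(5 * v.ord M.z) := by
  have h1 : 1 < v.val M.z := by
    by_contra hcon
    exact h (M.ord_fin (not_lt.1 hcon))
  have h2 := (M.ord_inf h1).2
  have h3 := abs_pos.2 h
  exact ⟨by omega, h2⟩

theorem s_PQ : S_PQ := by
  intro K _ _ M
  obtain ⟨hd1, hd5⟩ := M.degP_t
  -- a pole
  obtain ⟨P, hP⟩ : ∃ P : Point K, P.ord M.t < 0 := by
    by_contra hcon
    push Not at hcon
    have : degP M.t = 0 := by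
      rw [degP, finsum_eq_zero_of_forall_eq_zero]
      intro v
      have := hcon v
      omega
    omega
  have hz : degZ M.t = degP M.t := degZ_eq_degP M.curve M.t
  obtain ⟨Q, hQ⟩ : ∃ Q : Point K, 0 < Q.ord M.t := by
    by_contra hcon
    push Not at hcon
    have : degZ M.t = 0 := by
      rw [degZ, finsum_eq_zero_of_forall_eq_zero]
      intro v
      have := hcon v
      omega
    omega
  have hbP := M.big (v := P) (by omega)
  have hbQ := M.big (v := Q) (by omega)
  rw [abs_of_neg hP] at hbP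
  rw [abs_of_pos hQ] at hbQ
  have h1 := one_le_finsum' (supp_max' M.curve M.t) (fun v => le_max_right _ _) P
  have h2 := one_le_finsum' (supp_maxZ M.curve M.t) (fun v => le_max_right _ _) Q
  have e1 : ∑ᶠ x : Point K, max (-x.ord M.t) 0 = degP M.t := rfl
  have e2 : ∑ᶠ x : Point K, max (x.ord M.t) 0 = degZ M.t := rfl
  rw [e1] at h1
  rw [e2] at h2
  have oP : P.ord M.t = -5 := by omega
  have oQ : Q.ord M.t = 5 := by omega
  have zP : P.ord M.z = -7 := by omega
  have zQ : Q.ord M.z = -7 := by omega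
  have hPQ : P ≠ Q := by
    intro h
    rw [h] at oP
    omega
  have hoth : ∀ v, v ≠ P → v ≠ Q → v.ord M.t = 0 := by
    intro v hvP hvQ
    by_contra hne
    have hb := M.big hne
    rcases lt_or_gt_of_ne hne with h | h
    · rw [abs_of_neg h] at hb
      have := two_le_finsum (supp_max' M.curve M.t) (fun v => le_max_right _ _) hvP
      rw [e1] at this
      omega
    · rw [abs_of_pos h] at hb
      have := two_le_finsum (supp_maxZ M.curve M.t) (fun v => le_max_right _ _) hvQ
      rw [e2] at this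
      omega
  have hιP : P.comap M.ι = Q := by
    by_contra h
    have h1 : (P.comap M.ι).ord M.t = 5 := by
      rw [Point.comap_ord, M.iota_t, Point.ord_inv, oP]; rfl
    by_cases h2 : P.comap M.ι = P
    · rw [h2, oP] at h1; omega
    · rw [hoth _ h2 h] at h1; omega
  have hιQ : Q.comap M.ι = P := by
    by_contra h
    have h1 : (Q.comap M.ι).ord M.t = -5 := by
      rw [Point.comap_ord, M.iota_t, Point.ord_inv, oQ]
    by_cases h2 : Q.comap M.ι = Q
    · rw [h2, oQ] at h1; omega
    · rw [hoth _ h h2] at h1; omega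
  refine ⟨{ ζ := M.ζ, ρ := M.ρ, t := M.t, P := P, Q := Q, curve := M.curve, prim := M.prim,
            rho_t := M.rho_t, rho_pow := M.rho_pow, ne := hPQ, ordP := oP, ordQ := oQ,
            ord := hoth }, ?_⟩
  exact { t := rfl, ρ := rfl, ζ := rfl, P_z := zP, Q_z := zQ
          z_le := fun v hvP hvQ => by
            by_contra hcon
            exact (M.ord_inf (not_le.1 hcon)).1 (hoth v hvP hvQ)
          P_ι := fun f => by
            change P.ord (M.ι f) = Q.ord f
            rw [← Point.comap_ord, hιP]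
          Q_ι := fun f => by
            change Q.ord (M.ι f) = P.ord f
            rw [← Point.comap_ord, hιQ] }

end Pool.Agent.W518.EG
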