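import Pool.Agent.W518.EG.MPQ

/-!
# Project EG (MP_4f5420_ag): EG-Tw
-/

set_option autoImplicit false

open scoped WithZero Matrix Polynomial
open IntermediateField
open Pool.Agent.Helper395.CS hiding genus
open Pool.Agent.Helper395.BC

namespace Pool.Agent.W518.EG

variable {K : Type} [Field K] [Algebra ℂ K]

theorem fix_adj (φ : K ≃ₐ[ℂ] K) {z : K} (hz : φ z = z) {a : K} (ha : a ∈ ℂ⟮z⟯) : φ a = a := by
  induction ha using IntermediateField.adjoin_induction with
  | mem x hx =>
    rw [Set.mem_singleton_iff] at hx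
    rw [hx, hz]
  | algebraMap c => exact φ.commutes c
  | add x y _ _ hx hy => rw [map_add, hx, hy]
  | inv x _ hx => rw [map_inv₀, hx]
  | mul x y _ _ hx hy => rw [map_mul, hx, hy]

theorem rm_one {f g : ℂ[X]} {α : ℂ} (h : f = (Polynomial.X - Polynomial.C α) * g)
    (hg : g.eval α ≠ 0) : f.rootMultiplicity α = 1 := by
  have hg0 : g ≠ 0 := by
    rintro rfl
    simp at hg
  have hne : (Polynomial.X - Polynomial.C α) * g ≠ 0 :=
    mul_ne_zero (Polynomial.X_sub_C_ne_zero α) hg0
  rw [h, Polynomial.rootMultiplicity_mul hne, Polynomial.rootMultiplicity_X_sub_C_self,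
    Polynomial.rootMultiplicity_eq_zero hg]

theorem rm_eq {f r u v : ℂ[X]} (hf : f ≠ 0) (hu : u ≠ 0) (hr : r ≠ 0) (hv : v ≠ 0)
    (h : f * u ^ 2 = r * v ^ 2) (α : ℂ) : f.rootMultiplicity α + 2 * u.rootMultiplicity α =
    r.rootMultiplicity α + 2 * v.rootMultiplicity α := by
  have h1 := congrArg (Polynomial.rootMultiplicity α) h
  rw [Polynomial.rootMultiplicity_mul (mul_ne_zero hf (pow_ne_zero 2 hu)),
    Polynomial.rootMultiplicity_mul (mul_ne_zero hr (pow_ne_zero 2 hv)), pow_two, pow_two,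
    Polynomial.rootMultiplicity_mul (mul_ne_zero hu hu),
    Polynomial.rootMultiplicity_mul (mul_ne_zero hv hv)] at h1
  omega

theorem aeval_inj {z : K} (hz : Transcendental ℂ z) {p q : ℂ[X]}
    (h : Polynomial.aeval z p = Polynomial.aeval z q) : p = q := by
  by_contra hne
  exact aeval_ne_zero hz (sub_ne_zero.2 hne) (by rw [map_sub, h, sub_self])

/-- a polynomial with a root of odd multiplicity is no square in `ℂ(z)` -/
theorem not_sq {z : K} (hz : Transcendental ℂ z) {f : ℂ[X]} {α : ℂ}
    (hα : f.rootMultiplicity α = 1) {a : K} (ha : a ∈ ℂ⟮z⟯) : Polynomial.aeval z f ≠ a ^ 2 := by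
  intro h
  have hf : f ≠ 0 := by
    rintro rfl
    simp at hα
  obtain ⟨p, q, hq, -, rfl⟩ := (mem_adj_iff hz).1 ha
  have hqz := aeval_ne_zero hz hq
  have hp : p ≠ 0 := by
    rintro rfl
    rw [map_zero, zero_div, zero_pow two_ne_zero] at h
    exact aeval_ne_zero hz hf h
  have h2 : f * q ^ 2 = 1 * p ^ 2 := by
    apply aeval_inj hz
    rw [map_mul, map_pow, map_mul, map_pow, map_one, one_mul, h]
    field_simp
  have h3 := rm_eq hf hq one_ne_zero hp h2 α
  have h4 : (1 : ℂ[X]).rootMultiplicity α = 0 := by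
    apply Polynomial.rootMultiplicity_eq_zero
    simp
  omega

/-- `X ^ 2 - 4` -/
noncomputable def pA : ℂ[X] := Polynomial.X ^ 2 - Polynomial.C 4

/-- `4 X ^ 2 - 12 X + 41` -/
noncomputable def pB : ℂ[X] := Polynomial.C 4 * Polynomial.X ^ 2 - Polynomial.C 12 * Polynomial.X +
  Polynomial.C 41

theorem pA_aeval (z : K) : Polynomial.aeval z pA = z ^ 2 - 4 := by
  unfold pA
  simp only [map_sub, map_pow, Polynomial.aeval_X, Polynomial.aeval_C, map_ofNat]

theorem pB_aeval (z : K) : Polynomial.aeval z pB = 4 * z ^ 2 - 12 * z + 41 := by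
  unfold pB
  simp only [map_sub, map_add, map_mul, map_pow, Polynomial.aeval_X, Polynomial.aeval_C, map_ofNat]

theorem pA_deg : pA.natDegree = 2 := by
  unfold pA; compute_degree!

theorem pB_deg : pB.natDegree = 2 := by
  unfold pB; compute_degree!

theorem pA_ne : pA ≠ 0 := by
  intro h
  have := pA_deg
  rw [h, Polynomial.natDegree_zero] at this
  omega

theorem pB_ne : pB ≠ 0 := by
  intro h
  have := pB_deg
  rw [h, Polynomial.natDegree_zero] at this
  omega

theorem pA_fac : pA = (Polynomial.X - Polynomial.C 2) * (Polynomial.X + Polynomial.C 2) := by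
  unfold pA
  have : (Polynomial.C 4 : ℂ[X]) = Polynomial.C 2 * Polynomial.C 2 := by
    rw [← Polynomial.C_mul]; norm_num
  rw [this]; ring

theorem pA_rm : pA.rootMultiplicity 2 = 1 := by
  refine rm_one pA_fac ?_
  simp only [Polynomial.eval_add, Polynomial.eval_X, Polynomial.eval_C]
  norm_num

theorem pA_rm' : pA.rootMultiplicity (-2) = 1 := by
  refine rm_one (g := Polynomial.X - Polynomial.C 2) ?_ ?_
  · rw [pA_fac, map_neg]; ring
  · simp only [Polynomial.eval_sub, Polynomial.eval_X, Polynomial.eval_C]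
    norm_num

theorem pB_eval (x : ℂ) : pB.eval x = 4 * x ^ 2 - 12 * x + 41 := by
  unfold pB
  simp only [Polynomial.eval_sub, Polynomial.eval_add, Polynomial.eval_mul, Polynomial.eval_pow,
    Polynomial.eval_X, Polynomial.eval_C]

theorem pA_eval (x : ℂ) : pA.eval x = x ^ 2 - 4 := by
  unfold pA
  simp only [Polynomial.eval_sub, Polynomial.eval_pow, Polynomial.eval_X, Polynomial.eval_C]

/-- a simple root of `4 X ^ 2 - 12 X + 41` -/
theorem pB_root : ∃ α : ℂ, pB.rootMultiplicity α = 1 ∧ α ≠ 2 ∧ α ≠ -2 ∧ pA.eval α ≠ 0 := by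
  obtain ⟨α, hα⟩ := IsAlgClosed.exists_root pB (by
    rw [Polynomial.degree_eq_natDegree pB_ne, pB_deg]; norm_num)
  have h1 : 4 * α ^ 2 - 12 * α + 41 = 0 := by rw [← pB_eval]; exact hα
  have h2 : α ≠ 2 := by rintro rfl; norm_num at h1
  have h3 : α ≠ -2 := by rintro rfl; norm_num at h1
  refine ⟨α, ?_, h2, h3, ?_⟩
  · refine rm_one (g := Polynomial.C 4 * Polynomial.X + Polynomial.C (4 * α - 12)) ?_ ?_
    · have e1 : (Polynomial.C 41 : ℂ[X]) = Polynomial.C (-(4 * α ^ 2) + 12 * α) := by
        congr 1; linear_combination h1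
      unfold pB
      rw [e1]
      simp only [map_add, map_neg, map_mul, map_pow, map_sub]
      ring
    · simp only [Polynomial.eval_add, Polynomial.eval_mul, Polynomial.eval_X, Polynomial.eval_C]
      intro h4
      have h5 : α = 3 / 2 := by linear_combination h4 / 8
      rw [h5] at h1
      norm_num at h1
  · rw [pA_eval]
    intro h4
    have : (α - 2) * (α + 2) = 0 := by linear_combination h4
    rcases mul_eq_zero.1 this with h5 | h5
    · exact h2 (sub_eq_zero.1 h5)
    · exact h3 (by linear_combination h5)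

theorem W_ne (M : Mod K) : M.W ≠ 0 := by
  intro h
  have h1 := M.W_sq
  rw [h, ← pA_aeval, ← pB_aeval, ← map_mul] at h1
  exact aeval_ne_zero M.trans (mul_ne_zero pA_ne pB_ne) (by rw [← h1]; ring)

theorem P_val_z {M : Mod K} {D : Pre K} (L : Link M D) : 1 < D.P.val M.z ∧ 1 < D.Q.val M.z := by
  have hz0 : M.z ≠ 0 := ne_zero_of_transcendental M.trans
  rw [D.P.one_lt_val_iff hz0, D.Q.one_lt_val_iff hz0, L.P_z, L.Q_z]
  norm_num

theorem ord_poly_inf {z : K} {v : Point K} (hz0 : z ≠ 0) (hv : 1 < v.val z) {p : ℂ[X]}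
    (hp : p ≠ 0) (hz : Transcendental ℂ z) :
    v.ord (Polynomial.aeval z p) = p.natDegree * v.ord z := by
  have h1 := val_aeval_inf hv p hp
  rw [← map_pow, v.val_eq_exp (aeval_ne_zero hz hp), v.val_eq_exp (pow_ne_zero _ hz0),
    v.ord_pow] at h1
  have := WithZero.exp_injective h1
  omega

theorem s_Tw : S_Tw := by
  intro K _ _ M D L
  have hz := M.trans
  have hz0 : M.z ≠ 0 := ne_zero_of_transcendental hz
  have hd0 : M.z ^ 2 - 4 ≠ 0 := by
    rw [← pA_aeval]; exact aeval_ne_zero hz pA_ne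
  have hb0 : 4 * M.z ^ 2 - 12 * M.z + 41 ≠ 0 := by
    rw [← pB_aeval]; exact aeval_ne_zero hz pB_ne
  obtain ⟨hvP, hvQ⟩ := P_val_z L
  have oP : D.P.ord (M.z ^ 2 - 4) = -14 := by
    rw [← pA_aeval, ord_poly_inf hz0 hvP pA_ne hz, pA_deg, L.P_z]; norm_num
  have oQ : D.Q.ord (M.z ^ 2 - 4) = -14 := by
    rw [← pA_aeval, ord_poly_inf hz0 hvQ pA_ne hz, pA_deg, L.Q_z]; norm_num
  refine ⟨hd0, ?_, oP, oQ, fun v => ?_, fun g c hg h => ?_⟩
  · rw [L.ρ, map_sub, map_pow, M.rho_z, map_ofNat]
  · by_cases hP : v = D.P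
    · rw [hP, oP]; norm_num
    by_cases hQ : v = D.Q
    · rw [hQ, oQ]; norm_num
    have hzv := L.z_le v hP hQ
    have h1 : v.val (M.z ^ 2 - 4) ≤ 1 := by rw [← pA_aeval]; exact aeval_le hzv pA
    rcases h1.lt_or_eq with h2 | h2
    · -- the other factor is a unit
      have h3 : v.val (4 * M.z ^ 2 - 12 * M.z + 41) = 1 := by
        have h4 : v.val (4 * M.z ^ 2 - 12 * M.z + 41) ≤ 1 := by
          rw [← pB_aeval]; exact aeval_le hzv pB
        rcases h4.lt_or_eq with h5 | h5
        · exfalso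
          have e : algebraMap ℂ K (-(4752 / 16)) * 1 = 0 ∨ True := Or.inr trivial
          have k1 : v.val (algebraMap ℂ K 4) ≤ 1 := v.const_le _
          -- `12 z - 57` has value `< 1`
          have h6 : v.val (algebraMap ℂ K 4 * (M.z ^ 2 - 4)) < 1 := by
            rw [map_mul]; exact mul_lt_one_of_nonneg_of_lt_one_right k1 zero_le h2
          have h7 := Valuation.map_sub_lt v.val h6 h5
          have h8 : algebraMap ℂ K 4 * (M.z ^ 2 - 4) - (4 * M.z ^ 2 - 12 * M.z + 41) =
              12 * M.z - 57 := by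
            rw [map_ofNat]; ring
          rw [h8] at h7
          have h9 : v.val (algebraMap ℂ K 144 * (M.z ^ 2 - 4)) < 1 := by
            rw [map_mul]; exact mul_lt_one_of_nonneg_of_lt_one_right (v.const_le _) zero_le h2
          have h10 : v.val ((12 * M.z + 57) * (12 * M.z - 57)) < 1 := by
            rw [map_mul]
            refine mul_lt_one_of_nonneg_of_lt_one_right ?_ zero_le h7
            have := aeval_le hzv (Polynomial.C 12 * Polynomial.X + Polynomial.C (57 : ℂ))
            simpa only [map_add, map_mul, Polynomial.aeval_X, Polynomial.aeval_C, map_ofNat]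
              using this
          have h11 := Valuation.map_sub_lt v.val h9 h10
          have h12 : algebraMap ℂ K 144 * (M.z ^ 2 - 4) - (12 * M.z + 57) * (12 * M.z - 57) =
              algebraMap ℂ K 2673 := by
            rw [map_ofNat, map_ofNat]; ring
          rw [h12, v.const _ (by norm_num)] at h11
          exact lt_irrefl _ h11
        · exact h5
      have h4 := congrArg v.ord M.W_sq
      rw [v.ord_pow, v.ord_mul hd0 hb0, (v.val_eq_one_iff hb0).1 h3, add_zero] at h4
      rw [← h4]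
      exact Dvd.intro _ rfl
    · rw [(v.val_eq_one_iff hd0).1 h2]
      exact dvd_zero _
  · rw [L.ρ] at hg
    obtain ⟨a, ha, b, hb, rfl⟩ := M.fixed g hg
    have hιa := fix_adj M.ι M.iota_z ha
    have hιb := fix_adj M.ι M.iota_z hb
    have hW := M.W_sq
    have hW0 := W_ne M
    have hc : c ≠ 0 := by
      rintro rfl
      rw [zero_smul] at h
      exact hd0 h
    have hck : algebraMap ℂ K c ≠ 0 := (map_ne_zero _).2 hc
    rw [Algebra.smul_def] at h
    have h2 := congrArg M.ι h
    simp only [map_sub, map_mul, map_add, map_pow, AlgEquiv.commutes, hιa, hιb, M.iota_W,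
      M.iota_z, map_ofNat] at h2
    have h4K : (4 : K) ≠ 0 := by
      have h10 : CharZero K := charZero_of_injective_algebraMap (algebraMap ℂ K).injective
      norm_num
    have h3 : 4 * algebraMap ℂ K c * (a * b) * M.W = 0 := by linear_combination h2 - h
    have h5 : a * b = 0 := by
      rcases mul_eq_zero.1 h3 with h6 | h6
      · rcases mul_eq_zero.1 h6 with h7 | h7
        · exact absurd h7 (mul_ne_zero h4K hck)
        · exact h7
      · exact absurd h6 hW0
    obtain ⟨γ, hγ⟩ := IsAlgClosed.exists_pow_nat_eq c (n := 2) (by norm_num)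
    have hγ0 : γ ≠ 0 := by
      rintro rfl
      apply hc
      rw [← hγ]; norm_num
    have hγk : algebraMap ℂ K γ ^ 2 = algebraMap ℂ K c := by rw [← map_pow, hγ]
    have hγm : algebraMap ℂ K γ ∈ ℂ⟮M.z⟯ := IntermediateField.algebraMap_mem _ _
    rcases mul_eq_zero.1 h5 with h6 | h6
    · -- a = 0
      subst h6
      have h7 : (1 : K) = algebraMap ℂ K c * b ^ 2 * (4 * M.z ^ 2 - 12 * M.z + 41) := by
        apply mul_left_cancel₀ hd0
        rw [zero_add, mul_pow, hW] at h
        linear_combination h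
      have hb00 : b ≠ 0 := by
        rintro rfl
        rw [zero_pow two_ne_zero, mul_zero, zero_mul] at h7
        exact one_ne_zero h7
      obtain ⟨α, hα, -⟩ := pB_root
      refine not_sq hz hα (a := (algebraMap ℂ K γ * b)⁻¹)
        (inv_mem (mul_mem hγm hb)) ?_
      rw [pB_aeval, inv_pow, mul_pow, hγk]
      have hne : algebraMap ℂ K c * b ^ 2 ≠ 0 := mul_ne_zero hck (pow_ne_zero 2 hb00)
      field_simp
      linear_combination -h7
    · subst h6
      refine not_sq hz pA_rm (a := algebraMap ℂ K γ * a) (mul_mem hγm ha) ?_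
      rw [pA_aeval, mul_pow, hγk, h]
      ring

end Pool.Agent.W518.EG
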