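import Pool.Agent.W518.EG.Defs

/-!
# Project EG (MP_4f5420_ag): statements, part 2
-/

set_option autoImplicit false

open scoped WithZero Matrix
open IntermediateField
open Pool.Agent.Helper395.CS hiding genus
open Pool.Agent.Helper395.BC
open Pool.Agent.W518.PC (lpow)

namespace Pool.Agent.W518.EG

variable {K : Type} [Field K] [Algebra ℂ K]

/-- `𝒪(a P + b Q)` -/
noncomputable def Pre.pq (D : Pre K) (a b : ℤ) : LineBundle K :=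
  lmul (lpow (lpt D.P) a) (lpow (lpt D.Q) b)

/-- the invariant functions in `L(7 α P + 7 β Q)` -/
noncomputable def Pre.Fs (D : Pre K) (α β : ℤ) : Submodule ℂ K :=
  H0 (D.pq (7 * α) (7 * β)) ⊓ LinearMap.ker ((D.ρ : K ≃ₐ[ℂ] K).toLinearMap - LinearMap.id)

/-- EG-H0. Membership in `L(a P + b Q)` and its degree. -/
def S_H0 : Prop := ∀ (K : Type) [Field K] [Algebra ℂ K] (D : Pre K) (a b : ℤ),
  (D.pq a b).degree = a + b ∧ ∀ f : K, (f ∈ H0 (D.pq a b) ↔ f = 0 ∨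
    (-a ≤ D.P.ord f ∧ -b ≤ D.Q.ord f ∧ ∀ v, v ≠ D.P → v ≠ D.Q → 0 ≤ v.ord f))

/-- EG-flag. Write `p(u) = P.ord u`. By `S_V` the components of weight `-3, 1, -2, 2, 3, 0, -1` of
`u ∈ V` have `P`-orders `-6, -5, -4, -3, -1, 0, 5` (if nonzero), by `S_W` the components of weight
`-3, 1, -2, 2, -1, 3` of `w ∈ W = {w | Bd d w}` have `P`-orders `1, 2, 3, 4, 5, 6`, so a component
vanishes if `P.ord` of the element is larger (an element is the sum of its components, `S_comp`, and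
`P.ord` of a sum of elements of different orders is the minimum). Let `s = P.ord κ - 7`. `Bd d (κ u)`
gives `p(u) ≥ -6 - s` for all `u ∈ U`. The map `u ↦ comp j u` has rank `≤ 1` on `U` (`S_V1`), so one
can find `u ≠ 0` in `U` with three prescribed components zero. If `s ≥ 0` prescribe `comp j u = 0` for
`j = -3, 1, -2`; then `p(u) ≥ -3`, `P.ord (κ u) ≥ 4`. If `s = -1`: `comp (-3) u = 0` on `U`, prescribe
the components `1, -2, 2`; then `p(u) ≥ -1` and `P.ord (κ u) ≥ 5`. If `s = -2`: the components `-3, 1`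
vanish on `U`, prescribe `-2, 2, 3`: `p(u) ≥ 0`, `P.ord (κ u) ≥ 5`. If `s = -3`: `-3, 1, -2` vanish on `U`,
prescribe `2, 3`: `p(u) ≥ 0`, `P.ord (κ u) ≥ 4`. If `s ≤ -4`: `-3, 1, -2, 2` vanish on `U`, so `dim U ≤ 3`.
The second part is the same at `Q` (weights replaced by their negatives). -/
def S_flag : Prop := ∀ (K : Type) [Field K] [Algebra ℂ K] (D : Dat K) (d : K), D.Tw d →
  ∀ (κ : K) (U : Submodule ℂ K), κ ≠ 0 → FiniteDimensional ℂ U → 4 ≤ Module.finrank ℂ U →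
  (∀ u ∈ U, D.Bd 1 u ∧ D.Bd d (κ * u)) →
  (∃ u ∈ U, u ≠ 0 ∧ ∀ j : ℤ, (j = 1 ∨ j = -2 ∨ j = -3) → D.comp j u = 0 ∧ D.comp j (κ * u) = 0) ∧
  (∃ u ∈ U, u ≠ 0 ∧ ∀ j : ℤ, (j = -1 ∨ j = 2 ∨ j = 3) → D.comp j u = 0 ∧ D.comp j (κ * u) = 0)

/-- EG-caseA. Let `x3, x0, x_{-1}` be the components of `u` and `w = κ u` (of weight 3). For all
`x ∈ U`, with `X = κ x`, one has `x w = u X`; component of weight `j + 3`:
`(j)`: `x_j w = x3 X_j + x0 X_{j+3} + x_{-1} X_{j-3}` (indices mod 7, `X_0 = 0`).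
Orders at `P`, `Q` (from `S_V`, `S_W`; shifted by 6 for V, by 6 - 7 for W): V: `0:(6,6)`, `1:(1,11)`,
`-1:(11,1)`, `2:(3,2)`, `-2:(2,3)`, `3:(5,0)`, `-3:(0,5)`. W: `1:(1,4)`, `-1:(4,1)`, `2:(3,2)`, `-2:(2,3)`,
`3:(5,0)`, `-3:(0,5)`. Elements of V (or of W) of the same weight are proportional (`S_V1`, `S_W1`); `t w`
spans `W_{-3}`, and `t x3` spans `V_{-3}` if `x3 ≠ 0`.
(3): `x_3 w - x3 X_3` (0 or orders (10,0)) `= x0 X_{-1}` (10,7), so `x0 X_{-1} = 0`.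
(-3): `x_{-3} w - x3 X_{-3}` (0 or (5,5), both terms are multiples of each other) `= x_{-1} X_1` (12,5), so
`x_{-1} X_1 = 0`.
(1): `x_1 w - x0 X_{-3}` (0 or (6,11)) `= x3 X_1` (6,4) `+ x_{-1} X_{-2}` (13,4).
(-1): `x_{-1} w - x_{-1} X_3` (0 or (16,1)) `= x3 X_{-1}` (9,1) `+ x0 X_2` (9,8).
(2): `x_2 w` (8,2) `= x3 X_2` (8,2) `+ x0 X_{-2}` (8,9) `+ x_{-1} X_{-1}` (15,2).
Claim: three of the components `X_1, X_{-1}, X_2, X_{-2}` vanish for all `x ∈ U`.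
If `x3, x0, x_{-1} ≠ 0`: `X_{-1} = X_1 = 0` and (1) gives `X_{-2} = 0`.
If `x3, x0 ≠ 0`, `x_{-1} = 0`: `X_{-1} = 0`, (1) gives `X_1 = 0`, (-1) gives `X_2 = 0`.
If `x3, x_{-1} ≠ 0`, `x0 = 0`: `X_1 = 0`, (1) gives `X_{-2} = 0`, (-1) gives `X_{-1} = 0`.
If only `x3 ≠ 0`: (1) `X_1 = 0`, (-1) `X_{-1} = 0`, (2) `x_2 w = x3 X_2` gives `X_2 = 0` by `S_two`
(with `j, k, l, m = 2, 3, 3, 2`).
If `x3 = 0`, `x0, x_{-1} ≠ 0`: `X_{-1} = X_1 = 0`, (1) `X_{-2} = 0`.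
If only `x0 ≠ 0`: `X_{-1} = 0`, (-1) `X_2 = 0`, (2) `X_{-2} = 0`.
If only `x_{-1} ≠ 0`: `X_1 = 0`, (1) `X_{-2} = 0`, (2) `X_{-1} = 0`.
So `X = κ x` lies in a space of dimension at most 3 for all `x ∈ U`. -/
def S_caseA : Prop := ∀ (K : Type) [Field K] [Algebra ℂ K] (D : Dat K) (d : K), D.Tw d →
  ∀ (κ : K) (U : Submodule ℂ K), κ ≠ 0 → FiniteDimensional ℂ U →
  (∀ u ∈ U, D.Bd 1 u ∧ D.Bd d (κ * u)) →
  ∀ u ∈ U, u ≠ 0 → (∀ j : ℤ, (j = 1 ∨ j = 2 ∨ j = -2 ∨ j = -3) → D.comp j u = 0) →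
  (∀ j : ℤ, (j = 1 ∨ j = -1 ∨ j = 2 ∨ j = -2 ∨ j = -3) → D.comp j (κ * u) = 0) →
  Module.finrank ℂ U ≤ 3

/-- EG-gonW. Write `V = {u | Bd 1 u}`. If `U, f U ⊆ V` and `g = (α f + β) / (γ f + δ)` then
`U' = (γ f + δ) U` and `g U'` are in `V` and `dim U' = dim U`; so one may assume `f(P) = 0`
(`P.ord f > 0`) and `Q.ord f ≥ 0`. By `S_V` the `P`-orders of nonzero elements of `V` are in
`S = {-6, -5, -4, -3, -1, 0, 5}` and `U` has at least 4 different `P`-orders `n`, all with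
`n + ν ∈ S`, `ν = P.ord f`. This forces `ν = 1` and the orders `-6, -5, -4, -1`. So there are
`u ∈ U` with `P.ord u = -1`, so with components `x3 ≠ 0, x0, x_{-1}`, and `y = f u` has order 0, so it has
components `y0 ≠ 0, y_{-1}`; and `u'' ∈ U` of order -4, components `x''_{-2} ≠ 0, x''_2, x''_3, x''_0,
x''_{-1}`, `y'' = f u''` has order -3, components `y''_2 ≠ 0, y''_3, y''_0, y''_{-1}`. Let `q = f(Q)`; in the
same way at `Q` with `f - q`: there is `u' ∈ U` with components `x'_{-3} ≠ 0, x'_0, x'_1` such that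
`y' = (f - q) u'` has components `y'_0 ≠ 0, y'_1`. From `u' y = u (y' + q u')`: in weight 0 all terms
except `q x3 x'_{-3}` are constants and `x3 x'_{-3}` is not constant (`P.ord = -7`), so `q = 0`. Weight 3 of
`u' y = u y'`: `x'_{-3} y_{-1} = x3 y'_0 ≠ 0`, so `y_{-1} ≠ 0`. Weight -3 of `u'' y = u y''`: the left side
is `x''_{-2} y_{-1} ≠ 0`, the right side is 0 (the weights of `u y''` are -2, -1, 3, 2, 2, 3, 0, -1, 1, 2,
-1, -2). Contradiction. -/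
def S_gonW : Prop := ∀ (K : Type) [Field K] [Algebra ℂ K] (D : Dat K) (f : K)
  (U : Submodule ℂ K), Transcendental ℂ f → FiniteDimensional ℂ U → 4 ≤ Module.finrank ℂ U →
  ¬ ∀ u ∈ U, D.Bd 1 u ∧ D.Bd 1 (f * u)

/-- EG-RR. `deg L = 2 g - 2` and `l(L) = g` imply that `L` is canonical (`rrL` gives a nonzero section of
`K ⊗ L⁻¹`, of degree 0). Let `D'` be the polar divisor of `f` (`lpole`, see `W518/SMR/Odd.lean`),
`δ = degP f`, `l(D') ≥ 2`; by `rrL` `l(L - D') = l(K - D') = l(D') - δ - 1 + 7 ≥ 8 - δ ≥ 4`, and `U = H0(L - D')`. -/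
def S_RR : Prop := ∀ (K : Type) [Field K] [Algebra ℂ K], IsCurve K → genus K = 7 →
  ∀ L : LineBundle K, L.degree = 12 → Module.finrank ℂ (H0 L) = 7 →
  ∀ f : K, Transcendental ℂ f → degP f ≤ 4 → ∃ U : Submodule ℂ K, FiniteDimensional ℂ U ∧
    4 ≤ Module.finrank ℂ U ∧ ∀ u ∈ U, u ∈ H0 L ∧ f * u ∈ H0 L

/-- EG-F. Upper bound by induction on `α + β`: for `α + β = 1` two elements have constant quotient
(`degP (g₁ / g₂) ≤ 7`, `nr`); `Fs α β / Fs (α-1) β` has dimension `≤ 1` (orders at `P` of invariant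
functions are divisible by 7, `S_mod`). Lower bound: for large `m`, `Fs α β ⊆ Fs m m` has codimension at
most `(m - α) + (m - β)`. -/
def S_F : Prop := ∀ (K : Type) [Field K] [Algebra ℂ K] (D : Dat K),
  (∀ m : ℕ, 2 ≤ m → 2 * m ≤ Module.finrank ℂ (D.Fs m m)) →
  ∀ α β : ℤ, 1 ≤ α + β → FiniteDimensional ℂ (D.Fs α β) ∧
    (Module.finrank ℂ (D.Fs α β) : ℤ) = α + β

/-- EG-dims. `H0 (pq n n)` is the direct sum of its parts of weights `-3, ..., 3` (`S_comp`), and the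
part of weight `j` is `t ^ j * Fs α β` with `α = ⌊(n - 5 j) / 7⌋`, `β = ⌊(n + 5 j) / 7⌋`. For `n = 6` all
have `α + β = 1`, except `j = 0`, where it is `Fs 0 0 = ℂ`. For `n = 7 m`, `m ≥ 1`, one has
`α + β = 2 m - 1` for `j ≠ 0` and `2 m` for `j = 0`. -/
def S_dims : Prop := ∀ (K : Type) [Field K] [Algebra ℂ K] (D : Dat K),
  (∀ α β : ℤ, 1 ≤ α + β → FiniteDimensional ℂ (D.Fs α β) ∧
    (Module.finrank ℂ (D.Fs α β) : ℤ) = α + β) →
  (FiniteDimensional ℂ (H0 (D.pq 6 6)) ∧ Module.finrank ℂ (H0 (D.pq 6 6)) = 7) ∧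
  ∀ m : ℕ, 1 ≤ m → FiniteDimensional ℂ (H0 (D.pq (7 * m) (7 * m))) ∧
    Module.finrank ℂ (H0 (D.pq (7 * m) (7 * m))) + 6 = 14 * m

/-- EG-GEN. The genus from the Hilbert function; generalises `W45.PCG.s_G` (`W45/PC/G.lean`), whose
proof shows that `H¹(𝒪)` has dimension exactly `G`. -/
def S_GEN : Prop := ∀ (K : Type) [Field K] [Algebra ℂ K], IsCurve K →
  ∀ (δ G t₀ : ℕ) (H : LineBundle K), 1 ≤ δ → 1 ≤ G → H.degree = δ →
  (∀ t : ℕ, t₀ ≤ t → FiniteDimensional ℂ (H0 (lpow H t)) ∧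
    (Module.finrank ℂ (H0 (lpow H t)) : ℤ) = t * δ + 1 - G) → genus K = G

/-! ### the model -/

/-- The curve `t ^ 7 = T`, where `T` is a function of degree 5 on the elliptic curve
`W ^ 2 = (z ^ 2 - 4) (4 z ^ 2 - 12 z + 41)`. One has
`(z + 2) (2 z ^ 2 - 5 z + 11) ^ 2 - 324 = (z - 2) (z + 1) ^ 2 (4 z ^ 2 - 12 z + 41)`, so `T` times its
conjugate is 1. -/
structure Mod (K : Type) [Field K] [Algebra ℂ K] where
  ζ : ℂ
  ρ : K ≃ₐ[ℂ] K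
  ι : K ≃ₐ[ℂ] K
  t : K
  z : K
  W : K
  curve : IsCurve K
  prim : IsPrimitiveRoot ζ 7
  trans : Transcendental ℂ z
  W_sq : W ^ 2 = (z ^ 2 - 4) * (4 * z ^ 2 - 12 * z + 41)
  t_pow : 162 * t ^ 7 = (z + 2) * (2 * z ^ 2 - 5 * z + 11) ^ 2 - 162 +
    (2 * z ^ 2 - 5 * z + 11) * (z + 1) * W
  rho_t : ρ t = ζ • t
  rho_z : ρ z = z
  rho_W : ρ W = W
  rho_pow : ρ ^ 7 = 1
  iota_t : ι t = t⁻¹
  iota_z : ι z = z
  iota_W : ι W = -W
  fixed : ∀ f : K, ρ f = f → ∃ a ∈ ℂ⟮z⟯, ∃ b ∈ ℂ⟮z⟯, f = a + b * W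
  gen : IntermediateField.adjoin ℂ {t, z} = ⊤

/-- EG-EX. Construction: `F = ℂ(z)(W)` (`AdjoinRoot` of `X ^ 2 - q` over `RatFunc ℂ`, `q` is not a square),
`K = F(t)`, `AdjoinRoot` of `X ^ 7 - T` over `F`, which is irreducible because `T` is not a 7th power in
`F` (`X_pow_sub_C_irreducible_of_prime`): `F = ℂ(T)(z)` since `W ∈ ℂ(T, z)`, and
`81 (T + 1 / T + 2) = (z + 2) (2 z ^ 2 - 5 z + 11) ^ 2`, so `degP T = [F : ℂ(T)] ≤ 5`, but
`degP (g ^ 7) = 7 degP g`. `ρ`: `t ↦ ζ t` over `F`; `ι`: `W ↦ -W`, `t ↦ t⁻¹`. `fixed`: `K = ⊕ F t ^ i`.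
`gen`: `W ∈ ℂ(t, z)`. -/
def S_EX : Prop := ∃ (K : Type) (_ : Field K) (_ : Algebra ℂ K), Nonempty (Mod K)

/-- EG-5. `t ≠ 0`, `81 (t ^ 7 + t ^ (-7) + 2) = (z + 2) (2 z ^ 2 - 5 z + 11) ^ 2`, so `z` has degree at most 5 over
`ℂ(t)`, and `K = ℂ(t)(z)`. -/
def S_5 : Prop := ∀ (K : Type) [Field K] [Algebra ℂ K] (M : Mod K),
  Transcendental ℂ M.t ∧ Module.finrank ℂ⟮M.t⟯ K ≤ 5

/-- `D` belongs to the model `M` -/
structure Link (M : Mod K) (D : Pre K) : Prop where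
  t : D.t = M.t
  ρ : D.ρ = M.ρ
  ζ : D.ζ = M.ζ
  P_z : D.P.ord M.z = -7
  Q_z : D.Q.ord M.z = -7
  z_le : ∀ v, v ≠ D.P → v ≠ D.Q → v.val M.z ≤ 1
  P_ι : ∀ f, D.P.ord (M.ι f) = D.Q.ord f
  Q_ι : ∀ f, D.Q.ord (M.ι f) = D.P.ord f

/-- EG-PQ. Points with `v.val z > 1`: from
`81 (t ^ 7 + t ^ (-7) + 2) = (z + 2) (2 z ^ 2 - 5 z + 11) ^ 2` one gets `ord_v t ≠ 0` and
`7 |ord_v t| = -5 ord_v z`; points with `v.val z ≤ 1` have `ord_v t = 0`. As `degP t ≤ 5` (`S_5`) there is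
exactly one pole `P` of `t`, `ord_P t = -5`, `ord_P z = -7`, and exactly one zero `Q`. `ι` exchanges them
since `ι t = t⁻¹`. -/
def S_PQ : Prop := ∀ (K : Type) [Field K] [Algebra ℂ K] (M : Mod K), ∃ D : Pre K, Link M D

/-- EG-NR. Suppose `degP f < 14`, so `degP f = 7` (`S_D7`). If `P.ord f < 0` let `h = f`, otherwise
`h = 1 / (f - f(P))`; `degP h = 7` and `h` has a pole at `P`, of order divisible by 7 (`S_mod`), so
`P.ord h = -7` and `v.ord h ≥ 0` for `v ≠ P`. Write `h = a + b W`. `h + ι h = 2 a` has poles at most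
`7 P + 7 Q`, so `a` is a polynomial in `z` (`poly_of_regular`) of degree `≤ 1`. `h - ι h = 2 b W`, and
`(b W) ^ 2 ∈ ℂ(z)` has poles at most `14 P + 14 Q`, so it is a polynomial in `z` of degree `≤ 2`;
since `q = (z ^ 2 - 4) (4 z ^ 2 - 12 z + 41)` is squarefree of degree 4, `b = 0`. So `h` is a polynomial
of degree 1 in `z`, which has a pole at `Q`, contradiction. -/
def S_NR : Prop := ∀ (K : Type) [Field K] [Algebra ℂ K] (M : Mod K) (D : Pre K), Link M D →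
  ∀ f : K, M.ρ f = f → Transcendental ℂ f → 14 ≤ degP f

/-- EG-low. `z ^ i`, `i ≤ m`, and `z ^ i W`, `i ≤ m - 2`, are linearly independent elements. -/
def S_low : Prop := ∀ (K : Type) [Field K] [Algebra ℂ K] (M : Mod K) (D : Pre K), Link M D →
  ∀ m : ℕ, 2 ≤ m → FiniteDimensional ℂ (D.Fs m m) → 2 * m ≤ Module.finrank ℂ (D.Fs m m)

/-- EG-Tw. `d = z ^ 2 - 4`. Even orders: if `v.val (z ∓ 2) < 1` then `ord_v d = 2 ord_v W` since the other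
factors of `W ^ 2` are units. Not a square: write `g = a + b W`; `a b = 0`; `c a ^ 2 = z ^ 2 - 4` and
`c b ^ 2 (4 z ^ 2 - 12 z + 41) = 1` are impossible in `ℂ(z)`. -/
def S_Tw : Prop := ∀ (K : Type) [Field K] [Algebra ℂ K] (M : Mod K) (D : Pre K), Link M D →
  D.Tw (M.z ^ 2 - 4)

/-- EG-M. `K' = K(y)`, `y ^ 2 = z ^ 2 - 4` (`AdjoinRoot`). Put `s = (z + y) / 2` (so `s + 1/s = z`,
`s - 1/s = y`), `w = W s / y` (so `w ^ 2 = 4 s⁴ - 12 s³ + 49 s² - 12 s + 4`),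
`P(s) = 2 s⁵ - 3 s⁴ + 10 s³ + 10 s² - 3 s + 2 = s² (s + 1) (2 z ^ 2 - 5 z + 11)`,
`v = (P(s) + (s³ - 1) w) / (18 s⁶)`. Then `P(s)² - 324 s⁵ = (s³ - 1)² w²`, `t⁷ = s⁷ v²`, and for
`x = t⁴ / (s⁴ v)` one has `x⁷ = v`, `t = s x²`. With `Y = s x`:
`9 (1 + x⁷ Y⁷) = x Y (2 Y⁵ - 3 Y⁴ x + 10 Y³ x² + 10 Y² x³ - 3 Y x⁴ + 2 x⁵)`, so `Y` has degree at most 7 over
`ℂ(x)`, and `K' = ℂ(x, Y)`: `s = Y / x`, `v = x⁷`, `w = (18 s⁶ v - P(s)) / (s³ - 1)`, `z = s + 1/s`,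
`y = s - 1/s`, `t = s x²`, and `K = ℂ(t, z)`. `x` is transcendental since `K'` has transcendence degree 1. -/
def S_M : Prop := ∀ (K : Type) [Field K] [Algebra ℂ K] (M : Mod K),
  (¬ ∃ g : K, g ^ 2 = M.z ^ 2 - 4) →
  ∃ (K' : Type) (_ : Field K') (_ : Algebra ℂ K') (_ : Algebra K K')
    (_ : IsScalarTower ℂ K K'), IsCurve K' ∧ Module.finrank K K' = 2 ∧
    (∃ y : K', y ^ 2 = algebraMap K K' (M.z ^ 2 - 4) ∧ ∀ g : K, algebraMap K K' g ≠ y) ∧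
    ∃ x : K', Transcendental ℂ x ∧ Module.finrank ℂ⟮x⟯ K' ≤ 7

end Pool.Agent.W518.EG
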