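import Pool.Agent.W518.EG.Branch2

/-!
# Project EG (MP_4f5420_ag): orders of semi-invariant functions
-/

set_option autoImplicit false

open scoped WithZero Matrix
open IntermediateField
open Pool.Agent.Helper395.CS hiding genus
open Pool.Agent.Helper395.BC

namespace Pool.Agent.W518.EG

variable {K : Type} [Field K] [Algebra ℂ K]

theorem comap_P (D : Pre K) : D.P.comap D.ρ = D.P := by
  by_contra h
  have h1 : (D.P.comap D.ρ).ord D.t = -5 := by
    rw [Point.comap_ord, D.rho_t, ord_smul' _ D.zeta_ne, D.ordP]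
  by_cases h2 : D.P.comap D.ρ = D.Q
  · rw [h2, D.ordQ] at h1
    omega
  · rw [D.ord _ h h2] at h1
    omega

theorem comap_Q (D : Pre K) : D.Q.comap D.ρ = D.Q := by
  by_contra h
  have h1 : (D.Q.comap D.ρ).ord D.t = 5 := by
    rw [Point.comap_ord, D.rho_t, ord_smul' _ D.zeta_ne, D.ordQ]
  by_cases h2 : D.Q.comap D.ρ = D.P
  · rw [h2, D.ordP] at h1
    omega
  · rw [D.ord _ h2 h] at h1
    omega

theorem valP (D : Pre K) (f : K) : D.P.val (D.ρ f) = D.P.val f := by
  rw [← Point.comap_val, comap_P]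

theorem valQ (D : Pre K) (f : K) : D.Q.val (D.ρ f) = D.Q.val f := by
  rw [← Point.comap_val, comap_Q]

theorem comap_inj (D : Pre K) {v w : Point K} (h : v.comap D.ρ = w.comap D.ρ) : v = w :=
  (pointEquiv D.ρ).injective h

theorem s_0 : S_0 := by
  intro K _ _ D
  refine ⟨fun f => ?_, fun f => ?_, fun v hv hv' => ⟨fun h => ?_, fun h => ?_⟩⟩
  · rw [← Point.comap_ord, comap_P]
  · rw [← Point.comap_ord, comap_Q]
  · exact hv (comap_inj D (by rw [h, comap_P]))
  · exact hv' (comap_inj D (by rw [h, comap_Q]))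

theorem t_ne (D : Pre K) : D.t ≠ 0 := by
  intro h
  have := D.ordP
  rw [h, Point.ord_zero] at this
  omega

theorem t_trans (D : Pre K) : Transcendental ℂ D.t := by
  by_contra h
  obtain ⟨c, hc⟩ := exists_const h
  have := D.ordP
  rw [hc, Point.ord_const] at this
  omega

theorem wt_t (D : Pre K) : D.Wt 1 D.t := by
  unfold Pre.Wt
  rw [D.rho_t, zpow_one]

theorem Pre.Wt.inv {D : Pre K} {j : ℤ} {x : K} (hx : D.Wt j x) : D.Wt (-j) x⁻¹ := by
  unfold Pre.Wt at *
  rw [map_inv₀, hx, zpow_neg, Algebra.smul_def, Algebra.smul_def, mul_inv, map_inv₀]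

theorem Pre.Wt.one (D : Pre K) : D.Wt 0 (1 : K) := by
  unfold Pre.Wt
  rw [map_one, zpow_zero, one_smul]

theorem Pre.Wt.pow {D : Pre K} {j : ℤ} {x : K} (hx : D.Wt j x) (n : ℕ) : D.Wt (n * j) (x ^ n) := by
  induction n with
  | zero =>
    simpa using Pre.Wt.one D
  | succ n ih =>
    rw [pow_succ]
    have := ih.mul hx
    push_cast
    rwa [show ((n : ℤ) + 1) * j = n * j + j by ring]

theorem Pre.Wt.zpow {D : Pre K} {j : ℤ} {x : K} (hx : D.Wt j x) (n : ℤ) :
    D.Wt (n * j) (x ^ n) := by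
  obtain ⟨m, rfl | rfl⟩ := n.eq_nat_or_neg
  · rw [zpow_natCast]; exact hx.pow m
  · rw [zpow_neg, zpow_natCast, neg_mul]
    exact (hx.pow m).inv

theorem wt_tpow (D : Pre K) (n : ℤ) : D.Wt n (D.t ^ n) := by
  have := (wt_t D).zpow n
  rwa [mul_one] at this

theorem ord_zpow (v : Point K) (a : K) (n : ℤ) : v.ord (a ^ n) = n * v.ord a := by
  unfold Point.ord
  rw [map_zpow₀, WithZero.log_zpow]
  simp

/-- a semi-invariant function of order 0 at a fixed point has weight divisible by 7 -/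
theorem mod_aux (D : Pre K) (v : Point K) (hv : ∀ f, v.val (D.ρ f) = v.val f) {k : ℤ} {u : K}
    (hu0 : u ≠ 0) (hu : D.Wt k u) (ho : v.ord u = 0) : (7 : ℤ) ∣ k := by
  have h1 : v.val u = 1 := (v.val_eq_one_iff hu0).2 ho
  obtain ⟨c, hc⟩ : ∃ c : ℂ, v.val (u - algebraMap ℂ K c) < 1 := by
    by_cases ht : Transcendental ℂ u
    · exact exists_residue D.curve ht v h1.le
    · obtain ⟨c, hc⟩ := exists_const ht
      exact ⟨c, by rw [hc, sub_self, map_zero]; exact zero_lt_one⟩
  have hc0 : c ≠ 0 := by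
    rintro rfl
    rw [map_zero, sub_zero, h1] at hc
    exact lt_irrefl _ hc
  have h2 : v.val (D.ρ (u - algebraMap ℂ K c)) < 1 := by rw [hv]; exact hc
  have h3 : D.ρ u = algebraMap ℂ K (D.ζ ^ k) * u := by
    have := hu
    unfold Pre.Wt at this
    rw [this, Algebra.smul_def]
  rw [map_sub, h3, AlgEquiv.commutes] at h2
  have hz : v.val (algebraMap ℂ K (D.ζ ^ k)) = 1 := v.const _ (zpow_ne_zero _ D.zeta_ne)
  have h4 : v.val (algebraMap ℂ K (D.ζ ^ k) * (u - algebraMap ℂ K c)) < 1 := by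
    rw [map_mul, hz, one_mul]; exact hc
  have h5 := Valuation.map_sub_lt v.val h2 h4
  have h6 : algebraMap ℂ K (D.ζ ^ k) * u - algebraMap ℂ K c -
      algebraMap ℂ K (D.ζ ^ k) * (u - algebraMap ℂ K c) = algebraMap ℂ K ((D.ζ ^ k - 1) * c) := by
    rw [map_mul, map_sub, map_one]; ring
  rw [h6] at h5
  have h7 : (D.ζ ^ k - 1) * c = 0 := by
    by_contra h
    rw [v.const _ h] at h5
    exact lt_irrefl _ h5
  have h8 : D.ζ ^ k = 1 := by
    rcases mul_eq_zero.1 h7 with h | h
    · exact sub_eq_zero.1 h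
    · exact absurd h hc0
  have := (D.prim.zpow_eq_one_iff_dvd k).1 h8
  exact_mod_cast this

theorem s_mod : S_mod := by
  intro K _ _ D j f hf hwt
  constructor
  · have h1 : D.Wt (5 * j + D.P.ord f) (f ^ 5 * D.t ^ (D.P.ord f)) := by
      have := (hwt.pow 5).mul (wt_tpow D (D.P.ord f))
      exact_mod_cast this
    have h2 := mod_aux D D.P (valP D) (mul_ne_zero (pow_ne_zero 5 hf) (zpow_ne_zero _ (t_ne D))) h1
      (by
        rw [Point.ord_mul _ (pow_ne_zero 5 hf) (zpow_ne_zero _ (t_ne D)), Point.ord_pow, ord_zpow,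
          D.ordP]
        push_cast
        ring)
    omega
  · have h1 : D.Wt (5 * j + -D.Q.ord f) (f ^ 5 * D.t ^ (-D.Q.ord f)) := by
      have := (hwt.pow 5).mul (wt_tpow D (-D.Q.ord f))
      exact_mod_cast this
    have h2 := mod_aux D D.Q (valQ D) (mul_ne_zero (pow_ne_zero 5 hf) (zpow_ne_zero _ (t_ne D))) h1
      (by
        rw [Point.ord_mul _ (pow_ne_zero 5 hf) (zpow_ne_zero _ (t_ne D)), Point.ord_pow, ord_zpow,
          D.ordQ]
        push_cast
        ring)
    omega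

end Pool.Agent.W518.EG
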