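import Pool.Agent.W518.EG.TFlag2

/-!
# Project EG (MP_4f5420_ag): EG-caseA
-/

set_option autoImplicit false

open scoped WithZero Matrix
open IntermediateField
open Pool.Agent.Helper395.CS hiding genus
open Pool.Agent.Helper395.BC

namespace Pool.Agent.W518.EG

variable {K : Type} [Field K] [Algebra ℂ K]

theorem s_caseA : S_caseA := by
  intro K _ _ D d hd κ U hκ hfin hU u huU hu0 hcu hcw
  by_contra hlt
  have h4 : 4 ≤ Module.finrank ℂ U := by omega
  have hbu := (hU u huU).1
  have hbw := (hU u huU).2
  have du := decomp s_comp D.toPre u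
  have dw := decomp s_comp D.toPre (κ * u)
  rw [hcu 1 (by simp), hcu 2 (by simp), hcu (-2) (by simp), hcu (-3) (by simp)] at du
  have hw00 : D.comp 0 (κ * u) = 0 := (WT_comp s_comp D hd hbw 0).o0 s_W hd (by decide)
  rw [hcw 1 (by simp), hcw (-1) (by simp), hcw 2 (by simp), hcw (-2) (by simp),
    hcw (-3) (by simp), hw00] at dw
  have hx3 := VT_comp s_comp D hbu 3
  have hx0 := VT_comp s_comp D hbu 0
  have hxm := VT_comp s_comp D hbu (-1)
  have hw := WT_comp s_comp D hd hbw 3
  have hwe : D.comp 3 (κ * u) = κ * u := by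
    conv_rhs => rw [dw]
    ring
  rw [hwe] at hw
  have hw0 : κ * u ≠ 0 := mul_ne_zero hκ hu0
  set x3 := D.comp 3 u
  set x0 := D.comp 0 u
  set xm := D.comp (-1) u
  have due : u = x3 + x0 + xm := by
    conv_lhs => rw [du]
    ring
  have ox3 := hx3.oj s_V (by simp)
  have ox0 := hx0.o0 s_V
  have oxm := hxm.om s_V
  have ow := hw.oj s_W hd
  obtain ⟨ξ, hξ⟩ : ∃ ξ : ℂ, x0 = algebraMap ℂ K ξ := by
    by_cases h : x0 = 0
    · exact ⟨0, by rw [h, map_zero]⟩
    rcases s_V K D 0 x0 h hx0.wt hx0.bd with ⟨c, hc, h1 | h1 | h1⟩ | ⟨h1, -⟩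
    · exact ⟨c, h1.2⟩
    · omega
    · omega
    · omega
  -- the component equations for all elements of `U`
  have key : ∀ x ∈ U, x0 * D.comp (-1) (κ * x) = 0 ∧ xm * D.comp 1 (κ * x) = 0 ∧
      (∃ y, D.O y (-5) 5 ∧ y * (κ * u) = x3 * D.comp 1 (κ * x) + xm * D.comp (-2) (κ * x)) ∧
      (∃ y, D.O y 5 (-5) ∧ y * (κ * u) = x3 * D.comp (-1) (κ * x) + x0 * D.comp 2 (κ * x)) ∧
      D.comp 2 x * (κ * u) = x3 * D.comp 2 (κ * x) + x0 * D.comp (-2) (κ * x) +
        xm * D.comp (-1) (κ * x) := by
    intro x hx
    have hbx := (hU x hx).1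
    have hbX := (hU x hx).2
    have dx := decomp s_comp D.toPre x
    have dX := decomp s_comp D.toPre (κ * x)
    have hX0 : D.comp 0 (κ * x) = 0 := (WT_comp s_comp D hd hbX 0).o0 s_W hd (by decide)
    rw [hX0] at dX
    have ha0 := VT_comp s_comp D hbx 0
    have ha1 := VT_comp s_comp D hbx 1
    have ha2 := VT_comp s_comp D hbx 2
    have ha3 := VT_comp s_comp D hbx 3
    have hb1 := VT_comp s_comp D hbx (-1)
    have hb2 := VT_comp s_comp D hbx (-2)
    have hb3 := VT_comp s_comp D hbx (-3)
    have hX1 := WT_comp s_comp D hd hbX 1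
    have hX2 := WT_comp s_comp D hd hbX 2
    have hX3 := WT_comp s_comp D hd hbX 3
    have hY1 := WT_comp s_comp D hd hbX (-1)
    have hY2 := WT_comp s_comp D hd hbX (-2)
    have hY3 := WT_comp s_comp D hd hbX (-3)
    have hkey : x * (κ * u) = u * (κ * x) := by ring
    set a0 := D.comp 0 x
    set a1 := D.comp 1 x
    set a2 := D.comp 2 x
    set a3 := D.comp 3 x
    set b1 := D.comp (-1) x
    set b2 := D.comp (-2) x
    set b3 := D.comp (-3) x
    set X1 := D.comp 1 (κ * x)
    set X2 := D.comp 2 (κ * x)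
    set X3 := D.comp 3 (κ * x)
    set Y1 := D.comp (-1) (κ * x)
    set Y2 := D.comp (-2) (κ * x)
    set Y3 := D.comp (-3) (κ * x)
    set w := κ * u
    have key2 : (a0 + a1 + a2 + a3 + b3 + b2 + b1) * w =
        (x3 + x0 + xm) * (0 + X1 + X2 + X3 + Y3 + Y2 + Y1) := by
      rw [← dx, ← dX, ← due]
      exact hkey
    obtain ⟨e0, e1, e2, e3, f1, f2, f3⟩ := split7 s_comp D.toPre
      (e0 := b3 * w - x3 * Y3 - xm * X1)
      (e1 := b2 * w - x3 * Y2 - x0 * X1 - xm * X2)
      (e2 := b1 * w - x3 * Y1 - x0 * X2 - xm * X3)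
      (e3 := a0 * w - x0 * X3 - xm * Y3)
      (f1 := a3 * w - x3 * X3 - x0 * Y1)
      (f2 := a2 * w - x3 * X2 - x0 * Y2 - xm * Y1)
      (f3 := a1 * w - x3 * X1 - x0 * Y3 - xm * Y2)
      ((((hb3.wt.mul hw.wt).congr (by decide)).sub ((hx3.wt.mul hY3.wt).congr (by decide))).sub
        ((hxm.wt.mul hX1.wt).congr (by decide)))
      (((((hb2.wt.mul hw.wt).congr (by decide)).sub ((hx3.wt.mul hY2.wt).congr (by decide))).sub
        ((hx0.wt.mul hX1.wt).congr (by decide))).sub ((hxm.wt.mul hX2.wt).congr (by decide)))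
      (((((hb1.wt.mul hw.wt).congr (by decide)).sub ((hx3.wt.mul hY1.wt).congr (by decide))).sub
        ((hx0.wt.mul hX2.wt).congr (by decide))).sub ((hxm.wt.mul hX3.wt).congr (by decide)))
      ((((ha0.wt.mul hw.wt).congr (by decide)).sub ((hx0.wt.mul hX3.wt).congr (by decide))).sub
        ((hxm.wt.mul hY3.wt).congr (by decide)))
      ((((ha3.wt.mul hw.wt).congr (by decide)).sub ((hx3.wt.mul hX3.wt).congr (by decide))).sub
        ((hx0.wt.mul hY1.wt).congr (by decide)))
      (((((ha2.wt.mul hw.wt).congr (by decide)).sub ((hx3.wt.mul hX2.wt).congr (by decide))).sub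
        ((hx0.wt.mul hY2.wt).congr (by decide))).sub ((hxm.wt.mul hY1.wt).congr (by decide)))
      (((((ha1.wt.mul hw.wt).congr (by decide)).sub ((hx3.wt.mul hX1.wt).congr (by decide))).sub
        ((hx0.wt.mul hY3.wt).congr (by decide))).sub ((hxm.wt.mul hY2.wt).congr (by decide)))
      (by linear_combination key2)
    -- proportionality
    obtain ⟨β, hβ⟩ := s_W1 K D d hd 3 X3 w hw0 hX3.wt hw.wt hX3.bd hw.bd
    have htw := WT_tw hd hw
    obtain ⟨γ, hγ⟩ := s_W1 K D d hd (-3) Y3 (D.t * w) (mul_ne_zero (t_ne D.toPre) hw0) hY3.wt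
      htw.wt hY3.bd htw.bd
    have oX1 := hX1.oj s_W hd
    have oY1 := hY1.oj s_W hd
    refine ⟨?_, ?_, ⟨a1 - (γ * ξ) • D.t, ?_, ?_⟩, ⟨b1 - β • xm, ?_, ?_⟩, ?_⟩
    · by_contra h
      have h1 : (a3 - β • x3) * w = x0 * Y1 := by
        rw [hβ] at f1
        rw [Algebra.smul_def] at f1 ⊢
        linear_combination f1
      have h2 := (ha3.sub_smul hx3 β).oj s_V (by simp)
      have h3 : (a3 - β • x3) * w ≠ 0 := by rw [h1]; exact h
      exact dom1 (v := D.Q) h1 ((h2.mul ow).ltQ h3 (ox0.mul oY1) (by decide))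
    · by_contra h
      have h1 : (b3 - γ • (D.t * x3)) * w = xm * X1 := by
        rw [hγ] at e0
        rw [Algebra.smul_def] at e0 ⊢
        linear_combination e0
      have h2 := (hb3.sub_smul (VT_tx hx3) γ).oj s_V (by simp)
      have h3 : (b3 - γ • (D.t * x3)) * w ≠ 0 := by rw [h1]; exact h
      exact dom1 (v := D.P) h1 ((h2.mul ow).ltP h3 (oxm.mul oX1) (by decide))
    · exact (ha1.sub_smul (VT_t D) _).o1 s_V
    · rw [hγ, hξ] at f3
      rw [Algebra.smul_def, map_mul]
      rw [Algebra.smul_def] at f3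
      linear_combination f3
    · exact (hb1.sub_smul hxm β).om s_V
    · rw [hβ] at e2
      rw [Algebra.smul_def] at e2 ⊢
      linear_combination e2
    · linear_combination f2
  -- finish: three components vanish on `κ U`
  have oX : ∀ x ∈ U, ∀ j, D.O (D.comp j (κ * x)) (7 + aexp j) (-aexp j) := fun x hx j =>
    (WT_comp s_comp D hd (hU x hx).2 j).oj s_W hd
  have fin : ∀ i : ℤ, (∀ x ∈ U, ∀ j : ℤ, (j = 1 ∨ j = -1 ∨ j = 2 ∨ j = -2) → j ≠ i →
      D.comp j (κ * x) = 0) → False := by
    intro i hi
    obtain ⟨x, hx, hx0, a1, a2, a3⟩ := exists_three hfin h4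
      (rk_W D hd κ i U fun u hu => (hU u hu).2) (rk_W D hd κ 3 U fun u hu => (hU u hu).2)
      (rk_W D hd κ (-3) U fun u hu => (hU u hu).2)
    rw [mulComp_apply] at a1 a2 a3
    have hall : ∀ j : ℤ, (j = 1 ∨ j = -1 ∨ j = 2 ∨ j = -2) → D.comp j (κ * x) = 0 := by
      intro j hj
      by_cases h : j = i
      · rw [h]; exact a1
      · exact hi x hx j hj h
    have dX := decomp s_comp D.toPre (κ * x)
    have hX0 : D.comp 0 (κ * x) = 0 :=
      (WT_comp s_comp D hd (hU x hx).2 0).o0 s_W hd (by decide)
    rw [hX0, hall 1 (by simp), hall (-1) (by simp), hall 2 (by simp), hall (-2) (by simp), a2,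
      a3] at dX
    exact mul_ne_zero hκ hx0 (by simpa using dX)
  by_cases h3 : x3 = 0
  · by_cases h0 : x0 = 0
    · by_cases hm : xm = 0
      · apply hu0
        rw [due, h3, h0, hm]; simp
      · -- only xm: X1 = 0, X_{-2} = 0, X_{-1} = 0
        refine fin 2 ?_
        intro x hx
        obtain ⟨k1, k2, ⟨y, hy, k3⟩, -, k5⟩ := key x hx
        have z1 : D.comp 1 (κ * x) = 0 := (mul_eq_zero.1 k2).resolve_left hm
        have z2 : D.comp (-2) (κ * x) = 0 := by
          by_contra hne
          have h5 : xm * D.comp (-2) (κ * x) = y * (κ * u) := by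
            rw [h3] at k3; linear_combination -k3
          exact dom1 (v := D.Q) h5 ((oxm.mul (oX x hx (-2))).ltQ (mul_ne_zero hm hne)
            (hy.mul ow) (by decide))
        have z3 : D.comp (-1) (κ * x) = 0 := by
          by_contra hne
          have h5 : D.comp 2 x * (κ * u) = xm * D.comp (-1) (κ * x) := by
            rw [h3, h0] at k5; linear_combination k5
          have h6 : D.comp 2 x * (κ * u) ≠ 0 := by rw [h5]; exact mul_ne_zero hm hne
          exact dom1 (v := D.P) h5
            ((((VT_comp s_comp D (hU x hx).1 2).oj s_V (by simp)).mul ow).ltP h6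
            (oxm.mul (oX x hx (-1))) (by decide))
        rintro j (rfl | rfl | rfl | rfl) hj
        · exact z1
        · exact z3
        · exact absurd rfl hj
        · exact z2
    · by_cases hm : xm = 0
      · -- only x0: X_{-1} = 0, X_2 = 0, X_{-2} = 0
        refine fin 1 ?_
        intro x hx
        obtain ⟨k1, k2, -, ⟨y, hy, k4⟩, k5⟩ := key x hx
        have z1 : D.comp (-1) (κ * x) = 0 := (mul_eq_zero.1 k1).resolve_left h0
        have z2 : D.comp 2 (κ * x) = 0 := by
          by_contra hne
          have h5 : x0 * D.comp 2 (κ * x) = y * (κ * u) := by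
            rw [h3] at k4; linear_combination -k4
          exact dom1 (v := D.P) h5 ((ox0.mul (oX x hx 2)).ltP (mul_ne_zero h0 hne)
            (hy.mul ow) (by decide))
        have z3 : D.comp (-2) (κ * x) = 0 := by
          by_contra hne
          have h5 : D.comp 2 x * (κ * u) = x0 * D.comp (-2) (κ * x) := by
            rw [h3, hm] at k5; linear_combination k5
          have h6 : D.comp 2 x * (κ * u) ≠ 0 := by rw [h5]; exact mul_ne_zero h0 hne
          exact dom1 (v := D.Q) h5
            ((((VT_comp s_comp D (hU x hx).1 2).oj s_V (by simp)).mul ow).ltQ h6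
            (ox0.mul (oX x hx (-2))) (by decide))
        rintro j (rfl | rfl | rfl | rfl) hj
        · exact absurd rfl hj
        · exact z1
        · exact z2
        · exact z3
      · -- x0, xm
        refine fin 2 ?_
        intro x hx
        obtain ⟨k1, k2, ⟨y, hy, k3⟩, -, k5⟩ := key x hx
        have z0 : D.comp (-1) (κ * x) = 0 := (mul_eq_zero.1 k1).resolve_left h0
        have z1 : D.comp 1 (κ * x) = 0 := (mul_eq_zero.1 k2).resolve_left hm
        have z2 : D.comp (-2) (κ * x) = 0 := by
          by_contra hne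
          have h5 : xm * D.comp (-2) (κ * x) = y * (κ * u) := by
            rw [z1] at k3; linear_combination -k3
          exact dom1 (v := D.Q) h5 ((oxm.mul (oX x hx (-2))).ltQ (mul_ne_zero hm hne)
            (hy.mul ow) (by decide))
        rintro j (rfl | rfl | rfl | rfl) hj
        · exact z1
        · exact z0
        · exact absurd rfl hj
        · exact z2
  · by_cases h0 : x0 = 0
    · by_cases hm : xm = 0
      · -- only x3
        refine fin (-2) ?_
        intro x hx
        obtain ⟨k1, k2, ⟨y, hy, k3⟩, ⟨y', hy', k4⟩, k5⟩ := key x hx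
        have z1 : D.comp 1 (κ * x) = 0 := by
          by_contra hne
          have h5 : x3 * D.comp 1 (κ * x) = y * (κ * u) := by
            rw [hm] at k3; linear_combination -k3
          exact dom1 (v := D.Q) h5 ((ox3.mul (oX x hx 1)).ltQ (mul_ne_zero h3 hne)
            (hy.mul ow) (by decide))
        have z2 : D.comp (-1) (κ * x) = 0 := by
          by_contra hne
          have h5 : x3 * D.comp (-1) (κ * x) = y' * (κ * u) := by
            rw [h0] at k4; linear_combination -k4
          exact dom1 (v := D.P) h5 ((ox3.mul (oX x hx (-1))).ltP (mul_ne_zero h3 hne)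
            (hy'.mul ow) (by decide))
        have z3 : D.comp 2 (κ * x) = 0 := by
          by_contra hne
          have h5 : D.comp 2 x * (κ * u) = x3 * D.comp 2 (κ * x) := by
            rw [h0, hm] at k5; linear_combination k5
          have h6 : D.comp 2 x * (κ * u) ≠ 0 := by rw [h5]; exact mul_ne_zero h3 hne
          have ha := VT_comp s_comp D (hU x hx).1 2
          have hX := WT_comp s_comp D hd (hU x hx).2 2
          exact s_two K D d hd 2 3 3 2 (D.comp 2 x) (κ * u) x3 (D.comp 2 (κ * x)) (by simp)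
            (by simp) (by norm_num) (by norm_num) (by norm_num) (Or.inl rfl)
            (left_ne_zero_of_mul h6) hw0 h3 hne ha.wt hw.wt hx3.wt hX.wt ha.bd hx3.bd hw.bd
            hX.bd h5
        rintro j (rfl | rfl | rfl | rfl) hj
        · exact z1
        · exact z2
        · exact z3
        · exact absurd rfl hj
      · -- x3, xm
        refine fin 2 ?_
        intro x hx
        obtain ⟨k1, k2, ⟨y, hy, k3⟩, ⟨y', hy', k4⟩, k5⟩ := key x hx
        have z1 : D.comp 1 (κ * x) = 0 := (mul_eq_zero.1 k2).resolve_left hm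
        have z2 : D.comp (-2) (κ * x) = 0 := by
          by_contra hne
          have h5 : xm * D.comp (-2) (κ * x) = y * (κ * u) := by
            rw [z1] at k3; linear_combination -k3
          exact dom1 (v := D.Q) h5 ((oxm.mul (oX x hx (-2))).ltQ (mul_ne_zero hm hne)
            (hy.mul ow) (by decide))
        have z3 : D.comp (-1) (κ * x) = 0 := by
          by_contra hne
          have h5 : x3 * D.comp (-1) (κ * x) = y' * (κ * u) := by
            rw [h0] at k4; linear_combination -k4
          exact dom1 (v := D.P) h5 ((ox3.mul (oX x hx (-1))).ltP (mul_ne_zero h3 hne)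
            (hy'.mul ow) (by decide))
        rintro j (rfl | rfl | rfl | rfl) hj
        · exact z1
        · exact z3
        · exact absurd rfl hj
        · exact z2
    · by_cases hm : xm = 0
      · -- x3, x0
        refine fin (-2) ?_
        intro x hx
        obtain ⟨k1, k2, ⟨y, hy, k3⟩, ⟨y', hy', k4⟩, k5⟩ := key x hx
        have z1 : D.comp (-1) (κ * x) = 0 := (mul_eq_zero.1 k1).resolve_left h0
        have z2 : D.comp 1 (κ * x) = 0 := by
          by_contra hne
          have h5 : x3 * D.comp 1 (κ * x) = y * (κ * u) := by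
            rw [hm] at k3; linear_combination -k3
          exact dom1 (v := D.Q) h5 ((ox3.mul (oX x hx 1)).ltQ (mul_ne_zero h3 hne)
            (hy.mul ow) (by decide))
        have z3 : D.comp 2 (κ * x) = 0 := by
          by_contra hne
          have h5 : x0 * D.comp 2 (κ * x) = y' * (κ * u) := by
            rw [z1] at k4; linear_combination -k4
          exact dom1 (v := D.P) h5 ((ox0.mul (oX x hx 2)).ltP (mul_ne_zero h0 hne)
            (hy'.mul ow) (by decide))
        rintro j (rfl | rfl | rfl | rfl) hj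
        · exact z2
        · exact z1
        · exact z3
        · exact absurd rfl hj
      · -- all three
        refine fin 2 ?_
        intro x hx
        obtain ⟨k1, k2, ⟨y, hy, k3⟩, -, k5⟩ := key x hx
        have z0 : D.comp (-1) (κ * x) = 0 := (mul_eq_zero.1 k1).resolve_left h0
        have z1 : D.comp 1 (κ * x) = 0 := (mul_eq_zero.1 k2).resolve_left hm
        have z2 : D.comp (-2) (κ * x) = 0 := by
          by_contra hne
          have h5 : xm * D.comp (-2) (κ * x) = y * (κ * u) := by
            rw [z1] at k3; linear_combination -k3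
          exact dom1 (v := D.Q) h5 ((oxm.mul (oX x hx (-2))).ltQ (mul_ne_zero hm hne)
            (hy.mul ow) (by decide))
        rintro j (rfl | rfl | rfl | rfl) hj
        · exact z1
        · exact z0
        · exact absurd rfl hj
        · exact z2

end Pool.Agent.W518.EG
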