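import Pool.Agent.W518.EG.T0

/-!
# Project EG (MP_4f5420_ag): the calculus of isotypic components
-/

set_option autoImplicit false

open scoped WithZero Matrix
open IntermediateField
open Pool.Agent.Helper395.CS hiding genus
open Pool.Agent.Helper395.BC

namespace Pool.Agent.W518.EG

variable {K : Type} [Field K] [Algebra ℂ K]

theorem comp_apply (D : Pre K) (j : ℤ) (f : K) : D.comp j f =
    (7 : ℂ)⁻¹ • ∑ i ∈ Finset.range 7, (D.ζ ^ (-(j * i))) • ((D.ρ ^ i) f) := by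
  unfold Pre.comp
  rw [LinearMap.smul_apply, LinearMap.sum_apply]
  rfl

theorem zeta7 (D : Pre K) (k : ℤ) : D.ζ ^ (7 * k) = 1 := by
  rw [zpow_mul]
  have h7 : D.ζ ^ (7 : ℤ) = 1 := by exact_mod_cast D.prim.pow_eq_one
  rw [h7, one_zpow]

theorem zeta_congr (D : Pre K) {j k : ℤ} (h : (7 : ℤ) ∣ j - k) : D.ζ ^ j = D.ζ ^ k := by
  obtain ⟨m, hm⟩ := h
  rw [show j = k + 7 * m by omega, zpow_add₀ D.zeta_ne, zeta7, mul_one]

theorem zeta_ne_one (D : Pre K) {k : ℤ} (h : ¬ (7 : ℤ) ∣ k) : D.ζ ^ k ≠ 1 := by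
  intro h1
  exact h (by exact_mod_cast (D.prim.zpow_eq_one_iff_dvd k).1 h1)

theorem geom7 (D : Pre K) {k : ℤ} (h : ¬ (7 : ℤ) ∣ k) :
    ∑ i ∈ Finset.range 7, (D.ζ ^ k) ^ i = 0 := by
  have h1 := geom_sum_mul (D.ζ ^ k) 7
  have h2 : (D.ζ ^ k) ^ 7 = 1 := by
    have := zeta7 D k
    rw [mul_comm, zpow_mul] at this
    exact_mod_cast this
  rw [h2, sub_self] at h1
  rcases mul_eq_zero.1 h1 with h3 | h3
  · exact h3
  · exact absurd (sub_eq_zero.1 h3) (zeta_ne_one D h)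

theorem rho_pow_apply (D : Pre K) {k : ℤ} {f : K} (hf : D.Wt k f) (i : ℕ) :
    (D.ρ ^ i) f = (D.ζ ^ (k * i)) • f := by
  induction i with
  | zero => simp
  | succ i ih =>
    rw [pow_succ', AlgEquiv.mul_apply, ih, map_smul, hf, smul_smul, ← zpow_add₀ D.zeta_ne]
    congr 2
    push_cast
    ring

theorem comp_wt_aux (D : Pre K) (j k : ℤ) {f : K} (hf : D.Wt k f) : D.comp j f =
    ((7 : ℂ)⁻¹ * ∑ i ∈ Finset.range 7, (D.ζ ^ (k - j)) ^ i) • f := by
  rw [comp_apply, ← smul_smul, Finset.sum_smul]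
  congr 1
  refine Finset.sum_congr rfl fun i _ => ?_
  rw [rho_pow_apply D hf, smul_smul, ← zpow_add₀ D.zeta_ne]
  congr 1
  rw [← zpow_natCast, ← zpow_mul]
  congr 1
  ring

theorem ord_add_ge (v : Point K) {a b : K} (ha : a ≠ 0) (hb : b ≠ 0) (h : a + b ≠ 0) :
    min (v.ord a) (v.ord b) ≤ v.ord (a + b) := by
  have h1 := v.val.map_add a b
  rw [v.val_eq_exp h, v.val_eq_exp ha, v.val_eq_exp hb, le_max_iff, WithZero.exp_le_exp,
    WithZero.exp_le_exp] at h1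
  omega

theorem Bd_add (D : Pre K) {δ f g : K} (hf : D.Bd δ f) (hg : D.Bd δ g) : D.Bd δ (f + g) := by
  by_cases h : f + g = 0
  · exact Or.inl h
  rcases hf with rfl | ⟨f1, f2, f3⟩
  · rw [zero_add]; exact hg
  rcases hg with rfl | ⟨g1, g2, g3⟩
  · rw [add_zero]; exact Or.inr ⟨f1, f2, f3⟩
  by_cases hf0 : f = 0
  · rw [hf0, zero_add]; exact Or.inr ⟨g1, g2, g3⟩
  by_cases hg0 : g = 0
  · rw [hg0, add_zero]; exact Or.inr ⟨f1, f2, f3⟩
  refine Or.inr ⟨?_, ?_, fun v hv hv' => ?_⟩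
  · have := ord_add_ge D.P hf0 hg0 h
    omega
  · have := ord_add_ge D.Q hf0 hg0 h
    omega
  · have := ord_add_ge v hf0 hg0 h
    have h1 := f3 v hv hv'
    have h2 := g3 v hv hv'
    omega

theorem Bd_smul (D : Pre K) {δ f : K} (c : ℂ) (hf : D.Bd δ f) : D.Bd δ (c • f) := by
  by_cases hc : c = 0
  · rw [hc, zero_smul]; exact Or.inl rfl
  rcases hf with rfl | ⟨f1, f2, f3⟩
  · rw [smul_zero]; exact Or.inl rfl
  refine Or.inr ⟨?_, ?_, fun v hv hv' => ?_⟩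
  · rw [ord_smul' _ hc]; exact f1
  · rw [ord_smul' _ hc]; exact f2
  · rw [ord_smul' _ hc]; exact f3 v hv hv'

theorem Bd_rho (D : Pre K) {δ f : K} (hδ : D.ρ δ = δ) (hf : D.Bd δ f) : D.Bd δ (D.ρ f) := by
  rcases hf with rfl | ⟨f1, f2, f3⟩
  · rw [map_zero]; exact Or.inl rfl
  obtain ⟨h1, h2, h3⟩ := s_0 K D
  refine Or.inr ⟨?_, ?_, fun v hv hv' => ?_⟩
  · rw [h1]; exact f1
  · rw [h2]; exact f2
  · have h4 := f3 (v.comap D.ρ) (h3 v hv hv').1 (h3 v hv hv').2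
    rw [Point.comap_ord, Point.comap_ord, hδ] at h4
    exact h4

theorem Bd_rho_pow (D : Pre K) {δ f : K} (hδ : D.ρ δ = δ) (hf : D.Bd δ f) (i : ℕ) :
    D.Bd δ ((D.ρ ^ i) f) := by
  induction i with
  | zero => exact hf
  | succ i ih =>
    rw [pow_succ', AlgEquiv.mul_apply]
    exact Bd_rho D hδ ih

theorem s_comp : S_comp := by
  intro K _ _ D
  refine ⟨fun j f => ?_, fun f => ?_, fun j k f hf h => ?_, fun j k f hf h => ?_,
    fun j k f h => ?_, fun δ _ f g hf hg => Bd_add D hf hg, fun δ f c hf => Bd_smul D c hf,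
    fun δ _ hδ f j hf => ?_⟩
  · unfold Pre.Wt
    have h7 : (D.ρ ^ 7) f = f := by rw [D.rho_pow]; rfl
    have key : ∀ i : ℕ, D.ρ ((D.ζ ^ (-(j * i))) • ((D.ρ ^ i) f)) =
        D.ζ ^ j • (D.ζ ^ (-(j * ((i + 1 : ℕ) : ℤ))) • ((D.ρ ^ (i + 1)) f)) := by
      intro i
      rw [map_smul, smul_smul, ← zpow_add₀ D.zeta_ne, pow_succ', AlgEquiv.mul_apply]
      congr 2
      push_cast
      ring
    have hshift : ∑ i ∈ Finset.range 7, (D.ζ ^ (-(j * ((i + 1 : ℕ) : ℤ))) • ((D.ρ ^ (i + 1)) f)) =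
        ∑ i ∈ Finset.range 7, (D.ζ ^ (-(j * (i : ℤ))) • ((D.ρ ^ i) f)) := by
      rw [Finset.sum_range_succ, Finset.sum_range_succ' (fun i : ℕ =>
        (D.ζ ^ (-(j * (i : ℤ))) • ((D.ρ ^ i) f))) 6]
      congr 1
      rw [h7]
      have : D.ζ ^ (-(j * ((6 + 1 : ℕ) : ℤ))) = 1 := by
        rw [show (-(j * ((6 + 1 : ℕ) : ℤ))) = 7 * (-j) by push_cast; ring, zeta7]
      rw [this]
      simp
    calc D.ρ (D.comp j f) = (7 : ℂ)⁻¹ • ∑ i ∈ Finset.range 7,
          D.ρ ((D.ζ ^ (-(j * i))) • ((D.ρ ^ i) f)) := by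
          rw [comp_apply, map_smul, map_sum]
      _ = (7 : ℂ)⁻¹ • ∑ i ∈ Finset.range 7, D.ζ ^ j •
          (D.ζ ^ (-(j * ((i + 1 : ℕ) : ℤ))) • ((D.ρ ^ (i + 1)) f)) := by
          rw [Finset.sum_congr rfl fun i _ => key i]
      _ = D.ζ ^ j • D.comp j f := by
          rw [← Finset.smul_sum, hshift, smul_comm, comp_apply]
  · simp only [comp_apply]
    rw [← Finset.smul_sum, Finset.sum_comm]
    rw [Finset.sum_eq_single 0]
    · have h0 : ∀ x ∈ Finset.range 7, D.ζ ^ (-((x : ℤ) * ((0 : ℕ) : ℤ))) • ((D.ρ ^ 0) f) = f := by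
        intro x _
        simp
      rw [Finset.sum_congr rfl h0, Finset.sum_const, Finset.card_range,
        ← Nat.cast_smul_eq_nsmul ℂ, smul_smul]
      norm_num
    · intro i hi hi0
      rw [← Finset.sum_smul]
      have h : ∑ x ∈ Finset.range 7, D.ζ ^ (-((x : ℤ) * (i : ℤ))) = 0 := by
        rw [← geom7 D (k := -(i : ℤ)) (by
          rw [Finset.mem_range] at hi
          omega)]
        refine Finset.sum_congr rfl fun x _ => ?_
        rw [← zpow_natCast, ← zpow_mul]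
        congr 1
        ring
      rw [h, zero_smul]
    · intro h
      exact absurd (Finset.mem_range.2 (by norm_num)) h
  · rw [comp_wt_aux D j k hf]
    have h1 : D.ζ ^ (k - j) = 1 := by
      rw [zeta_congr D (j := k - j) (k := 0) (by omega), zpow_zero]
    rw [h1]
    simp
  · rw [comp_wt_aux D j k hf, geom7 D (by omega), mul_zero, zero_smul]
  · rw [comp_apply, comp_apply]
    congr 1
    refine Finset.sum_congr rfl fun i _ => ?_
    congr 1
    refine zeta_congr D ?_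
    have : -(j * (i : ℤ)) - -(k * (i : ℤ)) = (j - k) * (-(i : ℤ)) := by ring
    rw [this]
    exact Dvd.dvd.mul_right h _
  · rw [comp_apply]
    refine Bd_smul D _ ?_
    simp only [Finset.sum_range_succ, Finset.sum_range_zero, zero_add]
    exact Bd_add D (Bd_add D (Bd_add D (Bd_add D (Bd_add D (Bd_add D
      (Bd_smul D _ (Bd_rho_pow D hδ hf 0)) (Bd_smul D _ (Bd_rho_pow D hδ hf 1)))
      (Bd_smul D _ (Bd_rho_pow D hδ hf 2))) (Bd_smul D _ (Bd_rho_pow D hδ hf 3)))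
      (Bd_smul D _ (Bd_rho_pow D hδ hf 4))) (Bd_smul D _ (Bd_rho_pow D hδ hf 5)))
      (Bd_smul D _ (Bd_rho_pow D hδ hf 6))

end Pool.Agent.W518.EG
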