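import Pool.Agent.W518.EG.TComp

/-!
# Project EG (MP_4f5420_ag): degrees and divisors of invariant functions
-/

set_option autoImplicit false

open scoped WithZero Matrix
open IntermediateField
open Pool.Agent.Helper395.CS hiding genus
open Pool.Agent.Helper395.BC

namespace Pool.Agent.W518.EG

variable {K : Type} [Field K] [Algebra ℂ K]

theorem rho_fix (D : Pre K) {f : K} (hf : D.ρ f = f) {z : K} (hz : z ∈ ℂ⟮f⟯) : D.ρ z = z := by
  induction hz using IntermediateField.adjoin_induction with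
  | mem x hx =>
    rw [Set.mem_singleton_iff] at hx
    rw [hx, hf]
  | algebraMap c => exact D.ρ.commutes c
  | add x y _ _ hx hy => rw [map_add, hx, hy]
  | inv x _ hx => rw [map_inv₀, hx]
  | mul x y _ _ hx hy => rw [map_mul, hx, hy]

/-- `ρ` as an automorphism over `ℂ(f)` -/
noncomputable def rhoOver (D : Pre K) {f : K} (hf : D.ρ f = f) : K ≃ₐ[ℂ⟮f⟯] K :=
  AlgEquiv.ofRingEquiv (f := D.ρ.toRingEquiv) (fun x => rho_fix D hf x.2)

theorem rhoOver_apply (D : Pre K) {f : K} (hf : D.ρ f = f) (z : K) : rhoOver D hf z = D.ρ z := rfl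

theorem rhoOver_pow (D : Pre K) {f : K} (hf : D.ρ f = f) (n : ℕ) (z : K) :
    (rhoOver D hf ^ n) z = (D.ρ ^ n) z := by
  induction n with
  | zero => rfl
  | succ n ih => rw [pow_succ', pow_succ', AlgEquiv.mul_apply, AlgEquiv.mul_apply, ih, rhoOver_apply]

theorem s_D7 : S_D7 := by
  intro K _ _ D f hf
  by_cases ht : Transcendental ℂ f
  · have h1 := degZ_eq D.curve ht
    rw [degZ_eq_degP D.curve] at h1
    rw [h1]
    have hfin := D.curve.finiteDimensional ht
    have h7 : rhoOver D hf ^ 7 = 1 := by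
      ext z
      rw [rhoOver_pow, D.rho_pow]
      rfl
    have hne : rhoOver D hf ≠ 1 := by
      intro h
      have h2 : rhoOver D hf D.t = D.t := by rw [h]; rfl
      rw [rhoOver_apply, D.rho_t] at h2
      have h3 : (D.ζ - 1) • D.t = 0 := by rw [sub_smul, one_smul, h2, sub_self]
      rcases smul_eq_zero.1 h3 with h4 | h4
      · have := zeta_ne_one D (k := 1) (by norm_num)
        rw [zpow_one] at this
        exact this (sub_eq_zero.1 h4)
      · exact t_ne D h4
    have hp : Fact (Nat.Prime 7) := ⟨by norm_num⟩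
    have hord : orderOf (rhoOver D hf) = 7 :=
      orderOf_eq_prime h7 hne
    have h2 := IntermediateField.finrank_fixedField_eq_card
      (Subgroup.zpowers (rhoOver D hf))
    rw [Nat.card_zpowers, hord] at h2
    have h3 := Module.finrank_mul_finrank ℂ⟮f⟯
      (IntermediateField.fixedField (Subgroup.zpowers (rhoOver D hf))) K
    rw [h2] at h3
    rw [← h3]
    push_cast
    exact Dvd.intro_left _ rfl
  · obtain ⟨c, rfl⟩ := exists_const ht
    have : degP (algebraMap ℂ K c) = 0 := by simp [degP, Point.ord_const]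
    rw [this]
    exact dvd_zero _

theorem sum_PQ (D : Pre K) (g : Point K → ℤ) (h : ∀ v, v ≠ D.P → v ≠ D.Q → g v = 0) :
    ∑ᶠ v : Point K, g v = g D.P + g D.Q := by
  classical
  rw [finsum_eq_sum_of_support_subset (s := {D.P, D.Q})]
  · rw [Finset.sum_pair D.ne]
  · intro v hv
    by_contra hcon
    simp only [Finset.coe_insert, Finset.coe_singleton, Set.mem_insert_iff,
      Set.mem_singleton_iff, not_or] at hcon
    exact hv (h v hcon.1 hcon.2)

theorem trans_of_ord {f : K} {v : Point K} (h : v.ord f ≠ 0) : Transcendental ℂ f := by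
  by_contra hcon
  obtain ⟨c, rfl⟩ := exists_const hcon
  exact h (Point.ord_const _ _)

theorem no_seven (D : Dat K) {h : K} (hρ : D.ρ h = h)
    (hv : ∀ v, v ≠ D.P → v ≠ D.Q → v.ord h = 0) (h7 : D.P.ord h = 7 ∨ D.P.ord h = -7) : False := by
  have h1 := sum_ord D.curve h
  rw [sum_PQ D.toPre _ hv] at h1
  have ht : Transcendental ℂ h := trans_of_ord (v := D.P) (by omega)
  have h2 := D.nr h hρ ht
  have h3 : degP h = max (-D.P.ord h) 0 + max (-D.Q.ord h) 0 := by
    rw [degP, sum_PQ D.toPre (fun v => max (-v.ord h) 0)]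
    intro v hP hQ
    rw [hv v hP hQ]
    rfl
  omega

theorem s_ORD : S_ORD := by
  intro K _ _ D f hf hρ hv
  have hwt : D.Wt 0 f := by
    unfold Pre.Wt
    rw [hρ, zpow_zero, one_smul]
  have h7 := (s_mod K D.toPre 0 f hf hwt).1
  by_contra h35
  have ht7 : D.ρ (D.t ^ 7) = D.t ^ 7 := by
    have h1 := (wt_t D.toPre).pow 7
    unfold Pre.Wt at h1
    rw [h1]
    have h2 : D.ζ ^ (((7 : ℕ) : ℤ) * 1) = 1 := by
      have := zeta7 D.toPre 1
      exact_mod_cast this
    rw [h2, one_smul]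
  have htz : ∀ a : ℤ, D.ρ ((D.t ^ 7) ^ a) = (D.t ^ 7) ^ a := fun a => by rw [map_zpow₀, ht7]
  have ht0 := t_ne D.toPre
  have key : ∀ (n : ℕ) (a : ℤ), n ≠ 0 →
      (n * D.P.ord f - 35 * a = 7 ∨ n * D.P.ord f - 35 * a = -7) → False := by
    intro n a hn h
    have hfn : f ^ n ≠ 0 := pow_ne_zero n hf
    have hta : (D.t ^ 7) ^ a ≠ 0 := zpow_ne_zero a (pow_ne_zero 7 ht0)
    refine no_seven D (h := f ^ n * (D.t ^ 7) ^ a) ?_ ?_ ?_
    · rw [map_mul, map_pow, hρ, htz]
    · intro v hP hQ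
      rw [v.ord_mul hfn hta, v.ord_pow, ord_zpow, v.ord_pow, hv v hP hQ, D.ord v hP hQ]
      ring
    · rw [Point.ord_mul _ hfn hta, Point.ord_pow, ord_zpow, Point.ord_pow, D.ordP]
      push_cast
      rcases h with h | h
      · left; rw [← h]; ring
      · right; rw [← h]; ring
  obtain ⟨c, hc⟩ := h7
  have hc' : D.P.ord f = 7 * c := by omega
  have h5 : c % 5 = 0 ∨ c % 5 = 1 ∨ c % 5 = 2 ∨ c % 5 = 3 ∨ c % 5 = 4 := by omega
  rcases h5 with h5 | h5 | h5 | h5 | h5
  · exact h35 (by omega)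
  · exact key 1 (c / 5) one_ne_zero (Or.inl (by push_cast; omega))
  · exact key 2 (2 * (c / 5) + 1) two_ne_zero (Or.inr (by push_cast; omega))
  · exact key 2 (2 * (c / 5) + 1) two_ne_zero (Or.inl (by push_cast; omega))
  · exact key 1 (c / 5 + 1) one_ne_zero (Or.inr (by push_cast; omega))

end Pool.Agent.W518.EG
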