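import Pool.Agent.W518.EG.TV

/-!
# Project EG (MP_4f5420_ag): products of semi-invariant functions
-/

set_option autoImplicit false

open scoped WithZero Matrix
open IntermediateField
open Pool.Agent.Helper395.CS hiding genus
open Pool.Agent.Helper395.BC

namespace Pool.Agent.W518.EG

variable {K : Type} [Field K] [Algebra ℂ K]

theorem R_smul (D : Pre K) (n : ℤ) (g : Point K → ℤ) : D.R (fun v => n * g v) = n * D.R g := by
  unfold Pre.R
  rw [mul_finsum]
  refine finsum_congr fun v => ?_
  classical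
  unfold Pre.off
  split_ifs
  · simp
  · rfl

theorem R_sub (D : Pre K) {g h : Point K → ℤ} (hg : (Function.support g).Finite)
    (hh : (Function.support h).Finite) : D.R (fun v => g v - h v) = D.R g - D.R h := by
  have h1 : (Function.support fun v => g v - h v).Finite := by
    refine (hg.union hh).subset fun v hv => ?_
    by_contra hcon
    simp only [Set.mem_union, Function.mem_support, not_or, not_not] at hcon
    exact hv (by change g v - h v = 0; rw [hcon.1, hcon.2, sub_zero])
  have e1 := sum_rest D hg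
  have e2 := sum_rest D hh
  have e3 := sum_rest D h1
  have e4 : ∑ᶠ v, (g v - h v) = ∑ᶠ v, g v - ∑ᶠ v, h v := finsum_sub_distrib hg hh
  rw [e4, e1, e2] at e3
  linarith

theorem R_congr (D : Pre K) {g h : Point K → ℤ} (hgh : ∀ v, v ≠ D.P → v ≠ D.Q → g v = h v) :
    D.R g = D.R h := by
  unfold Pre.R
  refine finsum_congr fun v => ?_
  classical
  unfold Pre.off
  split_ifs with h1
  · rfl
  · rw [not_or] at h1
    exact hgh v h1.1 h1.2

theorem V_data (D : Dat K) {j : ℤ} (hj : j = 2 ∨ j = -2 ∨ j = 3 ∨ j = -3) {a : K} (ha : a ≠ 0)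
    (hw : D.Wt j a) (hb : D.Bd 1 a) : D.P.ord a = aexp j ∧ D.Q.ord a = -7 - aexp j ∧
    (∀ v, v ≠ D.P → v ≠ D.Q → 0 ≤ v.ord a) ∧ D.R (fun v => v.ord a) = 7 := by
  have h1 : D.P.ord a = aexp j ∧ D.Q.ord a = -7 - aexp j := by
    rcases s_V K D j a ha hw hb with ⟨c, hc, h1 | h1 | h1⟩ | ⟨h1, h2⟩
    · omega
    · omega
    · omega
    · exact h2
  refine ⟨h1.1, h1.2, ?_, ?_⟩
  · rcases hb with h | ⟨-, -, hv⟩
    · exact absurd h ha
    intro v h2 h3
    have := hv v h2 h3
    rw [Point.ord_one] at this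
    omega
  · have := ord_sum D.toPre a
    omega

theorem s_two : S_two := by
  intro K _ _ D d hd j k l m a b c e hj hl hjl h33 h33' hk ha hb hc he wa wb wc we ba bc bb be heq
  obtain ⟨a1, a2, a3, a4⟩ := V_data D hj ha wa ba
  obtain ⟨c1, c2, c3, c4⟩ := V_data D hl hc wc bc
  obtain ⟨-, b1, b2⟩ := s_W K D d hd k b hb wb bb
  have hdP : D.P.ord d = -14 := hd.ordP
  have hdQ : D.Q.ord d = -14 := hd.ordQ
  have ht0 := t_ne D.toPre
  set G : K := b * c⁻¹ with hG
  have hG0 : G ≠ 0 := mul_ne_zero hb (inv_ne_zero hc)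
  have hG' : G = e * a⁻¹ := by
    rw [hG]
    field_simp
    linear_combination heq
  have wG : D.Wt (k - l) G := by
    have := wb.mul wc.inv
    rwa [← sub_eq_add_neg] at this
  have oG : ∀ v : Point K, v.ord G = v.ord b - v.ord c := by
    intro v
    rw [hG, v.ord_mul hb (inv_ne_zero hc), v.ord_inv]; ring
  have oG' : ∀ v : Point K, v.ord G = v.ord e - v.ord a := by
    intro v
    rw [hG', v.ord_mul he (inv_ne_zero ha), v.ord_inv]; ring
  set H : K := d * (G * D.t ^ (-(k - l))) ^ 2 with hH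
  have hGt : G * D.t ^ (-(k - l)) ≠ 0 := mul_ne_zero hG0 (zpow_ne_zero _ ht0)
  have hH0 : H ≠ 0 := mul_ne_zero hd.ne (pow_ne_zero 2 hGt)
  have hfixG : D.ρ (G * D.t ^ (-(k - l))) = G * D.t ^ (-(k - l)) :=
    fix_of_wt D.toPre (wG.mul (wt_tpow D.toPre (-(k - l)))) (by omega)
  have hfix : D.ρ H = H := by
    rw [hH, map_mul, map_pow, hd.inv, hfixG]
  have oH : ∀ v : Point K, v.ord H = 2 * v.ord G + v.ord d - 2 * (k - l) * v.ord D.t := by
    intro v
    rw [hH, v.ord_mul hd.ne (pow_ne_zero 2 hGt), v.ord_pow,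
      v.ord_mul hG0 (zpow_ne_zero _ ht0), ord_zpow]
    push_cast
    ring
  have oHP : D.P.ord H = 2 * (aexp k - aexp l) + 10 * (k - l) := by
    rw [oH, oG, b1, c1, hdP, D.ordP]; ring
  have oHQ : D.Q.ord H = -(2 * (aexp k - aexp l) + 10 * (k - l)) := by
    rw [oH, oG, b2, c2, hdQ, D.ordQ]; ring
  have oHv : ∀ v, v ≠ D.P → v ≠ D.Q → v.ord H = 2 * v.ord G + v.ord d := by
    intro v h1 h2
    rw [oH, D.ord v h1 h2]; ring
  have hbv : ∀ v, v ≠ D.P → v ≠ D.Q → 0 ≤ 2 * v.ord b + v.ord d := by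
    rcases bb with h | ⟨-, -, hv⟩
    · exact absurd h hb
    exact hv
  have hev : ∀ v, v ≠ D.P → v ≠ D.Q → 0 ≤ 2 * v.ord e + v.ord d := by
    rcases be with h | ⟨-, -, hv⟩
    · exact absurd h he
    exact hv
  -- half of the poles of `H`
  set y : Point K → ℤ := fun v => max (-v.ord H) 0 / 2 with hy
  have hymax : ∀ v, v ≠ D.P → v ≠ D.Q → max (-v.ord H) 0 = 2 * y v := by
    intro v h1 h2
    have h3 := oHv v h1 h2
    obtain ⟨r, hr⟩ := hd.even v
    simp only [hy]
    omega
  have hyle : ∀ v, v ≠ D.P → v ≠ D.Q → y v ≤ v.ord a ∧ y v ≤ v.ord c ∧ 0 ≤ y v := by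
    intro v h1 h2
    have h3 := oHv v h1 h2
    have h4 := oG v
    have h5 := oG' v
    have h6 := hbv v h1 h2
    have h7 := hev v h1 h2
    have h8 := a3 v h1 h2
    have h9 := c3 v h1 h2
    simp only [hy]
    omega
  have hysupp : (Function.support y).Finite := by
    refine (supp_max D.toPre H).subset fun v hv => ?_
    rw [Function.mem_support] at hv ⊢
    intro h
    exact hv (by simp only [hy, h]; rfl)
  have hR1 : D.R (fun v => max (-v.ord H) 0) = 2 * D.R y := by
    rw [← R_smul]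
    exact R_congr D.toPre hymax
  have hR2 : D.R y ≤ 7 := by
    rw [← a4]
    exact R_mono D.toPre hysupp (supp_ord D.toPre a) fun v h1 h2 => (hyle v h1 h2).1
  have hR0 : 0 ≤ D.R y := R_nonneg D.toPre hysupp fun v h1 h2 => (hyle v h1 h2).2.2
  have hwH : D.Wt 0 H := by
    unfold Pre.Wt
    rw [hfix, zpow_zero, one_smul]
  have h7N := (s_mod K D.toPre 0 H hH0 hwH).1
  have h7d := s_D7 K D.toPre H hfix
  rw [degP_sum D.toPre, hR1, oHP, oHQ] at h7d
  rw [oHP] at h7N
  have hcase : D.R y = 0 ∨ D.R y = 7 := by omega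
  rcases hcase with h0 | h7
  · -- no poles off P and Q
    have hy0 := R_eq_zero D.toPre hysupp (fun v h1 h2 => (hyle v h1 h2).2.2) (by omega)
    have hHnn : ∀ v, v ≠ D.P → v ≠ D.Q → 0 ≤ v.ord H := by
      intro v h1 h2
      have h3 := hymax v h1 h2
      rw [hy0 v h1 h2] at h3
      omega
    have hsum := ord_sum D.toPre H
    have hH00 := R_eq_zero D.toPre (supp_ord D.toPre H) hHnn (by omega)
    have h35 := s_ORD K D H hH0 hfix hH00
    rw [oHP] at h35
    have hkl : k = l := by
      rcases hk with h | h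
      · exact h
      · exact absurd h35 h
    subst hkl
    obtain ⟨x, hx⟩ := const_of_ord D.toPre (f := H) (by
      intro v
      by_cases h1 : v = D.P
      · rw [h1, oHP]; ring
      by_cases h2 : v = D.Q
      · rw [h2, oHQ]; ring
      exact hH00 v h1 h2)
    refine hd.nsq (G * D.t ^ (-(k - k)))⁻¹ x ?_ ?_
    · rw [map_inv₀, hfixG]
    · rw [Algebra.smul_def, ← hx, hH]
      field_simp
  · -- `a` and `c` have the same zeros off P and Q
    have e1 : ∀ v, v ≠ D.P → v ≠ D.Q → v.ord a - y v = 0 := by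
      refine R_eq_zero D.toPre ?_ (fun v h1 h2 => by have := hyle v h1 h2; omega) ?_
      · refine ((supp_ord D.toPre a).union hysupp).subset fun v hv => ?_
        by_contra hcon
        simp only [Set.mem_union, Function.mem_support, not_or, not_not] at hcon
        exact hv (by change v.ord a - y v = 0; rw [hcon.1, hcon.2, sub_zero])
      · rw [R_sub D.toPre (supp_ord D.toPre a) hysupp]
        omega
    have e2 : ∀ v, v ≠ D.P → v ≠ D.Q → v.ord c - y v = 0 := by
      refine R_eq_zero D.toPre ?_ (fun v h1 h2 => by have := hyle v h1 h2; omega) ?_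
      · refine ((supp_ord D.toPre c).union hysupp).subset fun v hv => ?_
        by_contra hcon
        simp only [Set.mem_union, Function.mem_support, not_or, not_not] at hcon
        exact hv (by change v.ord c - y v = 0; rw [hcon.1, hcon.2, sub_zero])
      · rw [R_sub D.toPre (supp_ord D.toPre c) hysupp]
        omega
    have hne : a * c⁻¹ ≠ 0 := mul_ne_zero ha (inv_ne_zero hc)
    have h35 := s_ORD K D (a * c⁻¹ * D.t ^ (-(j - l))) (mul_ne_zero hne (zpow_ne_zero _ ht0))
      (fix_of_wt D.toPre ((wa.mul wc.inv).mul (wt_tpow D.toPre (-(j - l)))) (by omega)) (by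
        intro v h1 h2
        rw [v.ord_mul hne (zpow_ne_zero _ ht0), v.ord_mul ha (inv_ne_zero hc), v.ord_inv,
          ord_zpow, D.ord v h1 h2]
        have h3 := e1 v h1 h2
        have h4 := e2 v h1 h2
        rw [mul_zero]
        omega)
    rw [Point.ord_mul _ hne (zpow_ne_zero _ ht0), Point.ord_mul _ ha (inv_ne_zero hc),
      Point.ord_inv, ord_zpow, D.ordP, a1, c1] at h35
    unfold aexp at h35
    rcases hj with rfl | rfl | rfl | rfl <;> rcases hl with rfl | rfl | rfl | rfl <;>
      first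
      | exact hjl rfl
      | exact h33 ⟨rfl, rfl⟩
      | exact h33' ⟨rfl, rfl⟩
      | (norm_num at h35)

end Pool.Agent.W518.EG
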