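import Pool.Agent.W518.EG.TGen
import Pool.Agent.W518.EG.TTwo
import Pool.Agent.W518.EG.H0

/-!
# Project EG (MP_4f5420_ag): EG-F
-/

set_option autoImplicit false

open scoped WithZero Matrix
open IntermediateField
open Pool.Agent.Helper395.CS hiding genus
open Pool.Agent.Helper395.BC

namespace Pool.Agent.W518.EG

variable {K : Type} [Field K] [Algebra ℂ K]

/-- one more condition at the point `v` lowers the dimension by at most one -/
theorem drop_one (hK : IsCurve K) (v : Point K) {N P : Submodule ℂ K}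
    (hfin : FiniteDimensional ℂ P) (hNP : N ≤ P) (n : ℤ) (h1 : ∀ p ∈ P, p ≠ 0 → n ≤ v.ord p)
    (h2 : ∀ p ∈ P, (p ≠ 0 → n < v.ord p) → p ∈ N) :
    Module.finrank ℂ P ≤ Module.finrank ℂ N + 1 := by
  by_cases hcase : ∃ x ∈ P, x ∉ N
  · obtain ⟨x, hx, hxN⟩ := hcase
    have hx0 : x ≠ 0 := by
      rintro rfl
      exact hxN (zero_mem _)
    have hxn : v.ord x = n := by
      by_contra hne
      apply hxN
      apply h2 x hx
      intro _
      have := h1 x hx hx0
      omega
    have h3 := finrank_succ_aux hNP hx hxN (fun p hp => by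
      by_cases hp0 : p = 0
      · exact ⟨0, by rw [hp0, zero_smul, sub_zero]; exact zero_mem _⟩
      have hord : v.val (p * x⁻¹) ≤ 1 := by
        rw [v.val_le_one_iff (mul_ne_zero hp0 (inv_ne_zero hx0)),
          v.ord_mul hp0 (inv_ne_zero hx0), v.ord_inv]
        have := h1 p hp hp0
        omega
      obtain ⟨c, hc⟩ : ∃ c : ℂ, v.val (p * x⁻¹ - algebraMap ℂ K c) < 1 := by
        by_cases ht : Transcendental ℂ (p * x⁻¹)
        · exact exists_residue hK ht v hord
        · obtain ⟨c, hc⟩ := exists_const ht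
          exact ⟨c, by rw [hc, sub_self, map_zero]; exact zero_lt_one⟩
      refine ⟨c, h2 _ (sub_mem hp (P.smul_mem c hx)) fun hne => ?_⟩
      have e : p - c • x = x * (p * x⁻¹ - algebraMap ℂ K c) := by
        rw [Algebra.smul_def]
        field_simp
      have hne2 : p * x⁻¹ - algebraMap ℂ K c ≠ 0 := by
        intro h
        rw [e, h, mul_zero] at hne
        exact hne rfl
      rw [v.val_lt_one_iff hne2] at hc
      rw [e, v.ord_mul hx0 hne2]
      omega)
    have h4 := h3.2 hfin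
    omega
  · push Not at hcase
    have h5 : P ≤ N := hcase
    have : P = N := le_antisymm h5 hNP
    rw [this]
    omega

theorem mem_Fs (D : Pre K) (α β : ℤ) (f : K) : f ∈ D.Fs α β ↔ D.ρ f = f ∧ (f = 0 ∨
    (-(7 * α) ≤ D.P.ord f ∧ -(7 * β) ≤ D.Q.ord f ∧ ∀ v, v ≠ D.P → v ≠ D.Q → 0 ≤ v.ord f)) := by
  unfold Pre.Fs
  rw [Submodule.mem_inf, LinearMap.mem_ker, LinearMap.sub_apply, (s_H0 K D (7 * α) (7 * β)).2]
  rw [and_comm]
  refine and_congr ?_ Iff.rfl
  rw [LinearMap.id_apply, sub_eq_zero]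
  rfl

theorem Fs_fin (D : Pre K) (α β : ℤ) : FiniteDimensional ℂ (D.Fs α β) := by
  have h1 := H0_fin D.curve (D.pq (7 * α) (7 * β))
  exact Submodule.finiteDimensional_of_le inf_le_left

theorem inv_mod (D : Pre K) {f : K} (hf0 : f ≠ 0) (hf : D.ρ f = f) :
    (7 : ℤ) ∣ D.P.ord f ∧ (7 : ℤ) ∣ D.Q.ord f := by
  have hwt : D.Wt 0 f := by
    unfold Pre.Wt
    rw [hf, zpow_zero, one_smul]
  have := s_mod K D 0 f hf0 hwt
  constructor <;> omega

theorem stepP (D : Pre K) (α β : ℤ) :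
    Module.finrank ℂ (D.Fs (α + 1) β) ≤ Module.finrank ℂ (D.Fs α β) + 1 := by
  refine drop_one D.curve D.P (Fs_fin D _ _) ?_ (-(7 * (α + 1))) ?_ ?_
  · intro f hf
    rw [mem_Fs] at hf ⊢
    refine ⟨hf.1, ?_⟩
    rcases hf.2 with h | ⟨h1, h2, h3⟩
    · exact Or.inl h
    · exact Or.inr ⟨by omega, h2, h3⟩
  · intro p hp hp0
    rw [mem_Fs] at hp
    rcases hp.2 with h | ⟨h1, h2, h3⟩
    · exact absurd h hp0
    · exact h1
  · intro p hp h
    rw [mem_Fs] at hp ⊢
    refine ⟨hp.1, ?_⟩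
    by_cases hp0 : p = 0
    · exact Or.inl hp0
    rcases hp.2 with h0 | ⟨h1, h2, h3⟩
    · exact Or.inl h0
    · have h4 := h hp0
      have h5 := (inv_mod D hp0 hp.1).1
      exact Or.inr ⟨by omega, h2, h3⟩

theorem stepQ (D : Pre K) (α β : ℤ) :
    Module.finrank ℂ (D.Fs α (β + 1)) ≤ Module.finrank ℂ (D.Fs α β) + 1 := by
  refine drop_one D.curve D.Q (Fs_fin D _ _) ?_ (-(7 * (β + 1))) ?_ ?_
  · intro f hf
    rw [mem_Fs] at hf ⊢
    refine ⟨hf.1, ?_⟩
    rcases hf.2 with h | ⟨h1, h2, h3⟩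
    · exact Or.inl h
    · exact Or.inr ⟨h1, by omega, h3⟩
  · intro p hp hp0
    rw [mem_Fs] at hp
    rcases hp.2 with h | ⟨h1, h2, h3⟩
    · exact absurd h hp0
    · exact h2
  · intro p hp h
    rw [mem_Fs] at hp ⊢
    refine ⟨hp.1, ?_⟩
    by_cases hp0 : p = 0
    · exact Or.inl hp0
    rcases hp.2 with h0 | ⟨h1, h2, h3⟩
    · exact Or.inl h0
    · have h4 := h hp0
      have h5 := (inv_mod D hp0 hp.1).2
      exact Or.inr ⟨h1, by omega, h3⟩

theorem stepsP (D : Pre K) (α β : ℤ) (k : ℕ) : ∀ α' : ℤ, α' = α + k →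
    Module.finrank ℂ (D.Fs α' β) ≤ Module.finrank ℂ (D.Fs α β) + k := by
  induction k with
  | zero =>
    intro α' h
    have : α' = α := by push_cast at h; omega
    subst this
    exact le_rfl
  | succ k ih =>
    intro α' h
    have h1 := ih (α + k) rfl
    have h2 := stepP D (α + k) β
    have : α' = α + k + 1 := by push_cast at h; omega
    subst this
    omega

theorem stepsQ (D : Pre K) (α β : ℤ) (k : ℕ) : ∀ β' : ℤ, β' = β + k →
    Module.finrank ℂ (D.Fs α β') ≤ Module.finrank ℂ (D.Fs α β) + k := by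
  induction k with
  | zero =>
    intro β' h
    have : β' = β := by push_cast at h; omega
    subst this
    exact le_rfl
  | succ k ih =>
    intro β' h
    have h1 := ih (β + k) rfl
    have h2 := stepQ D α (β + k)
    have : β' = β + k + 1 := by push_cast at h; omega
    subst this
    omega

theorem base_one (D : Dat K) (α β : ℤ) (h : α + β = 1) :
    Module.finrank ℂ (D.Fs α β) ≤ 1 := by
  have hfin := Fs_fin D.toPre α β
  rw [finrank_le_one_iff]
  by_cases hex : ∃ x ∈ D.Fs α β, x ≠ 0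
  · obtain ⟨x, hx, hx0⟩ := hex
    refine ⟨⟨x, hx⟩, fun ⟨y, hy⟩ => ?_⟩
    by_cases hy0 : y = 0
    · exact ⟨0, Subtype.ext (by simp [hy0])⟩
    rw [mem_Fs] at hx hy
    obtain ⟨fx, hx2⟩ := hx
    obtain ⟨fy, hy2⟩ := hy
    obtain ⟨x1, x2, x3⟩ := hx2.resolve_left hx0
    obtain ⟨y1, y2, y3⟩ := hy2.resolve_left hy0
    have hsum := ord_sum D.toPre x
    have ho : ∀ v : Point K, v.ord (y * x⁻¹) = v.ord y - v.ord x := by
      intro v
      rw [v.ord_mul hy0 (inv_ne_zero hx0), v.ord_inv]; ring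
    obtain ⟨c, hc⟩ := const_of_degP D (f := y * x⁻¹) (by rw [map_mul, map_inv₀, fx, fy]) (by
      rw [degP_sum D.toPre, ho, ho]
      have h5 : D.R (fun v => max (-v.ord (y * x⁻¹)) 0) ≤ D.R (fun v => v.ord x) := by
        refine R_mono D.toPre (supp_max D.toPre _) (supp_ord D.toPre x) fun v h5 h6 => ?_
        have h1 := ho v
        have h2 := x3 v h5 h6
        have h3 := y3 v h5 h6
        simp only [h1]
        omega
      omega)
    refine ⟨c, Subtype.ext ?_⟩
    change c • x = y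
    rw [Algebra.smul_def, ← hc]
    field_simp
  · push Not at hex
    exact ⟨0, fun ⟨y, hy⟩ => ⟨0, Subtype.ext (by simp [hex y hy])⟩⟩

theorem upper (D : Dat K) (n : ℕ) : ∀ α β : ℤ, α + β = n + 1 →
    Module.finrank ℂ (D.Fs α β) ≤ n + 1 := by
  induction n with
  | zero =>
    intro α β h
    exact base_one D α β (by push_cast at h; omega)
  | succ n ih =>
    intro α β h
    have h1 := ih (α - 1) β (by push_cast at h; omega)
    have h2 := stepP D.toPre (α - 1) β
    rw [sub_add_cancel] at h2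
    omega

theorem s_F : S_F := by
  intro K _ _ D hlow α β hαβ
  refine ⟨Fs_fin D.toPre α β, ?_⟩
  obtain ⟨n, hn⟩ : ∃ n : ℕ, α + β = n + 1 := ⟨(α + β - 1).toNat, by omega⟩
  have h1 := upper D n α β hn
  obtain ⟨m, hm2, hmα, hmβ⟩ : ∃ m : ℕ, 2 ≤ m ∧ α ≤ m ∧ β ≤ m :=
    ⟨max 2 (max α.toNat β.toNat), by omega, by omega, by omega⟩
  have h2 := hlow m hm2
  have h3 := stepsP D.toPre α m ((m : ℤ) - α).toNat m (by omega)
  have h4 := stepsQ D.toPre α β ((m : ℤ) - β).toNat m (by omega)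
  omega

end Pool.Agent.W518.EG
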