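import Pool.Agent.W518.EG.TTwo

/-!
# Project EG (MP_4f5420_ag): flags
-/

set_option autoImplicit false

open scoped WithZero Matrix
open IntermediateField
open Pool.Agent.Helper395.CS hiding genus
open Pool.Agent.Helper395.BC

namespace Pool.Agent.W518.EG

variable {K : Type} [Field K] [Algebra ℂ K]

/-! ### linear algebra -/

/-- the linear map has rank at most one on `U` -/
def Rk1 (L : K →ₗ[ℂ] K) (U : Submodule ℂ K) : Prop := ∃ g : K, ∀ u ∈ U, ∃ c : ℂ, L u = c • g

theorem Rk1.mono {L : K →ₗ[ℂ] K} {U U' : Submodule ℂ K} (h : Rk1 L U) (hle : U' ≤ U) :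
    Rk1 L U' := by
  obtain ⟨g, hg⟩ := h
  exact ⟨g, fun u hu => hg u (hle hu)⟩

theorem Rk1.finrank {L : K →ₗ[ℂ] K} {U : Submodule ℂ K} (h : Rk1 L U)
    (hU : FiniteDimensional ℂ U) :
    Module.finrank ℂ U ≤ Module.finrank ℂ (U ⊓ LinearMap.ker L : Submodule ℂ K) + 1 := by
  obtain ⟨g, hg⟩ := h
  have h1 := LinearMap.finrank_range_add_finrank_ker (L.domRestrict U)
  have h2 : Module.finrank ℂ (LinearMap.range (L.domRestrict U)) ≤ 1 := by
    have h3 : LinearMap.range (L.domRestrict U) ≤ Submodule.span ℂ {g} := by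
      rintro _ ⟨u, rfl⟩
      obtain ⟨c, hc⟩ := hg u.1 u.2
      rw [LinearMap.domRestrict_apply, hc]
      exact Submodule.smul_mem _ _ (Submodule.mem_span_singleton_self g)
    have h4 : Module.finrank ℂ (Submodule.span ℂ ({g} : Set K)) ≤ 1 := by
      have := finrank_span_le_card (R := ℂ) ({g} : Set K)
      simpa using this
    have : FiniteDimensional ℂ (Submodule.span ℂ ({g} : Set K)) :=
      FiniteDimensional.span_of_finite ℂ (Set.finite_singleton g)
    exact (Submodule.finrank_mono h3).trans h4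
  have h5 : Module.finrank ℂ (LinearMap.ker (L.domRestrict U)) ≤
      Module.finrank ℂ (U ⊓ LinearMap.ker L : Submodule ℂ K) := by
    have : FiniteDimensional ℂ (U ⊓ LinearMap.ker L : Submodule ℂ K) :=
      Submodule.finiteDimensional_of_le inf_le_left
    have h6 : (LinearMap.ker (L.domRestrict U)).map U.subtype ≤ U ⊓ LinearMap.ker L := by
      rintro _ ⟨u, hu, rfl⟩
      exact ⟨u.2, hu⟩
    have h7 := Submodule.finrank_mono h6
    rwa [Submodule.finrank_map_subtype_eq] at h7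
  omega

/-- three conditions on a space of dimension at least 4 -/
theorem exists_three {U : Submodule ℂ K} (hU : FiniteDimensional ℂ U)
    (h4 : 4 ≤ Module.finrank ℂ U) {L1 L2 L3 : K →ₗ[ℂ] K} (h1 : Rk1 L1 U) (h2 : Rk1 L2 U)
    (h3 : Rk1 L3 U) : ∃ u ∈ U, u ≠ 0 ∧ L1 u = 0 ∧ L2 u = 0 ∧ L3 u = 0 := by
  have e1 := h1.finrank hU
  have f1 : FiniteDimensional ℂ (U ⊓ LinearMap.ker L1 : Submodule ℂ K) :=
    Submodule.finiteDimensional_of_le inf_le_left
  have e2 := (h2.mono (U' := U ⊓ LinearMap.ker L1) inf_le_left).finrank f1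
  have f2 : FiniteDimensional ℂ (U ⊓ LinearMap.ker L1 ⊓ LinearMap.ker L2 : Submodule ℂ K) :=
    Submodule.finiteDimensional_of_le inf_le_left
  have e3 := (h3.mono (U' := U ⊓ LinearMap.ker L1 ⊓ LinearMap.ker L2)
    (inf_le_left.trans inf_le_left)).finrank f2
  have hpos : 0 < Module.finrank ℂ
      (U ⊓ LinearMap.ker L1 ⊓ LinearMap.ker L2 ⊓ LinearMap.ker L3 : Submodule ℂ K) := by omega
  have := Module.nontrivial_of_finrank_pos hpos
  obtain ⟨⟨u, hu⟩, hu0⟩ := exists_ne
    (0 : (U ⊓ LinearMap.ker L1 ⊓ LinearMap.ker L2 ⊓ LinearMap.ker L3 : Submodule ℂ K))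
  obtain ⟨⟨⟨a1, a2⟩, a3⟩, a4⟩ := hu
  exact ⟨u, a1, fun h => hu0 (Subtype.ext h), a2, a3, a4⟩

/-! ### ranks of the component maps -/

theorem rk_V (D : Dat K) (j : ℤ) (U : Submodule ℂ K) (hU : ∀ u ∈ U, D.Bd 1 u) :
    Rk1 (D.comp j) U := by
  by_cases h : ∃ u ∈ U, D.comp j u ≠ 0
  · obtain ⟨u, hu, h0⟩ := h
    have h1 := VT_comp s_comp D (hU u hu) j
    refine ⟨D.comp j u, fun x hx => ?_⟩
    have h2 := VT_comp s_comp D (hU x hx) j
    exact s_V1 K D j _ _ h0 h2.wt h1.wt h2.bd h1.bd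
  · push Not at h
    exact ⟨0, fun x hx => ⟨0, by rw [h x hx, smul_zero]⟩⟩

/-- multiplication by `κ` followed by a component -/
noncomputable def mulComp (D : Pre K) (κ : K) (j : ℤ) : K →ₗ[ℂ] K :=
  (D.comp j).comp (LinearMap.mulLeft ℂ κ)

theorem mulComp_apply (D : Pre K) (κ : K) (j : ℤ) (u : K) :
    mulComp D κ j u = D.comp j (κ * u) := rfl

theorem rk_W (D : Dat K) {d : K} (hd : D.Tw d) (κ : K) (j : ℤ) (U : Submodule ℂ K)
    (hU : ∀ u ∈ U, D.Bd d (κ * u)) : Rk1 (mulComp D.toPre κ j) U := by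
  by_cases h : ∃ u ∈ U, D.comp j (κ * u) ≠ 0
  · obtain ⟨u, hu, h0⟩ := h
    have h1 := WT_comp s_comp D hd (hU u hu) j
    refine ⟨D.comp j (κ * u), fun x hx => ?_⟩
    have h2 := WT_comp s_comp D hd (hU x hx) j
    rw [mulComp_apply]
    exact s_W1 K D d hd j _ _ h0 h2.wt h1.wt h2.bd h1.bd
  · push Not at h
    exact ⟨0, fun x hx => ⟨0, by rw [mulComp_apply, h x hx, smul_zero]⟩⟩

/-! ### orders of components -/

theorem val_rho_pow (D : Pre K) (v : Point K) (hv : ∀ f, v.val (D.ρ f) = v.val f) (i : ℕ) (f : K) :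
    v.val ((D.ρ ^ i) f) = v.val f := by
  induction i with
  | zero => rfl
  | succ i ih => rw [pow_succ', AlgEquiv.mul_apply, hv, ih]

theorem val_smul_le (v : Point K) (c : ℂ) (f : K) : v.val (c • f) ≤ v.val f := by
  rw [Algebra.smul_def, map_mul]
  exact mul_le_of_le_one_left' (v.const_le c)

theorem val_comp_le (D : Pre K) (v : Point K) (hv : ∀ f, v.val (D.ρ f) = v.val f) (j : ℤ)
    (f : K) : v.val (D.comp j f) ≤ v.val f := by
  rw [comp_apply]
  refine (val_smul_le v _ _).trans (Valuation.map_sum_le _ fun i _ => ?_)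
  exact (val_smul_le v _ _).trans (val_rho_pow D v hv i f).le

/-- the orders of the components of weights `ε j` of elements of `V` at the point -/
def TV (j : ℤ) : ℤ := if j = -3 then -6 else if j = 1 then -5 else if j = -2 then -4 else
  if j = 2 then -3 else if j = 3 then -1 else if j = 0 then 0 else 5

/-- the orders of the components of weights `ε j` of elements of `W` at the point -/
def TW (j : ℤ) : ℤ := if j = -3 then 1 else if j = 1 then 2 else if j = -2 then 3 else
  if j = 2 then 4 else if j = -1 then 5 else 6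

theorem flag_aux (D : Dat K) {d : K} (v : Point K) (ε : ℤ)
    (hval : ∀ j u, v.val (D.comp j u) ≤ v.val u)
    (tV : ∀ u, D.Bd 1 u → ∀ j : ℤ, -3 ≤ j → j ≤ 3 → D.comp (ε * j) u ≠ 0 →
      v.ord (D.comp (ε * j) u) = TV j)
    (tW : ∀ u, D.Bd d u → ∀ j : ℤ, -3 ≤ j → j ≤ 3 → j ≠ 0 → D.comp (ε * j) u ≠ 0 →
      v.ord (D.comp (ε * j) u) = TW j)
    (hdec : ∀ u, u = D.comp (ε * 0) u + D.comp (ε * 1) u + D.comp (ε * 2) u +
      D.comp (ε * 3) u + D.comp (ε * (-3)) u + D.comp (ε * (-2)) u + D.comp (ε * (-1)) u)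
    (κ : K) (U : Submodule ℂ K) (hκ : κ ≠ 0) (hfin : FiniteDimensional ℂ U)
    (h4 : 4 ≤ Module.finrank ℂ U) (hU : ∀ u ∈ U, D.Bd 1 u ∧ D.Bd d (κ * u))
    (hbd : ∀ u ∈ U, u ≠ 0 → 1 ≤ v.ord κ + v.ord u) :
    ∃ u ∈ U, u ≠ 0 ∧ ∀ j : ℤ, (j = 1 ∨ j = -2 ∨ j = -3) → D.comp (ε * j) u = 0 ∧
      D.comp (ε * j) (κ * u) = 0 := by
  -- components of small order vanish
  have hcmp : ∀ (x : K), x ≠ 0 → ∀ j, D.comp j x ≠ 0 → v.ord x ≤ v.ord (D.comp j x) := by
    intro x hx j hj
    rw [← v.val_le_val_iff hj hx]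
    exact hval j x
  have vanV : ∀ u ∈ U, u ≠ 0 → ∀ j : ℤ, -3 ≤ j → j ≤ 3 → TV j < v.ord u →
      D.comp (ε * j) u = 0 := by
    intro u hu hu0 j h1 h2 h3
    by_contra h
    have h5 := tV u (hU u hu).1 j h1 h2 h
    have h6 := hcmp u hu0 _ h
    omega
  have vanW : ∀ u ∈ U, u ≠ 0 → ∀ j : ℤ, -3 ≤ j → j ≤ 3 → j ≠ 0 → TW j < v.ord κ + v.ord u →
      D.comp (ε * j) (κ * u) = 0 := by
    intro u hu hu0 j h1 h2 h0 h3
    by_contra h
    have h5 := tW (κ * u) (hU u hu).2 j h1 h2 h0 h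
    have h6 := hcmp (κ * u) (mul_ne_zero hκ hu0) _ h
    rw [v.ord_mul hκ hu0] at h6
    omega
  -- lower bound for the order
  have lowV : ∀ u ∈ U, u ≠ 0 → ∀ n : ℤ, (∀ j : ℤ, -3 ≤ j → j ≤ 3 → D.comp (ε * j) u = 0 ∨ n ≤ TV j) →
      n ≤ v.ord u := by
    intro u hu hu0 n hn
    have h1 : ∀ j : ℤ, -3 ≤ j → j ≤ 3 → v.val (D.comp (ε * j) u) ≤ WithZero.exp (-n) := by
      intro j h1 h2
      by_cases h : D.comp (ε * j) u = 0
      · rw [h, map_zero]; exact zero_le
      · rw [v.val_eq_exp h, tV u (hU u hu).1 j h1 h2 h, WithZero.exp_le_exp]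
        rcases hn j h1 h2 with h3 | h3
        · exact absurd h3 h
        · omega
    have h2 : v.val u ≤ WithZero.exp (-n) := by
      rw [hdec u]
      exact Valuation.map_add_le _ (Valuation.map_add_le _ (Valuation.map_add_le _
        (Valuation.map_add_le _ (Valuation.map_add_le _ (Valuation.map_add_le _
        (h1 0 (by norm_num) (by norm_num)) (h1 1 (by norm_num) (by norm_num)))
        (h1 2 (by norm_num) (by norm_num))) (h1 3 (by norm_num) (by norm_num)))
        (h1 (-3) (by norm_num) (by norm_num))) (h1 (-2) (by norm_num) (by norm_num)))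
        (h1 (-1) (by norm_num) (by norm_num))
    rw [v.val_eq_exp hu0, WithZero.exp_le_exp] at h2
    omega
  have rk : ∀ j, Rk1 (D.comp j) U := fun j => rk_V D j U fun u hu => (hU u hu).1
  have hj7 : ∀ j : ℤ, -3 ≤ j → j ≤ 3 → j = -3 ∨ j = -2 ∨ j = -1 ∨ j = 0 ∨ j = 1 ∨ j = 2 ∨ j = 3 := by
    intro j h1 h2
    omega
  by_cases c0 : 7 ≤ v.ord κ
  · obtain ⟨u, hu, hu0, a1, a2, a3⟩ := exists_three hfin h4 (rk (ε * (-3))) (rk (ε * 1))
      (rk (ε * (-2)))
    have hlow := lowV u hu hu0 (-3) (by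
      intro j h1 h2
      rcases hj7 j h1 h2 with rfl | rfl | rfl | rfl | rfl | rfl | rfl <;>
        first
        | (left; assumption)
        | (right; decide))
    refine ⟨u, hu, hu0, ?_⟩
    rintro j (rfl | rfl | rfl)
    · exact ⟨a2, vanW u hu hu0 1 (by norm_num) (by norm_num) (by norm_num)
        (by rw [show TW 1 = 2 by decide]; omega)⟩
    · exact ⟨a3, vanW u hu hu0 (-2) (by norm_num) (by norm_num) (by norm_num)
        (by rw [show TW (-2) = 3 by decide]; omega)⟩
    · exact ⟨a1, vanW u hu hu0 (-3) (by norm_num) (by norm_num) (by norm_num)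
        (by rw [show TW (-3) = 1 by decide]; omega)⟩
  by_cases c1 : v.ord κ = 6
  · obtain ⟨u, hu, hu0, a1, a2, a3⟩ := exists_three hfin h4 (rk (ε * 1)) (rk (ε * (-2)))
      (rk (ε * 2))
    have hb := hbd u hu hu0
    have a0 := vanV u hu hu0 (-3) (by norm_num) (by norm_num)
      (by rw [show TV (-3) = -6 by decide]; omega)
    have hlow := lowV u hu hu0 (-1) (by
      intro j h1 h2
      rcases hj7 j h1 h2 with rfl | rfl | rfl | rfl | rfl | rfl | rfl <;>
        first
        | (left; assumption)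
        | (right; decide))
    refine ⟨u, hu, hu0, ?_⟩
    rintro j (rfl | rfl | rfl)
    · exact ⟨a1, vanW u hu hu0 1 (by norm_num) (by norm_num) (by norm_num)
        (by rw [show TW 1 = 2 by decide]; omega)⟩
    · exact ⟨a2, vanW u hu hu0 (-2) (by norm_num) (by norm_num) (by norm_num)
        (by rw [show TW (-2) = 3 by decide]; omega)⟩
    · exact ⟨a0, vanW u hu hu0 (-3) (by norm_num) (by norm_num) (by norm_num)
        (by rw [show TW (-3) = 1 by decide]; omega)⟩
  by_cases c2 : v.ord κ = 5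
  · obtain ⟨u, hu, hu0, a1, a2, a3⟩ := exists_three hfin h4 (rk (ε * (-2))) (rk (ε * 2))
      (rk (ε * 3))
    have hb := hbd u hu hu0
    have a0 := vanV u hu hu0 (-3) (by norm_num) (by norm_num)
      (by rw [show TV (-3) = -6 by decide]; omega)
    have b0 := vanV u hu hu0 1 (by norm_num) (by norm_num)
      (by rw [show TV 1 = -5 by decide]; omega)
    have hlow := lowV u hu hu0 0 (by
      intro j h1 h2
      rcases hj7 j h1 h2 with rfl | rfl | rfl | rfl | rfl | rfl | rfl <;>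
        first
        | (left; assumption)
        | (right; decide))
    refine ⟨u, hu, hu0, ?_⟩
    rintro j (rfl | rfl | rfl)
    · exact ⟨b0, vanW u hu hu0 1 (by norm_num) (by norm_num) (by norm_num)
        (by rw [show TW 1 = 2 by decide]; omega)⟩
    · exact ⟨a1, vanW u hu hu0 (-2) (by norm_num) (by norm_num) (by norm_num)
        (by rw [show TW (-2) = 3 by decide]; omega)⟩
    · exact ⟨a0, vanW u hu hu0 (-3) (by norm_num) (by norm_num) (by norm_num)
        (by rw [show TW (-3) = 1 by decide]; omega)⟩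
  by_cases c3 : v.ord κ = 4
  · obtain ⟨u, hu, hu0, a1, a2, a3⟩ := exists_three hfin h4 (rk (ε * 2)) (rk (ε * 3))
      (rk (ε * 3))
    have hb := hbd u hu hu0
    have a0 := vanV u hu hu0 (-3) (by norm_num) (by norm_num)
      (by rw [show TV (-3) = -6 by decide]; omega)
    have b0 := vanV u hu hu0 1 (by norm_num) (by norm_num)
      (by rw [show TV 1 = -5 by decide]; omega)
    have c0 := vanV u hu hu0 (-2) (by norm_num) (by norm_num)
      (by rw [show TV (-2) = -4 by decide]; omega)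
    have hlow := lowV u hu hu0 0 (by
      intro j h1 h2
      rcases hj7 j h1 h2 with rfl | rfl | rfl | rfl | rfl | rfl | rfl <;>
        first
        | (left; assumption)
        | (right; decide))
    refine ⟨u, hu, hu0, ?_⟩
    rintro j (rfl | rfl | rfl)
    · exact ⟨b0, vanW u hu hu0 1 (by norm_num) (by norm_num) (by norm_num)
        (by rw [show TW 1 = 2 by decide]; omega)⟩
    · exact ⟨c0, vanW u hu hu0 (-2) (by norm_num) (by norm_num) (by norm_num)
        (by rw [show TW (-2) = 3 by decide]; omega)⟩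
    · exact ⟨a0, vanW u hu hu0 (-3) (by norm_num) (by norm_num) (by norm_num)
        (by rw [show TW (-3) = 1 by decide]; omega)⟩
  · exfalso
    obtain ⟨u, hu, hu0, a1, a2, a3⟩ := exists_three hfin h4 (rk (ε * 3)) (rk (ε * 0))
      (rk (ε * (-1)))
    have hb := hbd u hu hu0
    have b1 := vanV u hu hu0 (-3) (by norm_num) (by norm_num)
      (by rw [show TV (-3) = -6 by decide]; omega)
    have b2 := vanV u hu hu0 1 (by norm_num) (by norm_num)
      (by rw [show TV 1 = -5 by decide]; omega)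
    have b3 := vanV u hu hu0 (-2) (by norm_num) (by norm_num)
      (by rw [show TV (-2) = -4 by decide]; omega)
    have b4 := vanV u hu hu0 2 (by norm_num) (by norm_num)
      (by rw [show TV 2 = -3 by decide]; omega)
    apply hu0
    rw [hdec u, a1, a2, a3, b1, b2, b3, b4]
    simp

end Pool.Agent.W518.EG
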