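import Pool.Agent.W518.EG.TFlag

/-!
# Project EG (MP_4f5420_ag): EG-flag and EG-caseA
-/

set_option autoImplicit false

open scoped WithZero Matrix
open IntermediateField
open Pool.Agent.Helper395.CS hiding genus
open Pool.Agent.Helper395.BC

namespace Pool.Agent.W518.EG

variable {K : Type} [Field K] [Algebra ℂ K]

theorem j7 (j : ℤ) (h1 : -3 ≤ j) (h2 : j ≤ 3) :
    j = -3 ∨ j = -2 ∨ j = -1 ∨ j = 0 ∨ j = 1 ∨ j = 2 ∨ j = 3 := by
  omega

theorem tableV (D : Dat K) {u : K} (hu : D.Bd 1 u) (j : ℤ) (h1 : -3 ≤ j) (h2 : j ≤ 3)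
    (h : D.comp j u ≠ 0) : D.P.ord (D.comp j u) = TV j ∧ D.Q.ord (D.comp j u) = TV (-j) := by
  have hv := VT_comp s_comp D hu j
  rcases j7 j h1 h2 with rfl | rfl | rfl | rfl | rfl | rfl | rfl
  · rcases hv.oj s_V (by simp) with h3 | ⟨-, h3, h4⟩
    · exact absurd h3 h
    · rw [h3, h4]; decide
  · rcases hv.oj s_V (by simp) with h3 | ⟨-, h3, h4⟩
    · exact absurd h3 h
    · rw [h3, h4]; decide
  · rcases hv.om s_V with h3 | ⟨-, h3, h4⟩
    · exact absurd h3 h
    · rw [h3, h4]; decide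
  · rcases hv.o0 s_V with h3 | ⟨-, h3, h4⟩
    · exact absurd h3 h
    · rw [h3, h4]; decide
  · rcases hv.o1 s_V with h3 | ⟨-, h3, h4⟩
    · exact absurd h3 h
    · rw [h3, h4]; decide
  · rcases hv.oj s_V (by simp) with h3 | ⟨-, h3, h4⟩
    · exact absurd h3 h
    · rw [h3, h4]; decide
  · rcases hv.oj s_V (by simp) with h3 | ⟨-, h3, h4⟩
    · exact absurd h3 h
    · rw [h3, h4]; decide

theorem tableW (D : Dat K) {d : K} (hd : D.Tw d) {u : K} (hu : D.Bd d u) (j : ℤ) (h1 : -3 ≤ j)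
    (h2 : j ≤ 3) (h0 : j ≠ 0) (h : D.comp j u ≠ 0) :
    D.P.ord (D.comp j u) = TW j ∧ D.Q.ord (D.comp j u) = TW (-j) := by
  have hv := WT_comp s_comp D hd hu j
  rcases hv.oj s_W hd with h3 | ⟨-, h3, h4⟩
  · exact absurd h3 h
  rw [h3, h4]
  rcases j7 j h1 h2 with rfl | rfl | rfl | rfl | rfl | rfl | rfl
  · decide
  · decide
  · decide
  · exact absurd rfl h0
  · decide
  · decide
  · decide

theorem s_flag : S_flag := by
  intro K _ _ D d hd κ U hκ hfin h4 hU
  constructor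
  · obtain ⟨u, hu, hu0, h⟩ := flag_aux D D.P 1 (val_comp_le D.toPre D.P (valP D.toPre))
      (fun u hu j h1 h2 h3 => by
        rw [one_mul] at h3 ⊢
        exact (tableV D hu j h1 h2 h3).1)
      (fun u hu j h1 h2 h0 h3 => by
        rw [one_mul] at h3 ⊢
        exact (tableW D hd hu j h1 h2 h0 h3).1)
      (fun u => by
        simp only [one_mul]
        exact decomp s_comp D.toPre u)
      κ U hκ hfin h4 hU (fun u hu hu0 => by
        rcases (hU u hu).2 with h | ⟨h, -⟩
        · exact absurd h (mul_ne_zero hκ hu0)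
        · have := hd.ordP
          rw [Point.ord_mul _ hκ hu0, this] at h
          omega)
    refine ⟨u, hu, hu0, fun j hj => ?_⟩
    have := h j hj
    rwa [one_mul] at this
  · obtain ⟨u, hu, hu0, h⟩ := flag_aux D D.Q (-1) (val_comp_le D.toPre D.Q (valQ D.toPre))
      (fun u hu j h1 h2 h3 => by
        rw [neg_one_mul] at h3 ⊢
        have := (tableV D hu (-j) (by omega) (by omega) h3).2
        rwa [neg_neg] at this)
      (fun u hu j h1 h2 h0 h3 => by
        rw [neg_one_mul] at h3 ⊢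
        have := (tableW D hd hu (-j) (by omega) (by omega) (by omega) h3).2
        rwa [neg_neg] at this)
      (fun u => by
        have h1 := decomp s_comp D.toPre u
        have e0 : (-1 : ℤ) * 0 = 0 := by norm_num
        have e1 : (-1 : ℤ) * 1 = -1 := by norm_num
        have e2 : (-1 : ℤ) * 2 = -2 := by norm_num
        have e3 : (-1 : ℤ) * 3 = -3 := by norm_num
        have e4 : (-1 : ℤ) * (-3) = 3 := by norm_num
        have e5 : (-1 : ℤ) * (-2) = 2 := by norm_num
        have e6 : (-1 : ℤ) * (-1) = 1 := by norm_num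
        rw [e0, e1, e2, e3, e4, e5, e6]
        linear_combination h1)
      κ U hκ hfin h4 hU (fun u hu hu0 => by
        rcases (hU u hu).2 with h | ⟨-, h, -⟩
        · exact absurd h (mul_ne_zero hκ hu0)
        · have := hd.ordQ
          rw [Point.ord_mul _ hκ hu0, this] at h
          omega)
    refine ⟨u, hu, hu0, fun j hj => ?_⟩
    have := h (-j) (by omega)
    rwa [show (-1 : ℤ) * -j = j by ring] at this

theorem Dat.VT.sub_smul {D : Dat K} {j : ℤ} {x y : K} (hx : D.VT j x) (hy : D.VT j y) (c : ℂ) :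
    D.VT j (x - c • y) := by
  have e : x - c • y = x + (-c) • y := by rw [neg_smul, sub_eq_add_neg]
  refine ⟨?_, ?_⟩
  · rw [e]
    refine hx.wt.add ?_
    have := hy.wt
    unfold Pre.Wt at *
    rw [map_smul, this, smul_comm]
  · rw [e]
    exact Bd_add D.toPre hx.bd (Bd_smul D.toPre _ hy.bd)

theorem VT_t (D : Dat K) : D.VT 1 D.t := by
  refine ⟨wt_t D.toPre, Or.inr ⟨?_, ?_, fun v h1 h2 => ?_⟩⟩
  · rw [D.ordP, Point.ord_one]; norm_num
  · rw [D.ordQ, Point.ord_one]; norm_num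
  · rw [D.ord v h1 h2, Point.ord_one]; norm_num

/-- `t w` for `w` in `W` of weight 3 -/
theorem WT_tw {D : Dat K} {d : K} (hd : D.Tw d) {w : K} (hw : D.WT d 3 w) :
    D.WT d (-3) (D.t * w) := by
  refine ⟨((wt_t D.toPre).mul hw.wt).congr (by decide), ?_⟩
  by_cases h0 : w = 0
  · rw [h0, mul_zero]; exact Or.inl rfl
  have h1 := hw.oj s_W hd
  rcases h1 with h1 | ⟨-, h1, h2⟩
  · exact absurd h1 h0
  rcases hw.bd with h | ⟨-, -, hv⟩
  · exact absurd h h0
  have ht := t_ne D.toPre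
  have hdP := hd.ordP
  have hdQ := hd.ordQ
  unfold aexp at h1 h2
  refine Or.inr ⟨?_, ?_, fun v h3 h4 => ?_⟩
  · rw [Point.ord_mul _ ht h0, D.ordP, hdP, h1]; norm_num
  · rw [Point.ord_mul _ ht h0, D.ordQ, hdQ, h2]; norm_num
  · rw [Point.ord_mul _ ht h0, D.ord v h3 h4, zero_add]
    exact hv v h3 h4

/-- `t x` for `x` in `V` of weight 3 -/
theorem VT_tx {D : Dat K} {x : K} (hx : D.VT 3 x) : D.VT (-3) (D.t * x) := by
  refine ⟨((wt_t D.toPre).mul hx.wt).congr (by decide), ?_⟩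
  by_cases h0 : x = 0
  · rw [h0, mul_zero]; exact Or.inl rfl
  have h1 := hx.oj s_V (by simp)
  rcases h1 with h1 | ⟨-, h1, h2⟩
  · exact absurd h1 h0
  rcases hx.bd with h | ⟨-, -, hv⟩
  · exact absurd h h0
  have ht := t_ne D.toPre
  unfold aexp at h1 h2
  refine Or.inr ⟨?_, ?_, fun v h3 h4 => ?_⟩
  · rw [Point.ord_mul _ ht h0, D.ordP, Point.ord_one, h1]; norm_num
  · rw [Point.ord_mul _ ht h0, D.ordQ, Point.ord_one, h2]; norm_num
  · rw [Point.ord_mul _ ht h0, D.ord v h3 h4, zero_add]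
    exact hv v h3 h4

end Pool.Agent.W518.EG
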