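import Pool.Agent.W518.EG.Final

/-!
# Project EG (MP_4f5420_ag): EG-GEN, the genus from the Hilbert function
-/

set_option autoImplicit false
set_option linter.unusedSectionVars false
set_option linter.unusedVariables false

open scoped WithZero Matrix
open IntermediateField
open Pool.Agent.Helper395.CS hiding genus
open Pool.Agent.Helper395.BC
open Pool.Agent.W518.PC (lpow)
open Pool.Agent.W45.PCG (lchain lplus le_lplus one_le_lplus lpow_degree mulEquiv lwith le_lwith
  mem_lwith)

namespace Pool.Agent.W518.EG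

variable {K : Type} [Field K] [Algebra ℂ K]

/-- Riemann's inequality -/
theorem riemann' (hK : IsCurve K) {δ t₀ : ℕ} {H : LineBundle K} (hδ : 1 ≤ δ) (hH : H.degree = δ)
    {G : ℤ} (hl : ∀ t : ℕ, t₀ ≤ t → FiniteDimensional ℂ (H0 (lpow H t)) ∧
      (Module.finrank ℂ (H0 (lpow H t)) : ℤ) = t * δ + 1 - G) (D : LineBundle K) :
    FiniteDimensional ℂ (H0 D) ∧ D.degree + 1 - G ≤ Module.finrank ℂ (H0 D) := by
  set N := (lplus D).degree with hN
  obtain ⟨t, ht1, ht2⟩ : ∃ t : ℕ, t₀ ≤ t ∧ 0 < (t : ℤ) * δ + 1 - G - N := by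
    refine ⟨max t₀ (G + N).toNat, le_max_left _ _, ?_⟩
    have h1 : (G + N).toNat ≤ max t₀ (G + N).toNat := le_max_right _ _
    set m := max t₀ (G + N).toNat
    have h2 : (G + N) ≤ (m : ℤ) := by omega
    have h3 : (m : ℤ) * 1 ≤ (m : ℤ) * δ := mul_le_mul_of_nonneg_left (by omega) (by omega)
    linarith
  obtain ⟨f1, f2⟩ := hl t ht1
  set M0 := lmul (lpow H t) (linv (lplus D)) with hM0
  have hsub : ∀ v s, s ∈ M0.stalk v → s ∈ (lpow H t).stalk v := by
    intro v s hs
    rw [mem_lmul] at hs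
    refine hs.trans ?_
    have h1 : v.val ((linv (lplus D)).frame v : K) ≤ 1 := by
      change v.val ((((lplus D).frame v)⁻¹ : Kˣ) : K) ≤ 1
      rw [Units.val_inv_eq_inv_val, map_inv₀]
      exact inv_le_one_of_one_le₀ (one_le_lplus D v)
    exact mul_le_of_le_one_right' h1
  obtain ⟨c1, c2⟩ := lchain hK hsub
  have hfin := c1.2 f1
  have c3 := (c2 f1).1
  have hdM : M0.degree = t * δ - N := by
    rw [hM0, lmul_degree, lpow_degree, linv_degree, hH, ← hN]
    ring
  rw [hdM, lpow_degree, hH, f2] at c3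
  have hpos : 0 < Module.finrank ℂ (H0 M0) := by omega
  have := Module.nontrivial_of_finrank_pos hpos
  obtain ⟨⟨f, hf⟩, hf0⟩ := exists_ne (0 : H0 M0)
  have hf0' : f ≠ 0 := fun h => hf0 (Subtype.ext h)
  set fu : Kˣ := Units.mk0 f hf0' with hfu
  set M := lmul (lprin hK fu⁻¹) (lpow H t) with hM
  have hDM : ∀ v s, s ∈ D.stalk v → s ∈ M.stalk v := by
    intro v s hs
    rw [mem_lmul]
    have h1 : v.val s ≤ v.val ((lplus D).frame v : K) := le_trans hs (le_lplus D v)
    have h2 := hf v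
    rw [mem_lmul] at h2
    have h3 : v.val ((linv (lplus D)).frame v : K) = (v.val ((lplus D).frame v : K))⁻¹ := by
      change v.val ((((lplus D).frame v)⁻¹ : Kˣ) : K) = _
      rw [Units.val_inv_eq_inv_val, map_inv₀]
    have h4 : v.val (((lprin hK fu⁻¹).frame v : Kˣ) : K) = (v.val f)⁻¹ := by
      change v.val ((fu⁻¹ : Kˣ) : K) = _
      rw [Units.val_inv_eq_inv_val, map_inv₀]
      rfl
    rw [h3] at h2
    rw [h4]
    refine h1.trans ?_
    have h5 : 0 < v.val ((lplus D).frame v : K) := frame_pos _ v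
    have h6 : 0 < v.val f := zero_lt_iff.2 (v.val_ne_zero hf0')
    rw [le_mul_inv_iff₀ h5] at h2
    rw [le_inv_mul_iff₀ h6]
    exact h2
  obtain ⟨d1, d2⟩ := lchain hK hDM
  have e := mulEquiv hK fu (lpow H t)
  have hfM : FiniteDimensional ℂ (H0 M) := e.symm.finiteDimensional
  have hrM : Module.finrank ℂ (H0 M) = Module.finrank ℂ (H0 (lpow H t)) := e.finrank_eq
  have d3 := (d2 hfM).1
  have hdM2 : M.degree = t * δ := by
    rw [hM, lmul_degree, lprin_degree, lpow_degree, hH, zero_add]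
  rw [hrM, f2, hdM2] at d3
  exact ⟨d1.2 hfM, by linarith⟩

theorem s_GEN : S_GEN := by
  intro K _ _ hK δ G t₀ H hδ hG1 hH hl'
  have hR := riemann' hK hδ hH hl'
  have hOm : ∀ D : LineBundle K, (∀ v s, s ∈ (lpow H t₀).stalk v → s ∈ D.stalk v) →
      Om1 (lpow H t₀) = Om1 D := by
    intro D hD
    obtain ⟨r1, r2⟩ := hR D
    obtain ⟨c1, c2⟩ := lchain hK hD
    obtain ⟨c3, c4⟩ := c2 r1
    apply c4
    have h5 := (hl' t₀ le_rfl).2
    rw [lpow_degree, hH, h5] at c3 ⊢
    apply le_antisymm c3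
    linarith
  have hbot : Om1 (lpow H t₀) = ⊥ := by
    rw [eq_bot_iff]
    intro l hl
    rw [Submodule.mem_bot]
    refine LinearMap.ext fun r => ?_
    rw [hOm (lwith (lpow H t₀) r) (le_lwith _ r)] at hl
    exact hl.2 r (mem_lwith _ r)
  have hchi : LHasChi (lpow H t₀) (t₀ * δ + 1 - G) := by
    refine ⟨(hl' t₀ le_rfl).1, ?_, ?_⟩
    · rw [hbot]; infer_instance
    · rw [hbot, finrank_bot, (hl' t₀ le_rfl).2]
      push_cast
      linarith
  have hchi1 := hasChi_of_hasChi hK (hasChi_lsum hchi 1) (F := lsum (one K) 1)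
  obtain ⟨k1, k2, k3⟩ := lHasChi_of_lsum hchi1
  rw [lsum_degree, lsum_degree, one_degree, lpow_degree, hH, (H0_one hK).2] at k3
  have hfr : (Module.finrank ℂ (Om1 (one K)) : ℤ) = G := by
    push_cast at k3
    linarith
  have e := Submodule.dualQuotEquivDualAnnihilator
    ((integralRepartitions K ⊔ principalRepartitions K).comap (repartitions K).subtype)
  rw [← om1_one_eq] at e
  have h5 := e.finrank_eq
  rw [Subspace.dual_finrank_eq] at h5
  have h7 : Module.finrank ℂ (↥(repartitions K) ⧸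
      (integralRepartitions K ⊔ principalRepartitions K).comap (repartitions K).subtype) =
      genus K := rfl
  rw [h7] at h5
  rw [← h5] at hfr
  exact_mod_cast hfr

end Pool.Agent.W518.EG
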