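import Pool.Agent.W518.EG.TCaseA

/-!
# Project EG (MP_4f5420_ag): EG-gonW, there is no pencil of degree 4
-/

set_option autoImplicit false

open scoped WithZero Matrix
open IntermediateField
open Pool.Agent.Helper395.CS hiding genus
open Pool.Agent.Helper395.BC

namespace Pool.Agent.W518.EG

variable {K : Type} [Field K] [Algebra ℂ K]

theorem TV_m3 : TV (-3) = -6 := by decide
theorem TV_1 : TV 1 = -5 := by decide
theorem TV_m2 : TV (-2) = -4 := by decide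
theorem TV_2 : TV 2 = -3 := by decide
theorem TV_3 : TV 3 = -1 := by decide
theorem TV_0 : TV 0 = 0 := by decide
theorem TV_m1 : TV (-1) = 5 := by decide

/-- the table and the decomposition at the point `v` -/
structure Loc (D : Dat K) (v : Point K) (ε : ℤ) : Prop where
  val : ∀ j u, v.val (D.comp j u) ≤ v.val u
  tab : ∀ u, D.Bd 1 u → ∀ j : ℤ, -3 ≤ j → j ≤ 3 → D.comp (ε * j) u ≠ 0 →
    v.ord (D.comp (ε * j) u) = TV j
  dec : ∀ u, u = D.comp (ε * 0) u + D.comp (ε * 1) u + D.comp (ε * 2) u +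
    D.comp (ε * 3) u + D.comp (ε * (-3)) u + D.comp (ε * (-2)) u + D.comp (ε * (-1)) u

theorem locP (D : Dat K) : Loc D D.P 1 where
  val := val_comp_le D.toPre D.P (valP D.toPre)
  tab u hu j h1 h2 h3 := by
    rw [one_mul] at h3 ⊢
    exact (tableV D hu j h1 h2 h3).1
  dec u := by
    simp only [one_mul]
    exact decomp s_comp D.toPre u

theorem locQ (D : Dat K) : Loc D D.Q (-1) where
  val := val_comp_le D.toPre D.Q (valQ D.toPre)
  tab u hu j h1 h2 h3 := by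
    rw [neg_one_mul] at h3 ⊢
    have := (tableV D hu (-j) (by omega) (by omega) h3).2
    rwa [neg_neg] at this
  dec u := by
    have h1 := decomp s_comp D.toPre u
    have e0 : (-1 : ℤ) * 0 = 0 := by norm_num
    have e1 : (-1 : ℤ) * 1 = -1 := by norm_num
    have e2 : (-1 : ℤ) * 2 = -2 := by norm_num
    have e3 : (-1 : ℤ) * 3 = -3 := by norm_num
    have e4 : (-1 : ℤ) * (-3) = 3 := by norm_num
    have e5 : (-1 : ℤ) * (-2) = 2 := by norm_num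
    have e6 : (-1 : ℤ) * (-1) = 1 := by norm_num
    rw [e0, e1, e2, e3, e4, e5, e6]
    linear_combination h1

theorem Loc.exists_ord {D : Dat K} {v : Point K} {ε : ℤ} (L : Loc D v ε) {u : K} (hu0 : u ≠ 0)
    (hu : D.Bd 1 u) : ∃ j : ℤ, -3 ≤ j ∧ j ≤ 3 ∧ D.comp (ε * j) u ≠ 0 ∧ v.ord u = TV j := by
  by_contra hcon
  push Not at hcon
  have h1 : ∀ j : ℤ, -3 ≤ j → j ≤ 3 → v.val (D.comp (ε * j) u) < v.val u := by
    intro j h1 h2
    by_cases h : D.comp (ε * j) u = 0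
    · rw [h, map_zero]; exact zero_lt_iff.2 (v.val_ne_zero hu0)
    · refine lt_of_le_of_ne (L.val _ _) ?_
      intro h3
      rw [v.val_eq_exp h, v.val_eq_exp hu0, L.tab u hu j h1 h2 h] at h3
      have h4 := WithZero.exp_injective h3
      exact hcon j h1 h2 h (by omega)
  have h2 : v.val u < v.val u := by
    conv_lhs => rw [L.dec u]
    exact Valuation.map_add_lt _ (Valuation.map_add_lt _ (Valuation.map_add_lt _
      (Valuation.map_add_lt _ (Valuation.map_add_lt _ (Valuation.map_add_lt _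
      (h1 0 (by norm_num) (by norm_num)) (h1 1 (by norm_num) (by norm_num)))
      (h1 2 (by norm_num) (by norm_num))) (h1 3 (by norm_num) (by norm_num)))
      (h1 (-3) (by norm_num) (by norm_num))) (h1 (-2) (by norm_num) (by norm_num)))
      (h1 (-1) (by norm_num) (by norm_num))
  exact lt_irrefl _ h2

theorem Loc.vanish {D : Dat K} {v : Point K} {ε : ℤ} (L : Loc D v ε) {u : K} (hu0 : u ≠ 0)
    (hu : D.Bd 1 u) (j : ℤ) (h1 : -3 ≤ j) (h2 : j ≤ 3) (h3 : TV j < v.ord u) :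
    D.comp (ε * j) u = 0 := by
  by_contra h
  have h5 := L.tab u hu j h1 h2 h
  have h6 : v.ord u ≤ v.ord (D.comp (ε * j) u) := by
    rw [← v.val_le_val_iff h hu0]
    exact L.val _ _
  omega

theorem Loc.pick {D : Dat K} {v : Point K} {ε : ℤ} (L : Loc D v ε) {f : K} {U : Submodule ℂ K}
    (hfin : FiniteDimensional ℂ U) (h4 : 4 ≤ Module.finrank ℂ U)
    (hU : ∀ u ∈ U, D.Bd 1 u ∧ D.Bd 1 (f * u)) (hf : f ≠ 0) (a b c : ℤ) :
    ∃ u ∈ U, u ≠ 0 ∧ D.comp (ε * a) u = 0 ∧ D.comp (ε * b) u = 0 ∧ D.comp (ε * c) u = 0 ∧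
      ∃ j j' : ℤ, -3 ≤ j ∧ j ≤ 3 ∧ -3 ≤ j' ∧ j' ≤ 3 ∧ v.ord u = TV j ∧ TV j' = TV j + v.ord f ∧
        j ≠ a ∧ j ≠ b ∧ j ≠ c := by
  have rk : ∀ j, Rk1 (D.comp j) U := fun j => rk_V D j U fun u hu => (hU u hu).1
  obtain ⟨u, hu, hu0, a1, a2, a3⟩ := exists_three hfin h4 (rk (ε * a)) (rk (ε * b))
    (rk (ε * c))
  obtain ⟨j, h1, h2, h3, h5⟩ := L.exists_ord hu0 (hU u hu).1
  obtain ⟨j', k1, k2, k3, k5⟩ := L.exists_ord (mul_ne_zero hf hu0) (hU u hu).2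
  refine ⟨u, hu, hu0, a1, a2, a3, j, j', h1, h2, k1, k2, h5, ?_, ?_, ?_, ?_⟩
  · rw [v.ord_mul hf hu0] at k5
    omega
  · rintro rfl; exact h3 a1
  · rintro rfl; exact h3 a2
  · rintro rfl; exact h3 a3

theorem Loc.nu {D : Dat K} {v : Point K} {ε : ℤ} (L : Loc D v ε) {f : K} {U : Submodule ℂ K}
    (hfin : FiniteDimensional ℂ U) (h4 : 4 ≤ Module.finrank ℂ U)
    (hU : ∀ u ∈ U, D.Bd 1 u ∧ D.Bd 1 (f * u)) (hf : f ≠ 0) (hν : 1 ≤ v.ord f) : v.ord f = 1 := by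
  by_contra hne
  have key : ∀ a b c : ℤ, (∀ j j' : ℤ, -3 ≤ j → j ≤ 3 → -3 ≤ j' → j' ≤ 3 → j ≠ a → j ≠ b →
      j ≠ c → TV j' ≠ TV j + v.ord f) → False := by
    intro a b c h
    obtain ⟨u, -, -, -, -, -, j, j', h1, h2, h3, h4, -, h6, h7, h8, h9⟩ :=
      L.pick hfin h4 hU hf a b c
    exact h j j' h1 h2 h3 h4 h7 h8 h9 h6
  have c1 : v.ord f = 2 ∨ v.ord f = 7 ∨ v.ord f = 8 ∨ v.ord f = 10 ∨ 11 ≤ v.ord f ∨
      v.ord f = 3 ∨ v.ord f = 9 ∨ v.ord f = 4 ∨ v.ord f = 5 ∨ v.ord f = 6 := by omega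
  have kk : ∀ a b c : ℤ, (∀ j j' : ℤ, (j = -3 ∨ j = -2 ∨ j = -1 ∨ j = 0 ∨ j = 1 ∨ j = 2 ∨ j = 3) →
      (j' = -3 ∨ j' = -2 ∨ j' = -1 ∨ j' = 0 ∨ j' = 1 ∨ j' = 2 ∨ j' = 3) → j ≠ a → j ≠ b →
      j ≠ c → TV j' ≠ TV j + v.ord f) → False := by
    intro a b c h
    exact key a b c fun j j' h1 h2 h3 h4 h5 h6 h7 => h j j' (j7 j h1 h2) (j7 j' h3 h4) h5 h6 h7
  rcases c1 with c | c | c | c | c | c | c | c | c | c
  all_goals
    first
    | (refine kk (-3) 1 2 ?_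
       rintro j j' (rfl | rfl | rfl | rfl | rfl | rfl | rfl)
         (rfl | rfl | rfl | rfl | rfl | rfl | rfl) h1 h2 h3 <;>
       simp only [TV_m3, TV_1, TV_m2, TV_2, TV_3, TV_0, TV_m1] <;> omega)
    | (refine kk (-3) (-2) 2 ?_
       rintro j j' (rfl | rfl | rfl | rfl | rfl | rfl | rfl)
         (rfl | rfl | rfl | rfl | rfl | rfl | rfl) h1 h2 h3 <;>
       simp only [TV_m3, TV_1, TV_m2, TV_2, TV_3, TV_0, TV_m1] <;> omega)
    | (refine kk 1 (-2) 2 ?_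
       rintro j j' (rfl | rfl | rfl | rfl | rfl | rfl | rfl)
         (rfl | rfl | rfl | rfl | rfl | rfl | rfl) h1 h2 h3 <;>
       simp only [TV_m3, TV_1, TV_m2, TV_2, TV_3, TV_0, TV_m1] <;> omega)
    | (refine kk (-3) 1 0 ?_
       rintro j j' (rfl | rfl | rfl | rfl | rfl | rfl | rfl)
         (rfl | rfl | rfl | rfl | rfl | rfl | rfl) h1 h2 h3 <;>
       simp only [TV_m3, TV_1, TV_m2, TV_2, TV_3, TV_0, TV_m1] <;> omega)
    | (refine kk (-3) 3 0 ?_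
       rintro j j' (rfl | rfl | rfl | rfl | rfl | rfl | rfl)
         (rfl | rfl | rfl | rfl | rfl | rfl | rfl) h1 h2 h3 <;>
       simp only [TV_m3, TV_1, TV_m2, TV_2, TV_3, TV_0, TV_m1] <;> omega)

/-- the element of order -1 -/
theorem Loc.one {D : Dat K} {v : Point K} {ε : ℤ} (L : Loc D v ε) {f : K} {U : Submodule ℂ K}
    (hfin : FiniteDimensional ℂ U) (h4 : 4 ≤ Module.finrank ℂ U)
    (hU : ∀ u ∈ U, D.Bd 1 u ∧ D.Bd 1 (f * u)) (hf : f ≠ 0) (hν : 1 ≤ v.ord f) :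
    ∃ u ∈ U, u ≠ 0 ∧ v.ord u = -1 ∧ v.ord (f * u) = 0 := by
  have h1 := L.nu hfin h4 hU hf hν
  obtain ⟨u, hu, hu0, -, -, -, j, j', h1', h2, h3, h5, h6, h7, h8, h9, h10⟩ :=
    L.pick hfin h4 hU hf (-3) 1 (-2)
  have h11 : v.ord u = -1 := by
    rw [h6]
    rw [h1] at h7
    rcases j7 j h1' h2 with rfl | rfl | rfl | rfl | rfl | rfl | rfl <;>
    rcases j7 j' h3 h5 with rfl | rfl | rfl | rfl | rfl | rfl | rfl <;>
    simp only [TV_m3, TV_1, TV_m2, TV_2, TV_3, TV_0, TV_m1] at h7 ⊢ <;> omega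
  exact ⟨u, hu, hu0, h11, by rw [v.ord_mul hf hu0, h1, h11]; rfl⟩

/-- the element of order -4 -/
theorem Loc.four {D : Dat K} {v : Point K} {ε : ℤ} (L : Loc D v ε) {f : K} {U : Submodule ℂ K}
    (hfin : FiniteDimensional ℂ U) (h4 : 4 ≤ Module.finrank ℂ U)
    (hU : ∀ u ∈ U, D.Bd 1 u ∧ D.Bd 1 (f * u)) (hf : f ≠ 0) (hν : 1 ≤ v.ord f) :
    ∃ u ∈ U, u ≠ 0 ∧ v.ord u = -4 ∧ v.ord (f * u) = -3 ∧ D.comp (ε * 3) u = 0 := by
  have h1 := L.nu hfin h4 hU hf hν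
  obtain ⟨u, hu, hu0, -, -, hz, j, j', h1', h2, h3, h5, h6, h7, h8, h9, h10⟩ :=
    L.pick hfin h4 hU hf (-3) 1 3
  have h11 : v.ord u = -4 := by
    rw [h6]
    rw [h1] at h7
    rcases j7 j h1' h2 with rfl | rfl | rfl | rfl | rfl | rfl | rfl <;>
    rcases j7 j' h3 h5 with rfl | rfl | rfl | rfl | rfl | rfl | rfl <;>
    simp only [TV_m3, TV_1, TV_m2, TV_2, TV_3, TV_0, TV_m1] at h7 ⊢ <;> omega
  exact ⟨u, hu, hu0, h11, by rw [v.ord_mul hf hu0, h1, h11]; rfl, hz⟩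

end Pool.Agent.W518.EG
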