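import Pool.Agent.W518.EG.TD7

/-!
# Project EG (MP_4f5420_ag): the semi-invariant pieces of `V` and `W`
-/

set_option autoImplicit false

open scoped WithZero Matrix
open IntermediateField
open Pool.Agent.Helper395.CS hiding genus
open Pool.Agent.Helper395.BC

namespace Pool.Agent.W518.EG

variable {K : Type} [Field K] [Algebra ℂ K]

open Classical in
/-- the values off `P` and `Q` -/
noncomputable def Pre.off (D : Pre K) (g : Point K → ℤ) (v : Point K) : ℤ :=
  if v = D.P ∨ v = D.Q then 0 else g v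

/-- the sum of the values off `P` and `Q` -/
noncomputable def Pre.R (D : Pre K) (g : Point K → ℤ) : ℤ := ∑ᶠ v : Point K, D.off g v

theorem off_ne (D : Pre K) (g : Point K → ℤ) {v : Point K} (h1 : v ≠ D.P) (h2 : v ≠ D.Q) :
    D.off g v = g v := by
  classical
  simp [Pre.off, h1, h2]

theorem off_P (D : Pre K) (g : Point K → ℤ) : D.off g D.P = 0 := by
  classical
  simp [Pre.off]

theorem off_Q (D : Pre K) (g : Point K → ℤ) : D.off g D.Q = 0 := by
  classical
  simp [Pre.off]

theorem off_supp (D : Pre K) {g : Point K → ℤ} (hg : (Function.support g).Finite) :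
    (Function.support (D.off g)).Finite := by
  classical
  refine hg.subset fun v hv => ?_
  rw [Function.mem_support] at hv ⊢
  intro h
  apply hv
  unfold Pre.off
  split_ifs
  · rfl
  · exact h

theorem sum_rest (D : Pre K) {g : Point K → ℤ} (hg : (Function.support g).Finite) :
    ∑ᶠ v : Point K, g v = g D.P + g D.Q + D.R g := by
  have h1 : ∀ v, g v = (g v - D.off g v) + D.off g v := fun v => by ring
  have h2 : (Function.support fun v => g v - D.off g v).Finite := by
    refine (hg.union (off_supp D hg)).subset fun v hv => ?_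
    by_contra hcon
    simp only [Set.mem_union, Function.mem_support, not_or, not_not] at hcon
    exact hv (by change g v - D.off g v = 0; rw [hcon.1, hcon.2, sub_zero])
  rw [finsum_congr h1, finsum_add_distrib h2 (off_supp D hg), sum_PQ D (fun v => g v - D.off g v)
    (fun v hP hQ => by rw [off_ne D g hP hQ, sub_self]), off_P, off_Q, sub_zero, sub_zero]
  rfl

theorem R_mono (D : Pre K) {g h : Point K → ℤ} (hg : (Function.support g).Finite)
    (hh : (Function.support h).Finite) (hle : ∀ v, v ≠ D.P → v ≠ D.Q → g v ≤ h v) :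
    D.R g ≤ D.R h := by
  refine finsum_le_finsum' (off_supp D hg) (off_supp D hh) fun v => ?_
  classical
  unfold Pre.off
  split_ifs with h
  · exact le_rfl
  · rw [not_or] at h
    exact hle v h.1 h.2

theorem R_zero (D : Pre K) : D.R (fun _ => 0) = 0 := by
  classical
  unfold Pre.R Pre.off
  simp

theorem R_nonneg (D : Pre K) {h : Point K → ℤ}
    (hh : (Function.support h).Finite) (hle : ∀ v, v ≠ D.P → v ≠ D.Q → 0 ≤ h v) :
    0 ≤ D.R h := by
  rw [← R_zero D]
  refine R_mono D ?_ hh hle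
  simp

theorem R_eq_zero (D : Pre K) {h : Point K → ℤ}
    (hh : (Function.support h).Finite) (hle : ∀ v, v ≠ D.P → v ≠ D.Q → 0 ≤ h v)
    (h0 : D.R h ≤ 0) : ∀ v, v ≠ D.P → v ≠ D.Q → h v = 0 := by
  classical
  intro v hP hQ
  by_contra hv
  have h1 : 1 ≤ h v := by
    have := hle v hP hQ
    omega
  have h2 : ∑ᶠ w : Point K, (if w = v then (1 : ℤ) else 0) ≤ D.R h := by
    refine finsum_le_finsum' ?_ (off_supp D hh) fun w => ?_
    · refine (Set.finite_singleton v).subset fun w hw => ?_
      by_contra hcon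
      exact hw (if_neg hcon)
    · by_cases hw : w = v
      · rw [if_pos hw, hw, off_ne D h hP hQ]
        exact h1
      · rw [if_neg hw]
        unfold Pre.off
        split_ifs with h3
        · exact le_rfl
        · rw [not_or] at h3
          exact hle w h3.1 h3.2
  have h3 : ∑ᶠ w : Point K, (if w = v then (1 : ℤ) else 0) = 1 := by
    rw [finsum_eq_single _ v (fun w hw => if_neg hw), if_pos rfl]
  omega

theorem supp_ord (D : Pre K) (f : K) : (Function.support fun v : Point K => v.ord f).Finite :=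
  finite_ord D.curve f

theorem supp_max (D : Pre K) (f : K) :
    (Function.support fun v : Point K => max (-v.ord f) 0).Finite := by
  refine (finite_ord D.curve f).subset fun v hv => ?_
  rw [Function.mem_support] at hv
  change v.ord f ≠ 0
  omega

theorem supp_two (D : Pre K) (f d : K) :
    (Function.support fun v : Point K => 2 * v.ord f + v.ord d).Finite := by
  refine ((finite_ord D.curve f).union (finite_ord D.curve d)).subset fun v hv => ?_
  rw [Function.mem_support] at hv
  by_contra hcon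
  simp only [Set.mem_union, Set.mem_ofPred_eq, not_or, not_not] at hcon
  exact hv (by rw [hcon.1, hcon.2]; rfl)

theorem ord_sum (D : Pre K) (f : K) : D.P.ord f + D.Q.ord f + D.R (fun v => v.ord f) = 0 := by
  rw [← sum_rest D (supp_ord D f), sum_ord D.curve]

theorem ord_sum2 (D : Pre K) (f d : K) : 2 * D.P.ord f + D.P.ord d + (2 * D.Q.ord f + D.Q.ord d) +
    D.R (fun v => 2 * v.ord f + v.ord d) = 0 := by
  have h := sum_rest D (supp_two D f d)
  rw [finsum_add_distrib, ← mul_finsum, sum_ord D.curve, sum_ord D.curve] at h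
  · omega
  · refine (finite_ord D.curve f).subset fun v hv => ?_
    rw [Function.mem_support] at hv
    change v.ord f ≠ 0
    omega
  · exact finite_ord D.curve d

theorem degP_sum (D : Pre K) (f : K) : degP f = max (-D.P.ord f) 0 + max (-D.Q.ord f) 0 +
    D.R (fun v => max (-v.ord f) 0) := by
  rw [degP, sum_rest D (supp_max D f)]

theorem const_of_degP (D : Dat K) {f : K} (hf : D.ρ f = f) (h : degP f < 14) :
    ∃ c : ℂ, f = algebraMap ℂ K c := by
  by_cases ht : Transcendental ℂ f
  · have := D.nr f hf ht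
    omega
  · exact exists_const ht

theorem fix_of_wt (D : Pre K) {j : ℤ} {f : K} (hf : D.Wt j f) (h : (7 : ℤ) ∣ j) : D.ρ f = f := by
  have h1 := hf.congr (k := 0) (by omega)
  unfold Pre.Wt at h1
  rw [h1, zpow_zero, one_smul]

theorem const_of_ord (D : Pre K) {f : K} (h : ∀ v : Point K, v.ord f = 0) :
    ∃ c : ℂ, f = algebraMap ℂ K c := by
  by_cases hf : f = 0
  · exact ⟨0, by rw [hf, map_zero]⟩
  exact const_of_regular D.curve fun v => by rw [v.val_le_one_iff hf, h v]

theorem s_V : S_V := by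
  intro K _ _ D j f hf hwt hbd
  rcases hbd with h | ⟨hP, hQ, hv⟩
  · exact absurd h hf
  rw [Point.ord_one] at hP hQ
  have hv' : ∀ v, v ≠ D.P → v ≠ D.Q → 0 ≤ v.ord f := by
    intro v h1 h2
    have := hv v h1 h2
    rw [Point.ord_one] at this
    omega
  have hsum := ord_sum D.toPre f
  have hR := R_nonneg D.toPre (supp_ord D.toPre f) hv'
  obtain ⟨hmP, hmQ⟩ := s_mod K D.toPre j f hf hwt
  have ht0 := t_ne D.toPre
  have hcase : D.P.ord f + D.Q.ord f = 0 ∨ D.P.ord f + D.Q.ord f = -7 := by omega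
  rcases hcase with hc | hc
  · left
    have h0 := R_eq_zero D.toPre (supp_ord D.toPre f) hv' (by omega)
    have hft : f * D.t ^ (-j) ≠ 0 := mul_ne_zero hf (zpow_ne_zero _ ht0)
    have h35 := s_ORD K D (f * D.t ^ (-j)) hft
      (fix_of_wt D.toPre (hwt.mul (wt_tpow D.toPre (-j))) (by omega)) (by
        intro v h1 h2
        rw [v.ord_mul hf (zpow_ne_zero _ ht0), ord_zpow, h0 v h1 h2, D.ord v h1 h2]
        ring)
    rw [Point.ord_mul _ hf (zpow_ne_zero _ ht0), ord_zpow, D.ordP] at h35
    have ha : D.P.ord f = -5 ∨ D.P.ord f = 0 ∨ D.P.ord f = 5 := by omega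
    have key : ∀ n : ℤ, D.P.ord f = -5 * n → ∃ c : ℂ, c ≠ 0 ∧ f = c • D.t ^ n := by
      intro n hn
      have hne : f * D.t ^ (-n) ≠ 0 := mul_ne_zero hf (zpow_ne_zero _ ht0)
      obtain ⟨c, hcc⟩ := const_of_ord D.toPre (f := f * D.t ^ (-n)) (by
        intro v
        rw [v.ord_mul hf (zpow_ne_zero _ ht0), ord_zpow]
        by_cases h1 : v = D.P
        · rw [h1, hn, D.ordP]; ring
        by_cases h2 : v = D.Q
        · have : D.Q.ord f = 5 * n := by omega
          rw [h2, this, D.ordQ]; ring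
        · rw [h0 v h1 h2, D.ord v h1 h2]; ring)
      refine ⟨c, ?_, ?_⟩
      · rintro rfl
        exact hne (by rw [hcc, map_zero])
      · rw [Algebra.smul_def, ← hcc, mul_assoc, ← zpow_add₀ ht0]
        simp
    rcases ha with ha | ha | ha
    · obtain ⟨c, hc1, hc2⟩ := key 1 (by omega)
      exact ⟨c, hc1, Or.inr (Or.inl ⟨by omega, by rwa [zpow_one] at hc2⟩)⟩
    · obtain ⟨c, hc1, hc2⟩ := key 0 (by omega)
      exact ⟨c, hc1, Or.inl ⟨by omega, by rw [hc2, zpow_zero, Algebra.smul_def, mul_one]⟩⟩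
    · obtain ⟨c, hc1, hc2⟩ := key (-1) (by omega)
      exact ⟨c, hc1, Or.inr (Or.inr ⟨by omega, by rwa [zpow_neg, zpow_one] at hc2⟩)⟩
  · right
    have haexp : D.P.ord f = aexp j := by unfold aexp; omega
    have h2 : D.Q.ord f = -7 - aexp j := by omega
    have hj : ¬ (7 : ℤ) ∣ j := by omega
    -- the weights 1 and -1 are impossible
    have key : ∀ n : ℤ, (7 : ℤ) ∣ j - n → D.P.ord f + 5 * n ≤ 0 → D.Q.ord f - 5 * n ≤ 0 → False := by
      intro n hn h3 h4
      have hne : f * D.t ^ (-n) ≠ 0 := mul_ne_zero hf (zpow_ne_zero _ ht0)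
      have oP : D.P.ord (f * D.t ^ (-n)) = D.P.ord f + 5 * n := by
        rw [Point.ord_mul _ hf (zpow_ne_zero _ ht0), ord_zpow, D.ordP]; ring
      have oQ : D.Q.ord (f * D.t ^ (-n)) = D.Q.ord f - 5 * n := by
        rw [Point.ord_mul _ hf (zpow_ne_zero _ ht0), ord_zpow, D.ordQ]; ring
      obtain ⟨c, hcc⟩ := const_of_degP D (f := f * D.t ^ (-n))
        (fix_of_wt D.toPre (hwt.mul (wt_tpow D.toPre (-n))) (by omega)) (by
          rw [degP_sum D.toPre]
          have h5 : D.R (fun v => max (-v.ord (f * D.t ^ (-n))) 0) ≤ 0 := by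
            refine le_trans ?_ (R_zero D.toPre).le
            refine R_mono D.toPre (supp_max D.toPre _) (by simp) fun v h5 h6 => ?_
            rw [v.ord_mul hf (zpow_ne_zero _ ht0), ord_zpow, D.ord v h5 h6]
            have := hv' v h5 h6
            omega
          omega)
      rw [hcc, Point.ord_const] at oP oQ
      omega
    have hj1 : ¬ (7 : ℤ) ∣ j - 1 := by
      intro h
      have h5 : aexp j = -5 := by unfold aexp; omega
      exact key 1 h (by omega) (by omega)
    have hjm : ¬ (7 : ℤ) ∣ j + 1 := by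
      intro h
      have h5 : aexp j = -2 := by unfold aexp; omega
      exact key (-1) (by omega) (by omega) (by omega)
    exact ⟨by omega, haexp, h2⟩

theorem s_V1 : S_V1 := by
  intro K _ _ D j f g hg hf hg' hbf hbg
  by_cases hf0 : f = 0
  · exact ⟨0, by rw [hf0, zero_smul]⟩
  have ht0 := t_ne D.toPre
  have hPQ : D.P.ord f = D.P.ord g ∧ D.Q.ord f = D.Q.ord g ∧
      -7 ≤ D.P.ord g + D.Q.ord g := by
    rcases s_V K D j f hf0 hf hbf with ⟨c, hc, h1 | h1 | h1⟩ | ⟨h1, h2, h3⟩ <;>
    rcases s_V K D j g hg hg' hbg with ⟨e, he, k1 | k1 | k1⟩ | ⟨k1, k2, k3⟩ <;>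
    first
    | omega
    | (rw [h1.2, k1.2]
       simp only [ord_smul' _ hc, ord_smul' _ he, Point.ord_const, Point.ord_inv, D.ordP, D.ordQ]
       norm_num)
  have hgv : ∀ v, v ≠ D.P → v ≠ D.Q → 0 ≤ v.ord g := by
    rcases hbg with h | ⟨-, -, hv⟩
    · exact absurd h hg
    intro v h1 h2
    have := hv v h1 h2
    rw [Point.ord_one] at this
    omega
  have hfv : ∀ v, v ≠ D.P → v ≠ D.Q → 0 ≤ v.ord f := by
    rcases hbf with h | ⟨-, -, hv⟩
    · exact absurd h hf0
    intro v h1 h2
    have := hv v h1 h2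
    rw [Point.ord_one] at this
    omega
  have hsum := ord_sum D.toPre g
  have ho : ∀ v : Point K, v.ord (f * g⁻¹) = v.ord f - v.ord g := by
    intro v
    rw [v.ord_mul hf0 (inv_ne_zero hg), v.ord_inv]; ring
  obtain ⟨c, hc⟩ := const_of_degP D (f := f * g⁻¹)
    (fix_of_wt D.toPre (hf.mul hg'.inv) (by omega)) (by
      rw [degP_sum D.toPre, ho, ho]
      have h5 : D.R (fun v => max (-v.ord (f * g⁻¹)) 0) ≤ D.R (fun v => v.ord g) := by
        refine R_mono D.toPre (supp_max D.toPre _) (supp_ord D.toPre g) fun v h5 h6 => ?_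
        have h1 := ho v
        have h2 := hgv v h5 h6
        have h3 := hfv v h5 h6
        simp only [h1]
        omega
      omega)
  exact ⟨c, by rw [Algebra.smul_def, ← hc]; field_simp⟩

theorem s_W : S_W := by
  intro K _ _ D d hd j f hf hwt hbd
  rcases hbd with h | ⟨hP, hQ, hv⟩
  · exact absurd h hf
  have hdP : D.P.ord d = -14 := hd.ordP
  have hdQ : D.Q.ord d = -14 := hd.ordQ
  rw [hdP] at hP
  rw [hdQ] at hQ
  have hsum := ord_sum2 D.toPre f d
  have hR := R_nonneg D.toPre (supp_two D.toPre f d) hv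
  obtain ⟨hmP, hmQ⟩ := s_mod K D.toPre j f hf hwt
  have ht0 := t_ne D.toPre
  rw [hdP, hdQ] at hsum
  have hodd : ∃ r, D.R (fun v => 2 * v.ord f + v.ord d) = 2 * r := ⟨14 - D.P.ord f - D.Q.ord f, by omega⟩
  have hcase : D.P.ord f + D.Q.ord f = 14 ∨ D.P.ord f + D.Q.ord f = 7 := by omega
  rcases hcase with hc | hc
  · exfalso
    have h0 := R_eq_zero D.toPre (supp_two D.toPre f d) hv (by omega)
    have hord : ∀ (n : ℤ) (v : Point K), v.ord (d * (f * D.t ^ (-n)) ^ 2) =
        2 * v.ord f + v.ord d - 2 * n * v.ord D.t := by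
      intro n v
      rw [v.ord_mul hd.ne (pow_ne_zero 2 (mul_ne_zero hf (zpow_ne_zero _ ht0))), v.ord_pow,
        v.ord_mul hf (zpow_ne_zero _ ht0), ord_zpow]
      push_cast
      ring
    have h35 := s_ORD K D (d * (f * D.t ^ (-j)) ^ 2)
      (mul_ne_zero hd.ne (pow_ne_zero 2 (mul_ne_zero hf (zpow_ne_zero _ ht0)))) (by
        rw [map_mul, map_pow, hd.inv,
          fix_of_wt D.toPre (hwt.mul (wt_tpow D.toPre (-j))) (by omega)]) (by
        intro v h1 h2
        rw [hord, h0 v h1 h2, D.ord v h1 h2]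
        ring)
    rw [hord, D.ordP, hdP] at h35
    obtain ⟨n, hn1, hn2⟩ : ∃ n : ℤ, D.P.ord f = 7 - 5 * n ∧ (7 : ℤ) ∣ j - n := by
      have : D.P.ord f = 2 ∨ D.P.ord f = 7 ∨ D.P.ord f = 12 := by omega
      rcases this with h | h | h
      · exact ⟨1, by omega, by omega⟩
      · exact ⟨0, by omega, by omega⟩
      · exact ⟨-1, by omega, by omega⟩
    have hne : f * D.t ^ (-n) ≠ 0 := mul_ne_zero hf (zpow_ne_zero _ ht0)
    obtain ⟨c, hcc⟩ := const_of_ord D.toPre (f := d * (f * D.t ^ (-n)) ^ 2) (by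
        intro v
        rw [hord]
        by_cases h1 : v = D.P
        · rw [h1, hn1, D.ordP, hdP]; ring
        by_cases h2 : v = D.Q
        · have : D.Q.ord f = 7 + 5 * n := by omega
          rw [h2, this, D.ordQ, hdQ]; ring
        · rw [h0 v h1 h2, D.ord v h1 h2]; ring)
    refine hd.nsq (f * D.t ^ (-n))⁻¹ c ?_ ?_
    · rw [map_inv₀, fix_of_wt D.toPre (hwt.mul (wt_tpow D.toPre (-n))) (by omega)]
    · rw [Algebra.smul_def, ← hcc]
      field_simp
  · refine ⟨by omega, ?_, ?_⟩
    · unfold aexp; omega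
    · unfold aexp; omega

theorem s_W1 : S_W1 := by
  intro K _ _ D d hd j f g hg hf hg' hbf hbg
  by_cases hf0 : f = 0
  · exact ⟨0, by rw [hf0, zero_smul]⟩
  obtain ⟨-, a1, a2⟩ := s_W K D d hd j f hf0 hf hbf
  obtain ⟨-, b1, b2⟩ := s_W K D d hd j g hg hg' hbg
  have hdP : D.P.ord d = -14 := hd.ordP
  have hdQ : D.Q.ord d = -14 := hd.ordQ
  have hgv : ∀ v, v ≠ D.P → v ≠ D.Q → 0 ≤ 2 * v.ord g + v.ord d := by
    rcases hbg with h | ⟨-, -, hv⟩
    · exact absurd h hg
    exact hv
  have hfv : ∀ v, v ≠ D.P → v ≠ D.Q → 0 ≤ 2 * v.ord f + v.ord d := by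
    rcases hbf with h | ⟨-, -, hv⟩
    · exact absurd h hf0
    exact hv
  have hsum := ord_sum2 D.toPre g d
  have ho : ∀ v : Point K, v.ord (f * g⁻¹) = v.ord f - v.ord g := by
    intro v
    rw [v.ord_mul hf0 (inv_ne_zero hg), v.ord_inv]; ring
  obtain ⟨c, hc⟩ := const_of_degP D (f := f * g⁻¹)
    (fix_of_wt D.toPre (hf.mul hg'.inv) (by omega)) (by
      rw [degP_sum D.toPre, ho, ho]
      have h4 : (Function.support fun v : Point K => 2 * max (-v.ord (f * g⁻¹)) 0).Finite := by
        refine (supp_max D.toPre (f * g⁻¹)).subset fun v hv => ?_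
        rw [Function.mem_support] at hv ⊢
        intro h
        exact hv (by rw [h]; rfl)
      have h5 : D.R (fun v => 2 * max (-v.ord (f * g⁻¹)) 0) ≤
          D.R (fun v => 2 * v.ord g + v.ord d) := by
        refine R_mono D.toPre h4 (supp_two D.toPre g d) fun v h5 h6 => ?_
        have h1 := ho v
        have h2 := hgv v h5 h6
        have h3 := hfv v h5 h6
        simp only [h1]
        omega
      have h6 : D.R (fun v => 2 * max (-v.ord (f * g⁻¹)) 0) =
          2 * D.R (fun v => max (-v.ord (f * g⁻¹)) 0) := by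
        unfold Pre.R
        rw [mul_finsum]
        refine finsum_congr fun v => ?_
        classical
        unfold Pre.off
        split_ifs <;> ring
      omega)
  exact ⟨c, by rw [Algebra.smul_def, ← hc]; field_simp⟩

end Pool.Agent.W518.EG
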